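import Mathlib
import Pool.Agent.Lib.MP_daa227_pr_OTP.Defs
import Pool.Agent.Lib.MP_daa227_pr.Mom

/-!
# Pinning at the marginal exponent one half. Definitions.
-/

namespace Pool.Agent.OTM

open MeasureTheory ProbabilityTheory Finset Filter
open MP_daa227_pr (shift seqLaw ExpMom DepOn mom)
open Pool.Agent.OT (en lmg)
open Pool.Agent.OTP (Zp KerP wB spB LP)

noncomputable section

/-- renewal mass function -/
def uu (K : ℕ → ℝ) (n : ℕ) : ℝ := Zp K n (fun _ => 0)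

/-- two-sided bounds for a renewal of exponent one half -/
structure RenB (K : ℕ → ℝ) (c C : ℝ) : Prop where
  cpos : 0 < c
  Cpos : 1 ≤ C
  low : ∀ n : ℕ, c / √((n : ℝ) + 1) ≤ uu K n
  up : ∀ n : ℕ, uu K n ≤ C / √((n : ℝ) + 1)
  anti : ∀ n : ℕ, uu K (n + 1) ≤ uu K n
  conv : ∀ n : ℕ, ∑ z ∈ range (n + 1), uu K z * uu K (n - z) ≤ C
  few : ∀ (n : ℕ) (r : ℝ), 1 ≤ r → Zp K n (fun _ => -(1 / r)) ≤ C * r / ((n : ℝ) + 1)
  tail : ∀ j N : ℕ, ∑ y ∈ Icc 1 N, K (j + y) ≤ C / √((j : ℝ) + 1)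
  kup : ∀ k : ℕ, 1 ≤ k → K k ≤ C / ((k : ℝ) * √(k : ℝ))

/-- charges (numbered from zero) met by a configuration of `n` sites started at the site `y`; the
site `y` is occupied -/
def Tset (y n : ℕ) (s : Fin n → Bool) : Finset ℕ :=
  insert (y - 1) ((univ.filter fun i : Fin n => s i = true).image fun i : Fin n => y + (i : ℕ))

/-- number of intervals of length `l` of the regular partition met by `T` -/
def vis (l : ℕ) (T : Finset ℕ) : ℝ := ((T.image fun i => i / l).card : ℝ)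

/-- good sets of charges: the right number of sites, and not too many intervals visited -/
def GoodT (a A : ℝ) (n S : ℕ) (T : Finset ℕ) : Prop :=
  a * √(n : ℝ) ≤ (T.card : ℝ) ∧ (T.card : ℝ) ≤ A * √(n : ℝ) ∧
    ∑ t ∈ Icc 1 S, √((2 : ℝ) ^ t) * vis (2 ^ t) T ≤ A * S * √(n : ℝ)

/-- dyadic two-body kernel on `range (2 ^ L)` -/
def Vk (L i j : ℕ) : ℝ :=
  (1 / √((2 : ℝ) ^ L * L)) * ∑ t ∈ Icc 1 L, (if i / 2 ^ t = j / 2 ^ t then 1 / √((2 : ℝ) ^ t) else 0)

/-- energy of a set of charges -/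
def YY (L : ℕ) (T : Finset ℕ) : ℝ := ∑ j ∈ T, ∑ i ∈ T with i < j, Vk L i j

/-- two-body potential of the charges -/
def XX (L : ℕ) (ω : ℕ → ℝ) : ℝ := ∑ j ∈ range (2 ^ L), ∑ i ∈ range j, Vk L i j * ω i * ω j

open Classical in
/-- penalisation of the environments with a large two-body potential -/
def gg (L : ℕ) (x₀ η₀ : ℝ) (ω : ℕ → ℝ) : ℝ := if XX L ω ≤ x₀ then 1 else η₀

end

end Pool.Agent.OTM
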