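import Mathlib
import Pool.Agent.Lib.MP_daa227_pr_OTM.Defs
import Pool.Agent.Lib.MP_daa227_pr_OTP.ZEP

/-!
# Pinning at the marginal exponent one half: the weight of the bad configurations is small
-/

namespace Pool.Agent.OTM

open MeasureTheory ProbabilityTheory Finset Filter
open MP_daa227_pr (shift seqLaw ExpMom DepOn mom)
open Pool.Agent.OT (en lmg)
open Pool.Agent.OTP (Zp KerP wB spB LP)

noncomputable section

namespace M4

/-- number of occupied sites -/
def NN (n : ℕ) (s : Fin n → Bool) : ℝ := ∑ i : Fin n, spB n s i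

theorem NN_eq (n : ℕ) (s : Fin n → Bool) :
    NN n s = ((univ.filter fun i : Fin n => s i = true).card : ℝ) := by
  unfold NN spB
  rw [Finset.card_filter]
  push_cast
  rfl

theorem NN_le (y n : ℕ) (s : Fin n → Bool) : NN n s ≤ ((Tset y n s).card : ℝ) := by
  rw [NN_eq]
  have h1 : (univ.filter fun i : Fin n => s i = true).card ≤ (Tset y n s).card := by
    unfold Tset
    refine le_trans ?_ (Finset.card_le_card (Finset.subset_insert _ _))
    rw [Finset.card_image_of_injective]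
    intro i j hij
    have h : y + (i : ℕ) = y + (j : ℕ) := hij
    exact Fin.ext (by omega)
  exact_mod_cast h1

theorem one_le_card (y n : ℕ) (s : Fin n → Bool) : (1 : ℝ) ≤ ((Tset y n s).card : ℝ) := by
  have h1 : 1 ≤ (Tset y n s).card := Finset.card_pos.2 ⟨y - 1, Finset.mem_insert_self _ _⟩
  exact_mod_cast h1

theorem vis_one (T : Finset ℕ) : vis 1 T = (T.card : ℝ) := by
  unfold vis
  simp

theorem vis_nonneg (l : ℕ) (T : Finset ℕ) : 0 ≤ vis l T := Nat.cast_nonneg _

/-- few sites -/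
theorem few {K : ℕ → ℝ} (hK : KerP K) (n : ℕ) {r : ℝ} (hr : 0 < r) :
    ∑ s : Fin n → Bool, wB K n 0 s * (if NN n s ≤ r then 1 else 0) ≤
      Real.exp 1 * Zp K n (fun _ => -(1 / r)) := by
  rw [← (OTP.ZE.Zg_main K n).1]
  unfold OTP.ZE.Zg
  rw [mul_sum]
  refine sum_le_sum fun s _ => ?_
  have hw := OTP.ZE.wB_nonneg hK n 0 s
  have h1 : ∑ i : Fin n, -(1 / r) * spB n s i = -(NN n s / r) := by
    rw [← mul_sum]; unfold NN; ring
  rw [h1]
  have h2 : (if NN n s ≤ r then (1 : ℝ) else 0) ≤ Real.exp 1 * Real.exp (-(NN n s / r)) := by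
    rw [← Real.exp_add]
    split_ifs with h
    · have h3 : NN n s / r ≤ 1 := (div_le_one hr).2 h
      exact Real.one_le_exp (by linarith)
    · exact (Real.exp_pos _).le
  calc wB K n 0 s * (if NN n s ≤ r then (1 : ℝ) else 0)
      ≤ wB K n 0 s * (Real.exp 1 * Real.exp (-(NN n s / r))) := mul_le_mul_of_nonneg_left h2 hw
    _ = Real.exp 1 * (wB K n 0 s * Real.exp (-(NN n s / r))) := by ring

/-- Markov -/
theorem markov {K : ℕ → ℝ} (hK : KerP K) (n : ℕ) (f : (Fin n → Bool) → ℝ) (hf : ∀ s, 0 ≤ f s)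
    {B m : ℝ} (hB : 0 < B) (h : ∑ s : Fin n → Bool, wB K n 0 s * f s ≤ m) :
    ∑ s : Fin n → Bool, wB K n 0 s * (if B < f s then 1 else 0) ≤ m / B := by
  rw [le_div_iff₀ hB, sum_mul]
  refine le_trans (sum_le_sum fun s _ => ?_) h
  have hw := OTP.ZE.wB_nonneg hK n 0 s
  rw [mul_assoc]
  refine mul_le_mul_of_nonneg_left ?_ hw
  split_ifs with h1
  · rw [one_mul]; exact h1.le
  · rw [zero_mul]; exact hf s

end M4

open Classical in
theorem bad {K : ℕ → ℝ} (hK : KerP K) {c C : ℝ} (hR : RenB K c C) {C' : ℝ} (hC' : 0 < C')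
    (hV : ∀ n y l : ℕ, 1 ≤ y → 1 ≤ l → l ≤ n →
      ∑ s : Fin n → Bool, wB K n 0 s * vis l (Tset y n s) ≤ C' / √(l : ℝ))
    {δ : ℝ} (hδ : 0 < δ) :
    ∃ a A : ℝ, 0 < a ∧ 0 < A ∧ ∀ n y S : ℕ, 1 ≤ n → 1 ≤ y → 1 ≤ S → 2 ^ S ≤ n →
      ∑ s : Fin n → Bool, wB K n 0 s * (if GoodT a A n S (Tset y n s) then 0 else 1) ≤
        δ * uu K n := by
  have hc := hR.cpos
  have hC : 0 < C := lt_of_lt_of_le one_pos hR.Cpos
  refine ⟨δ * c / (9 * C), 6 * C' / (δ * c), by positivity, by positivity, ?_⟩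
  intro n y S hn hy hS hSn
  set a := δ * c / (9 * C) with ha
  set A := 6 * C' / (δ * c) with hA
  have ha0 : 0 < a := by positivity
  have hA0 : 0 < A := by positivity
  have hn0 : (1 : ℝ) ≤ n := by exact_mod_cast hn
  have hsn : 0 < √(n : ℝ) := Real.sqrt_pos.2 (by linarith)
  have hsn1 : 0 < √((n : ℝ) + 1) := Real.sqrt_pos.2 (by linarith)
  have hS0 : (1 : ℝ) ≤ S := by exact_mod_cast hS
  -- the target
  have hu : δ * c / √((n : ℝ) + 1) ≤ δ * uu K n := by
    rw [mul_div_assoc]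
    exact mul_le_mul_of_nonneg_left (hR.low n) hδ.le
  -- part 1
  have p1 : ∑ s : Fin n → Bool, wB K n 0 s *
      (if ((Tset y n s).card : ℝ) < a * √(n : ℝ) then 1 else 0) ≤ δ * c / √((n : ℝ) + 1) / 3 := by
    by_cases hr : a * √(n : ℝ) < 1
    · have h0 : ∀ s : Fin n → Bool, wB K n 0 s *
          (if ((Tset y n s).card : ℝ) < a * √(n : ℝ) then (1 : ℝ) else 0) = 0 := fun s => by
        rw [if_neg (by have := M4.one_le_card y n s; linarith), mul_zero]
      rw [sum_congr rfl fun s _ => h0 s, sum_const_zero]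
      positivity
    · push Not at hr
      have h1 := M4.few hK n (lt_of_lt_of_le one_pos hr)
      have h2 := hR.few n _ hr
      have h3 : ∑ s : Fin n → Bool, wB K n 0 s *
          (if ((Tset y n s).card : ℝ) < a * √(n : ℝ) then 1 else 0) ≤
          ∑ s : Fin n → Bool, wB K n 0 s * (if M4.NN n s ≤ a * √(n : ℝ) then 1 else 0) := by
        refine sum_le_sum fun s _ => mul_le_mul_of_nonneg_left ?_ (OTP.ZE.wB_nonneg hK n 0 s)
        split_ifs with h4 h5
        · exact le_rfl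
        · exact absurd ((M4.NN_le y n s).trans h4.le) h5
        · exact zero_le_one
        · exact le_rfl
      refine h3.trans (h1.trans ?_)
      have h4 : Real.exp 1 ≤ 3 := Real.exp_one_lt_d9.le.trans (by norm_num)
      have h5 : Real.exp 1 * Zp K n (fun _ => -(1 / (a * √(n : ℝ)))) ≤
          3 * (C * (a * √(n : ℝ)) / ((n : ℝ) + 1)) :=
        mul_le_mul h4 h2 (by
          rw [← (OTP.ZE.Zg_main K n).1]
          exact sum_nonneg fun s _ => mul_nonneg (OTP.ZE.wB_nonneg hK n 0 s) (Real.exp_pos _).le)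
          (by norm_num)
      refine h5.trans ?_
      have h6 : √(n : ℝ) ≤ √((n : ℝ) + 1) := Real.sqrt_le_sqrt (by linarith)
      have h7 : (n : ℝ) + 1 = √((n : ℝ) + 1) * √((n : ℝ) + 1) :=
        (Real.mul_self_sqrt (by linarith)).symm
      have h8 : 3 * (C * (a * √(n : ℝ)) / ((n : ℝ) + 1)) =
          (δ * c / 3) * (√(n : ℝ) / ((n : ℝ) + 1)) := by
        rw [ha]; field_simp; ring
      have h9 : √(n : ℝ) / ((n : ℝ) + 1) ≤ 1 / √((n : ℝ) + 1) := by
        rw [div_le_div_iff₀ (by linarith) hsn1, one_mul]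
        nlinarith [h6, h7, hsn1]
      rw [h8]
      have h10 : (δ * c / 3) * (√(n : ℝ) / ((n : ℝ) + 1)) ≤ (δ * c / 3) * (1 / √((n : ℝ) + 1)) :=
        mul_le_mul_of_nonneg_left h9 (by positivity)
      refine h10.trans (le_of_eq ?_)
      field_simp
  have hlast : C' / (A * √(n : ℝ)) ≤ δ * c / √((n : ℝ) + 1) / 3 := by
    have h1 : C' / (A * √(n : ℝ)) = δ * c / (6 * √(n : ℝ)) := by
      rw [hA]; field_simp
    rw [h1, div_div, div_le_div_iff₀ (by positivity) (by positivity)]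
    have h2 : √((n : ℝ) + 1) ≤ 2 * √(n : ℝ) := by
      rw [Real.sqrt_le_left (by positivity), mul_pow, Real.sq_sqrt (by linarith)]
      linarith
    nlinarith [mul_pos hδ hc]
  -- part 2
  have p2 : ∑ s : Fin n → Bool, wB K n 0 s *
      (if A * √(n : ℝ) < ((Tset y n s).card : ℝ) then 1 else 0) ≤ δ * c / √((n : ℝ) + 1) / 3 := by
    have h1 := hV n y 1 hy le_rfl hn
    simp only [M4.vis_one, Nat.cast_one, Real.sqrt_one, div_one] at h1
    exact (M4.markov hK n (fun s => ((Tset y n s).card : ℝ)) (fun s => Nat.cast_nonneg _)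
      (mul_pos hA0 hsn) h1).trans hlast
  -- part 3
  have p3 : ∑ s : Fin n → Bool, wB K n 0 s *
      (if A * S * √(n : ℝ) < ∑ t ∈ Icc 1 S, √((2 : ℝ) ^ t) * vis (2 ^ t) (Tset y n s) then 1 else 0)
        ≤ δ * c / √((n : ℝ) + 1) / 3 := by
    have h1 : ∑ s : Fin n → Bool, wB K n 0 s *
        ∑ t ∈ Icc 1 S, √((2 : ℝ) ^ t) * vis (2 ^ t) (Tset y n s) ≤ S * C' := by
      have h2 : ∑ s : Fin n → Bool, wB K n 0 s *
          ∑ t ∈ Icc 1 S, √((2 : ℝ) ^ t) * vis (2 ^ t) (Tset y n s) =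
          ∑ t ∈ Icc 1 S, √((2 : ℝ) ^ t) *
            ∑ s : Fin n → Bool, wB K n 0 s * vis (2 ^ t) (Tset y n s) := by
        simp only [mul_sum]
        rw [sum_comm]
        refine sum_congr rfl fun t _ => sum_congr rfl fun s _ => by ring
      rw [h2]
      have h3 : ∀ t ∈ Icc 1 S, √((2 : ℝ) ^ t) *
          ∑ s : Fin n → Bool, wB K n 0 s * vis (2 ^ t) (Tset y n s) ≤ C' := by
        intro t ht
        rw [mem_Icc] at ht
        have h4 : 2 ^ t ≤ n := (Nat.pow_le_pow_right (by norm_num) ht.2).trans hSn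
        have h5 := hV n y (2 ^ t) hy Nat.one_le_two_pow h4
        have h6 : 0 < √((2 : ℝ) ^ t) := Real.sqrt_pos.2 (by positivity)
        push_cast at h5
        calc √((2 : ℝ) ^ t) * ∑ s : Fin n → Bool, wB K n 0 s * vis (2 ^ t) (Tset y n s)
            ≤ √((2 : ℝ) ^ t) * (C' / √((2 : ℝ) ^ t)) := mul_le_mul_of_nonneg_left h5 h6.le
          _ = C' := by field_simp
      refine (sum_le_sum h3).trans (le_of_eq ?_)
      rw [sum_const, Nat.card_Icc, nsmul_eq_mul]
      simp
    have h2 := M4.markov hK n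
      (fun s => ∑ t ∈ Icc 1 S, √((2 : ℝ) ^ t) * vis (2 ^ t) (Tset y n s))
      (fun s => sum_nonneg fun t _ => mul_nonneg (Real.sqrt_nonneg _) (M4.vis_nonneg _ _))
      (B := A * S * √(n : ℝ)) (by positivity) h1
    refine h2.trans ?_
    have h3 : (S : ℝ) * C' / (A * S * √(n : ℝ)) = C' / (A * √(n : ℝ)) := by
      field_simp
    rw [h3]
    exact hlast
  -- together
  refine le_trans ?_ hu
  have hsum : ∑ s : Fin n → Bool, wB K n 0 s * (if GoodT a A n S (Tset y n s) then 0 else 1) ≤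
      ∑ s : Fin n → Bool, wB K n 0 s *
        (if ((Tset y n s).card : ℝ) < a * √(n : ℝ) then 1 else 0) +
      ∑ s : Fin n → Bool, wB K n 0 s *
        (if A * √(n : ℝ) < ((Tset y n s).card : ℝ) then 1 else 0) +
      ∑ s : Fin n → Bool, wB K n 0 s *
        (if A * S * √(n : ℝ) < ∑ t ∈ Icc 1 S, √((2 : ℝ) ^ t) * vis (2 ^ t) (Tset y n s)
          then 1 else 0) := by
    rw [← sum_add_distrib, ← sum_add_distrib]
    refine sum_le_sum fun s _ => ?_
    have hw := OTP.ZE.wB_nonneg hK n 0 s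
    rw [← mul_add, ← mul_add]
    refine mul_le_mul_of_nonneg_left ?_ hw
    by_cases g : GoodT a A n S (Tset y n s)
    · rw [if_pos g]
      positivity
    · rw [if_neg g]
      unfold GoodT at g
      by_cases g1 : ((Tset y n s).card : ℝ) < a * √(n : ℝ)
      · rw [if_pos g1]
        have e1 : (0 : ℝ) ≤ (if A * √(n : ℝ) < ((Tset y n s).card : ℝ) then 1 else 0) := by
          positivity
        have e2 : (0 : ℝ) ≤ (if A * S * √(n : ℝ) <
          ∑ t ∈ Icc 1 S, √((2 : ℝ) ^ t) * vis (2 ^ t) (Tset y n s) then 1 else 0) := by positivity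
        linarith
      · by_cases g2 : A * √(n : ℝ) < ((Tset y n s).card : ℝ)
        · rw [if_neg g1, if_pos g2]
          have e2 : (0 : ℝ) ≤ (if A * S * √(n : ℝ) <
            ∑ t ∈ Icc 1 S, √((2 : ℝ) ^ t) * vis (2 ^ t) (Tset y n s) then 1 else 0) := by
            positivity
          linarith
        · have g3 : A * S * √(n : ℝ) <
              ∑ t ∈ Icc 1 S, √((2 : ℝ) ^ t) * vis (2 ^ t) (Tset y n s) := by
            by_contra g3
            exact g ⟨not_lt.1 g1, not_lt.1 g2, not_lt.1 g3⟩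
          rw [if_neg g1, if_neg g2, if_pos g3]
          norm_num
  refine hsum.trans ?_
  linarith

end

end Pool.Agent.OTM
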