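import Mathlib
import Pool.Agent.Lib.MP_daa227_pr_OTM.Defs

/-!
# Pinning at the marginal exponent one half. Conditional Hoelder inequality for fractional moments.
-/

namespace Pool.Agent.OTM

open MeasureTheory ProbabilityTheory Finset Filter
open MP_daa227_pr (shift seqLaw ExpMom DepOn mom)

noncomputable section

theorem lint_split (μ : Measure ℝ) [IsProbabilityMeasure μ] (d : ℕ)
    {F : (ℕ → ℝ) → (ℕ → ℝ) → ENNReal} (hF : Measurable (Function.uncurry F))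
    (hd : ∀ ω', DepOn d (fun ω => F ω ω')) :
    ∫⁻ ω, F ω (shift d ω) ∂seqLaw μ = ∫⁻ ω', ∫⁻ ω, F ω ω' ∂seqLaw μ ∂seqLaw μ := by
  induction d generalizing F with
  | zero =>
    have hc : ∀ ω ω', F ω ω' = F (fun _ => 0) ω' := fun ω ω' => hd ω' ω (fun _ => 0) (by simp)
    have h1 : ∀ ω, F ω (shift 0 ω) = F (fun _ => 0) ω := fun ω => by
      rw [MP_daa227_pr.shift_zero]; exact hc ω ω
    simp_rw [h1]
    apply lintegral_congr
    intro ω'
    have h2 : ∀ ω, F ω ω' = F (fun _ => 0) ω' := fun ω => hc ω ω'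
    simp_rw [h2]
    rw [lintegral_const, measure_univ, mul_one]
  | succ d ih =>
    have hm : Measurable (fun ω : ℕ → ℝ => F ω (shift (d + 1) ω)) :=
      hF.comp (measurable_id.prodMk (MP_daa227_pr.measurable_shift (d + 1)))
    rw [MP_daa227_pr.lintegral_cons μ (F := fun ω => F ω (shift (d + 1) ω)) hm]
    simp_rw [MP_daa227_pr.shift_succ_cons]
    have h1 : ∀ x : ℝ, ∫⁻ ω, F (MP_daa227_pr.cons x ω) (shift d ω) ∂seqLaw μ =
        ∫⁻ ω', ∫⁻ ω, F (MP_daa227_pr.cons x ω) ω' ∂seqLaw μ ∂seqLaw μ := by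
      intro x
      refine ih (F := fun ω ω' => F (MP_daa227_pr.cons x ω) ω') ?_ ?_
      · exact hF.comp (((MP_daa227_pr.measurable_cons' x).comp measurable_fst).prodMk measurable_snd)
      · intro ω'
        exact (hd ω').cons x
    simp_rw [h1]
    have hm3 : Measurable (fun q : (ℝ × (ℕ → ℝ)) × (ℕ → ℝ) => F (MP_daa227_pr.cons q.1.1 q.2) q.1.2) :=
      hF.comp ((MP_daa227_pr.measurable_cons.comp
        ((measurable_fst.comp measurable_fst).prodMk measurable_snd)).prodMk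
          (measurable_snd.comp measurable_fst))
    rw [lintegral_lintegral_swap (hm3.lintegral_prod_right').aemeasurable]
    apply lintegral_congr
    intro ω'
    exact (MP_daa227_pr.lintegral_cons μ (F := fun ω => F ω ω')
      (hF.comp (measurable_id.prodMk measurable_const))).symm

theorem cond_holder (μ : Measure ℝ) [IsProbabilityMeasure μ] {γ : ℝ} (h0 : 0 < γ) (h1 : γ < 1)
    (d e : ℕ) (hde : d ≤ e) (I : Finset ℕ) {b X : ℕ → (ℕ → ℝ) → ℝ} (hb : ∀ z ∈ I, Measurable (b z))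
    (hX : ∀ z ∈ I, Measurable (X z)) (hbd : ∀ z ∈ I, DepOn d (b z)) (hb0 : ∀ z ∈ I, ∀ ω, 0 ≤ b z ω)
    (hX0 : ∀ z ∈ I, ∀ ω, 0 ≤ X z ω) {g : (ℕ → ℝ) → ℝ} (hg : Measurable g) (hgd : DepOn d g)
    (hg0 : ∀ ω, 0 < g ω) {M : ENNReal}
    (hM : ∫⁻ ω, ENNReal.ofReal (g ω) ^ (-(γ / (1 - γ))) ∂seqLaw μ ≤ M)
    {t : ℕ → ℝ} (ht0 : ∀ z ∈ I, 0 ≤ t z)
    (ht : ∀ z ∈ I, ∫⁻ ω, ENNReal.ofReal (g ω * b z ω) ∂seqLaw μ ≤ ENNReal.ofReal (t z)) :
    mom μ γ (fun ω => ∑ z ∈ I, b z ω * X z (shift e ω)) ≤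
      M ^ (1 - γ) * mom μ γ (fun ω => ∑ z ∈ I, t z * X z ω) := by
  have h1' : 0 < 1 - γ := by linarith
  -- the split
  have hstep1 : mom μ γ (fun ω => ∑ z ∈ I, b z ω * X z (shift e ω)) =
      ∫⁻ ω', ∫⁻ ω, ENNReal.ofReal (∑ z ∈ I, b z ω * X z (shift (e - d) ω')) ^ γ
        ∂seqLaw μ ∂seqLaw μ := by
    have hF : Measurable (Function.uncurry (fun (ω ω' : ℕ → ℝ) =>
        ENNReal.ofReal (∑ z ∈ I, b z ω * X z (shift (e - d) ω')) ^ γ)) := by
      refine Measurable.pow_const (Measurable.ennreal_ofReal ?_) γ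
      refine Finset.measurable_sum _ fun z hz => ?_
      exact ((hb z hz).comp measurable_fst).mul
        (((hX z hz).comp (MP_daa227_pr.measurable_shift (e - d))).comp measurable_snd)
    have hd : ∀ ω', DepOn d (fun ω =>
        ENNReal.ofReal (∑ z ∈ I, b z ω * X z (shift (e - d) ω')) ^ γ) := by
      intro ω' ω₁ ω₂ h12
      have : ∑ z ∈ I, b z ω₁ * X z (shift (e - d) ω') = ∑ z ∈ I, b z ω₂ * X z (shift (e - d) ω') :=
        Finset.sum_congr rfl fun z hz => by rw [hbd z hz ω₁ ω₂ h12]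
      simp only [this]
    rw [← lint_split μ d hF hd]
    unfold mom
    apply lintegral_congr
    intro ω
    simp only [MP_daa227_pr.shift_shift]
    rw [show e - d + d = e by omega]
  rw [hstep1]
  -- the inner Hoelder
  have hinner : ∀ ω' : ℕ → ℝ, ∫⁻ ω, ENNReal.ofReal (∑ z ∈ I, b z ω * X z (shift (e - d) ω')) ^ γ
        ∂seqLaw μ ≤ M ^ (1 - γ) * ENNReal.ofReal (∑ z ∈ I, t z * X z (shift (e - d) ω')) ^ γ := by
    intro ω'
    set x : ℕ → ℝ := fun z => X z (shift (e - d) ω') with hx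
    have hx0 : ∀ z ∈ I, 0 ≤ x z := fun z hz => hX0 z hz _
    have hS : Measurable (fun ω => ∑ z ∈ I, b z ω * x z) :=
      Finset.measurable_sum _ fun z hz => (hb z hz).mul_const _
    have hfac : ∀ ω, ENNReal.ofReal (∑ z ∈ I, b z ω * x z) ^ γ =
        ((fun ω => ENNReal.ofReal (g ω) ^ (-γ)) *
          (fun ω => (ENNReal.ofReal (g ω) * ENNReal.ofReal (∑ z ∈ I, b z ω * x z)) ^ γ)) ω := by
      intro ω
      have hne : ENNReal.ofReal (g ω) ≠ 0 := by
        rw [Ne, ENNReal.ofReal_eq_zero, not_le]; exact hg0 ω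
      simp only [Pi.mul_apply]
      rw [ENNReal.mul_rpow_of_nonneg _ _ h0.le, ← mul_assoc, ← ENNReal.rpow_add _ _ hne ENNReal.ofReal_ne_top]
      simp
    have hconj : (1 / (1 - γ)).HolderConjugate (1 / γ) := by
      rw [Real.holderConjugate_iff]
      refine ⟨?_, ?_⟩
      · rw [lt_div_iff₀ h1']; linarith
      · simp
    have hH := ENNReal.lintegral_mul_le_Lp_mul_Lq (seqLaw μ) hconj
      (f := fun ω => ENNReal.ofReal (g ω) ^ (-γ))
      (g := fun ω => (ENNReal.ofReal (g ω) * ENNReal.ofReal (∑ z ∈ I, b z ω * x z)) ^ γ)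
      (hg.ennreal_ofReal.pow_const _).aemeasurable
      ((hg.ennreal_ofReal.mul hS.ennreal_ofReal).pow_const _).aemeasurable
    have hl : ∫⁻ ω, ENNReal.ofReal (∑ z ∈ I, b z ω * x z) ^ γ ∂seqLaw μ =
        ∫⁻ ω, ((fun ω => ENNReal.ofReal (g ω) ^ (-γ)) *
          (fun ω => (ENNReal.ofReal (g ω) * ENNReal.ofReal (∑ z ∈ I, b z ω * x z)) ^ γ)) ω ∂seqLaw μ :=
      lintegral_congr hfac
    rw [hl]
    refine hH.trans ?_
    have hA : ∀ ω, (ENNReal.ofReal (g ω) ^ (-γ)) ^ (1 / (1 - γ)) =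
        ENNReal.ofReal (g ω) ^ (-(γ / (1 - γ))) := by
      intro ω
      rw [← ENNReal.rpow_mul]
      congr 1
      ring
    have hB : ∀ ω, ((ENNReal.ofReal (g ω) * ENNReal.ofReal (∑ z ∈ I, b z ω * x z)) ^ γ) ^ (1 / γ) =
        ENNReal.ofReal (g ω) * ENNReal.ofReal (∑ z ∈ I, b z ω * x z) := by
      intro ω
      rw [← ENNReal.rpow_mul, mul_one_div_cancel h0.ne', ENNReal.rpow_one]
    simp_rw [hA, hB, one_div_one_div]
    refine mul_le_mul' (ENNReal.rpow_le_rpow hM h1'.le) (ENNReal.rpow_le_rpow ?_ h0.le)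
    have hC : ∀ ω, ENNReal.ofReal (g ω) * ENNReal.ofReal (∑ z ∈ I, b z ω * x z) =
        ∑ z ∈ I, ENNReal.ofReal (g ω * b z ω) * ENNReal.ofReal (x z) := by
      intro ω
      rw [ENNReal.ofReal_sum_of_nonneg (fun z hz => mul_nonneg (hb0 z hz ω) (hx0 z hz)), Finset.mul_sum]
      refine Finset.sum_congr rfl fun z hz => ?_
      rw [ENNReal.ofReal_mul (hb0 z hz ω), ENNReal.ofReal_mul (hg0 ω).le, mul_assoc]
    simp_rw [hC]
    have hmz : ∀ z ∈ I, Measurable (fun ω => ENNReal.ofReal (g ω * b z ω)) := fun z hz =>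
      (hg.mul (hb z hz)).ennreal_ofReal
    have hsw : ∫⁻ ω, ∑ z ∈ I, ENNReal.ofReal (g ω * b z ω) * ENNReal.ofReal (x z) ∂seqLaw μ =
        ∑ z ∈ I, ∫⁻ ω, ENNReal.ofReal (g ω * b z ω) * ENNReal.ofReal (x z) ∂seqLaw μ :=
      lintegral_finsetSum' _ (fun z hz => ((hmz z hz).mul_const _).aemeasurable)
    rw [hsw]
    rw [ENNReal.ofReal_sum_of_nonneg (fun z hz => mul_nonneg (ht0 z hz) (hx0 z hz))]
    refine Finset.sum_le_sum fun z hz => ?_
    rw [lintegral_mul_const _ (hmz z hz), ENNReal.ofReal_mul (ht0 z hz)]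
    exact mul_le_mul' (ht z hz) le_rfl
  refine (lintegral_mono hinner).trans ?_
  have hmeas : Measurable (fun ω : ℕ → ℝ => ∑ z ∈ I, t z * X z ω) :=
    Finset.measurable_sum _ fun z hz => (hX z hz).const_mul _
  have hmeas2 : Measurable (fun ω : ℕ → ℝ => ∑ z ∈ I, t z * X z (shift (e - d) ω)) :=
    hmeas.comp (MP_daa227_pr.measurable_shift (e - d))
  rw [lintegral_const_mul _ ((hmeas2.ennreal_ofReal).pow_const _)]
  refine mul_le_mul' le_rfl ?_
  exact le_of_eq (MP_daa227_pr.mom_shift (μ := μ) (γ := γ) hmeas (e - d))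

end

end Pool.Agent.OTM
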