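import Mathlib
import Pool.Agent.Lib.MP_daa227_pr_OTM.Defs
import Pool.Agent.Lib.MP_daa227_pr_OTM.CondH
import Pool.Agent.Lib.MP_daa227_pr_OTP.Dec
import Pool.Agent.Lib.MP_daa227_pr_OTP.Frac

/-!
# Module M11: coarse graining of the fractional moments
-/

namespace Pool.Agent.OTM

open MeasureTheory ProbabilityTheory Finset Filter
open MP_daa227_pr (shift seqLaw ExpMom DepOn mom)
open Pool.Agent.OT (en lmg)
open Pool.Agent.OTP (Zp KerP wB spB LP)

noncomputable section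

namespace M11

/-- weight of the configurations of `n` sites whose first site is `y` -/
def TT (K : ℕ → ℝ) (n y : ℕ) (θ : ℕ → ℝ) : ℝ :=
  if y ≤ n then Real.exp (θ (y - 1)) * Zp K (n - y) (shift y θ) else 0

/-- the weights of the windows -/
def bb (K : ℕ → ℝ) (k : ℕ) (a : ℕ → ℝ) (l z : ℕ) (θ : ℕ → ℝ) : ℝ :=
  ∑ y ∈ Icc 1 k, a y * ∑ x ∈ Icc y (2 * k),
    Real.exp (θ (y - 1)) * Zp K (x - y) (shift y θ) * K (l * k + z - x)

theorem K_nonneg {K : ℕ → ℝ} (hK : KerP K) (k : ℕ) : 0 ≤ K k := by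
  rcases Nat.eq_zero_or_pos k with h | h
  · rw [h, hK.zero]
  · exact (hK.pos k h).le

theorem TT_nonneg {K : ℕ → ℝ} (hK : KerP K) (n y : ℕ) (θ : ℕ → ℝ) : 0 ≤ TT K n y θ := by
  unfold TT
  split_ifs
  · exact mul_nonneg (Real.exp_pos _).le (OTP.Zp_pos hK _ _).le
  · exact le_rfl

theorem meas_TT (K : ℕ → ℝ) (β h : ℝ) (n y : ℕ) :
    Measurable fun ω : ℕ → ℝ => TT K n y (en β h ω) := by
  unfold TT
  split_ifs
  · simp only [OT.X1.shift_en]
    exact (OT.X1.meas_en β h _).exp.mul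
      ((OTP.R2.meas_Zp K β h _).comp (MP_daa227_pr.measurable_shift _))
  · exact measurable_const

theorem sum_blocks {M : Type*} [AddCommMonoid M] (k : ℕ) (G : ℕ → M) (N : ℕ) :
    ∑ l ∈ Ico 2 (2 + N), ∑ z ∈ Icc 1 k, G (l * k + z) =
      ∑ z ∈ Ioc (2 * k) ((2 + N) * k), G z := by
  induction N with
  | zero => simp
  | succ N ih =>
    rw [← Nat.add_assoc, Finset.sum_Ico_succ_top (by omega), ih]
    have h1 : ∑ z ∈ Icc 1 k, G ((2 + N) * k + z) =
        ∑ z ∈ Ioc ((2 + N) * k) ((2 + N + 1) * k), G z := by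
      refine Finset.sum_bij' (fun z _ => (2 + N) * k + z) (fun z _ => z - (2 + N) * k) ?_ ?_ ?_ ?_ ?_
      · intro z hz
        rw [Finset.mem_Icc] at hz
        rw [Finset.mem_Ioc, Nat.succ_mul (2 + N) k]
        omega
      · intro z hz
        rw [Finset.mem_Ioc, Nat.succ_mul (2 + N) k] at hz
        rw [Finset.mem_Icc]
        omega
      · intro z hz
        omega
      · intro z hz
        rw [Finset.mem_Ioc] at hz
        omega
      · intro z hz
        rfl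
    rw [h1]
    have h2 : 2 * k ≤ (2 + N) * k := Nat.mul_le_mul_right _ (by omega)
    have h3 : (2 + N) * k ≤ (2 + N + 1) * k := Nat.mul_le_mul_right _ (by omega)
    have h4 : Ioc (2 * k) ((2 + N + 1) * k) =
        Ioc (2 * k) ((2 + N) * k) ∪ Ioc ((2 + N) * k) ((2 + N + 1) * k) := by
      ext z
      simp only [Finset.mem_Ioc, Finset.mem_union]
      omega
    rw [h4, Finset.sum_union]
    rw [Finset.disjoint_left]
    intro z hz hz'
    rw [Finset.mem_Ioc] at hz hz'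
    omega

theorem sum_blocks' {M : Type*} [AddCommMonoid M] {k : ℕ} (hk : 1 ≤ k) {n : ℕ} (hn : 2 * k < n)
    (F : ℕ → M) :
    ∑ z ∈ Ioc (2 * k) n, F z =
      ∑ l ∈ Ico 2 (n + 1), ∑ z ∈ Icc 1 k, if l * k + z ≤ n then F (l * k + z) else 0 := by
  obtain ⟨N, rfl⟩ : ∃ N, n = 1 + N := ⟨n - 1, by omega⟩
  have h1 := sum_blocks k (fun z => if z ≤ 1 + N then F z else 0) N
  have e : 1 + N + 1 = 2 + N := by omega
  rw [e, h1, ← Finset.sum_filter]
  congr 1
  ext z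
  simp only [Finset.mem_Ioc, Finset.mem_filter]
  have h2 : 2 + N ≤ (2 + N) * k := Nat.le_mul_of_pos_right _ hk
  omega

/-- decomposition of the weight of one starting site -/
theorem TT_cross (K : ℕ → ℝ) {k n y : ℕ} (hk : 1 ≤ k) (hn : 2 * k < n) (hy : y ∈ Icc 1 k)
    (θ : ℕ → ℝ) :
    TT K n y θ = ∑ l ∈ Ico 2 (n + 1), ∑ z ∈ Icc 1 k,
      (∑ x ∈ Icc y (2 * k), Real.exp (θ (y - 1)) * Zp K (x - y) (shift y θ) *
        K (l * k + z - x)) * TT K (n - l * k) z (shift (l * k) θ) := by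
  rw [Finset.mem_Icc] at hy
  unfold TT
  rw [if_pos (by omega : y ≤ n), OTP.Zp_cross K (n := n - y) (j := 2 * k - y) (by omega)]
  -- the last site before the bond
  have h1 : ∀ x' ∈ range (2 * k - y + 1), ∑ y' ∈ Ioc (2 * k - y) (n - y),
      Zp K x' (shift y θ) * (K (y' - x') * Real.exp (shift y θ (y' - 1))) *
        Zp K (n - y - y') (shift y' (shift y θ)) =
      ∑ z ∈ Ioc (2 * k) n, Zp K x' (shift y θ) * (K (z - (x' + y)) * Real.exp (θ (z - 1))) *
        Zp K (n - z) (shift z θ) := by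
    intro x' hx'
    rw [Finset.mem_range] at hx'
    refine Finset.sum_bij' (fun z _ => z + y) (fun z _ => z - y) ?_ ?_ ?_ ?_ ?_
    · intro z hz
      rw [Finset.mem_Ioc] at hz ⊢
      omega
    · intro z hz
      rw [Finset.mem_Ioc] at hz ⊢
      omega
    · intro z hz
      omega
    · intro z hz
      rw [Finset.mem_Ioc] at hz
      omega
    · intro z hz
      rw [Finset.mem_Ioc] at hz
      rw [MP_daa227_pr.shift_shift, MP_daa227_pr.shift_apply]
      have e1 : z + y - (x' + y) = z - x' := by omega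
      have e2 : z - 1 + y = z + y - 1 := by omega
      have e3 : n - y - z = n - (z + y) := by omega
      rw [e1, e2, e3]
  rw [Finset.sum_congr rfl h1]
  have h2 : ∑ x' ∈ range (2 * k - y + 1), ∑ z ∈ Ioc (2 * k) n,
      Zp K x' (shift y θ) * (K (z - (x' + y)) * Real.exp (θ (z - 1))) *
        Zp K (n - z) (shift z θ) =
      ∑ x ∈ Icc y (2 * k), ∑ z ∈ Ioc (2 * k) n, Zp K (x - y) (shift y θ) *
        (K (z - x) * Real.exp (θ (z - 1))) * Zp K (n - z) (shift z θ) := by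
    refine Finset.sum_bij' (fun x _ => x + y) (fun x _ => x - y) ?_ ?_ ?_ ?_ ?_
    · intro x hx
      rw [Finset.mem_range] at hx
      rw [Finset.mem_Icc]
      omega
    · intro x hx
      rw [Finset.mem_Icc] at hx
      rw [Finset.mem_range]
      omega
    · intro x hx
      omega
    · intro x hx
      rw [Finset.mem_Icc] at hx
      omega
    · intro x hx
      rw [Nat.add_sub_cancel]
  rw [h2, Finset.sum_comm, sum_blocks' hk hn, Finset.mul_sum]
  refine Finset.sum_congr rfl fun l hl => ?_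
  rw [Finset.mul_sum]
  refine Finset.sum_congr rfl fun z hz => ?_
  rw [Finset.mem_Icc] at hz
  by_cases hle : l * k + z ≤ n
  · have hz' : z ≤ n - l * k := by omega
    rw [if_pos hle, if_pos hz', MP_daa227_pr.shift_shift, MP_daa227_pr.shift_apply]
    have e1 : z - 1 + l * k = l * k + z - 1 := by omega
    have e2 : z + l * k = l * k + z := by omega
    have e3 : n - l * k - z = n - (l * k + z) := by omega
    rw [e1, e2, e3, Finset.mul_sum, Finset.sum_mul]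
    refine Finset.sum_congr rfl fun x hx => ?_
    ring
  · have hz' : ¬ z ≤ n - l * k := by omega
    rw [if_neg hle, if_neg hz', mul_zero, mul_zero]

theorem SS_cross (K : ℕ → ℝ) {k n : ℕ} (hk : 1 ≤ k) (hn : 2 * k < n) (a : ℕ → ℝ)
    (θ : ℕ → ℝ) :
    ∑ y ∈ Icc 1 k, a y * TT K n y θ = ∑ l ∈ Ico 2 (n + 1), ∑ z ∈ Icc 1 k,
      bb K k a l z θ * TT K (n - l * k) z (shift (l * k) θ) := by
  have h1 : ∀ y ∈ Icc 1 k, a y * TT K n y θ = ∑ l ∈ Ico 2 (n + 1), ∑ z ∈ Icc 1 k,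
      (a y * ∑ x ∈ Icc y (2 * k), Real.exp (θ (y - 1)) * Zp K (x - y) (shift y θ) *
        K (l * k + z - x)) * TT K (n - l * k) z (shift (l * k) θ) := by
    intro y hy
    rw [TT_cross K hk hn hy, Finset.mul_sum]
    refine Finset.sum_congr rfl fun l _ => ?_
    rw [Finset.mul_sum]
    refine Finset.sum_congr rfl fun z _ => ?_
    ring
  rw [Finset.sum_congr rfl h1, Finset.sum_comm]
  refine Finset.sum_congr rfl fun l _ => ?_
  rw [Finset.sum_comm]
  refine Finset.sum_congr rfl fun z _ => ?_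
  unfold bb
  rw [Finset.sum_mul]

theorem bb_nonneg {K : ℕ → ℝ} (hK : KerP K) (k : ℕ) {a : ℕ → ℝ} (ha : ∀ y, 0 ≤ a y) (l z : ℕ)
    (θ : ℕ → ℝ) : 0 ≤ bb K k a l z θ := by
  unfold bb
  refine Finset.sum_nonneg fun y _ => mul_nonneg (ha y) (Finset.sum_nonneg fun x _ => ?_)
  exact mul_nonneg (mul_nonneg (Real.exp_pos _).le (OTP.Zp_pos hK _ _).le) (K_nonneg hK _)

theorem meas_bb (K : ℕ → ℝ) (β h : ℝ) (k : ℕ) (a : ℕ → ℝ) (l z : ℕ) :
    Measurable fun ω : ℕ → ℝ => bb K k a l z (en β h ω) := by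
  unfold bb
  refine Finset.measurable_sum _ fun y _ => Measurable.const_mul
    (Finset.measurable_sum _ fun x _ => Measurable.mul_const ?_ _) _
  simp only [OT.X1.shift_en]
  exact (OT.X1.meas_en β h _).exp.mul
    ((OTP.R2.meas_Zp K β h _).comp (MP_daa227_pr.measurable_shift _))

theorem dep_win (K : ℕ → ℝ) (β h : ℝ) {k x y : ℕ} (hy : y ∈ Icc 1 k) (hx : x ∈ Icc y (2 * k)) :
    DepOn (2 * k) fun ω : ℕ → ℝ =>
      Real.exp (en β h ω (y - 1)) * Zp K (x - y) (shift y (en β h ω)) := by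
  rw [Finset.mem_Icc] at hy hx
  intro ω ω' hω
  have e1 : en β h ω (y - 1) = en β h ω' (y - 1) := by
    simp only [en, hω (y - 1) (by omega)]
  have e2 : Zp K (x - y) (shift y (en β h ω)) = Zp K (x - y) (shift y (en β h ω')) := by
    refine OTP.Zp_congr K _ fun i hi => ?_
    simp only [MP_daa227_pr.shift_apply, en, hω (i + y) (by omega)]
  simp only [e1, e2]

theorem dep_bb (K : ℕ → ℝ) (β h : ℝ) (k : ℕ) (a : ℕ → ℝ) (l z : ℕ) :
    DepOn (2 * k) fun ω : ℕ → ℝ => bb K k a l z (en β h ω) := by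
  intro ω ω' hω
  simp only [bb]
  refine Finset.sum_congr rfl fun y hy => ?_
  congr 1
  refine Finset.sum_congr rfl fun x hx => ?_
  rw [show Real.exp (en β h ω (y - 1)) * Zp K (x - y) (shift y (en β h ω)) =
    Real.exp (en β h ω' (y - 1)) * Zp K (x - y) (shift y (en β h ω')) from
      dep_win K β h hy hx ω ω' hω]

/-- the numbers which bound the weights of the windows -/
def tt (K : ℕ → ℝ) (k : ℕ) (U : ℕ → ℕ → ℝ) (a : ℕ → ℝ) (l z : ℕ) : ℝ :=
  ∑ y ∈ Icc 1 k, a y * ∑ x ∈ Icc y (2 * k), U y x * K (l * k + z - x)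

theorem tt_nonneg {K : ℕ → ℝ} (hK : KerP K) (k : ℕ) {U : ℕ → ℕ → ℝ} (hU : ∀ y x, 0 ≤ U y x)
    {a : ℕ → ℝ} (ha : ∀ y, 0 ≤ a y) (l z : ℕ) : 0 ≤ tt K k U a l z := by
  unfold tt
  refine Finset.sum_nonneg fun y _ => mul_nonneg (ha y) (Finset.sum_nonneg fun x _ => ?_)
  exact mul_nonneg (hU y x) (K_nonneg hK _)

theorem sum_tt_le {K : ℕ → ℝ} {k : ℕ} {U : ℕ → ℕ → ℝ} {a : ℕ → ℝ}
    (ha : ∀ y, 0 ≤ a y) {l : ℕ} {r : ℝ}
    (hρ : ∀ y ∈ Icc 1 k,
      ∑ x ∈ Icc y (2 * k), U y x * ∑ z ∈ Icc 1 k, K (l * k + z - x) ≤ r) :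
    ∑ z ∈ Icc 1 k, tt K k U a l z ≤ r * ∑ y ∈ Icc 1 k, a y := by
  unfold tt
  rw [Finset.sum_comm, Finset.mul_sum]
  refine Finset.sum_le_sum fun y hy => ?_
  have h1 : ∑ z ∈ Icc 1 k, a y * ∑ x ∈ Icc y (2 * k), U y x * K (l * k + z - x) =
      a y * ∑ x ∈ Icc y (2 * k), U y x * ∑ z ∈ Icc 1 k, K (l * k + z - x) := by
    rw [← Finset.mul_sum, Finset.sum_comm]
    congr 1
    refine Finset.sum_congr rfl fun x _ => ?_
    rw [Finset.mul_sum]
  rw [h1, mul_comm r]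
  exact mul_le_mul_of_nonneg_left (hρ y hy) (ha y)

theorem lint_bb {K : ℕ → ℝ} (hK : KerP K) {μ : Measure ℝ} [IsProbabilityMeasure μ]
    {β h : ℝ} {k : ℕ} {g : (ℕ → ℝ) → ℝ} (hg : Measurable g) (hg0 : ∀ ω, 0 < g ω)
    (U : ℕ → ℕ → ℝ) (hU0 : ∀ y x, 0 ≤ U y x)
    (hU : ∀ y ∈ Icc 1 k, ∀ x ∈ Icc y (2 * k), ∫⁻ ω, ENNReal.ofReal (g ω *
      (Real.exp (en β h ω (y - 1)) * Zp K (x - y) (shift y (en β h ω)))) ∂seqLaw μ ≤
        ENNReal.ofReal (U y x))
    {a : ℕ → ℝ} (ha : ∀ y, 0 ≤ a y) (l z : ℕ) :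
    ∫⁻ ω, ENNReal.ofReal (g ω * bb K k a l z (en β h ω)) ∂seqLaw μ ≤
      ENNReal.ofReal (tt K k U a l z) := by
  have hw0 : ∀ y x (ω : ℕ → ℝ), 0 ≤ g ω *
      (Real.exp (en β h ω (y - 1)) * Zp K (x - y) (shift y (en β h ω))) := fun y x ω =>
    mul_nonneg (hg0 ω).le (mul_nonneg (Real.exp_pos _).le (OTP.Zp_pos hK _ _).le)
  have hwm : ∀ y x, Measurable fun ω : ℕ → ℝ => g ω *
      (Real.exp (en β h ω (y - 1)) * Zp K (x - y) (shift y (en β h ω))) := by
    intro y x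
    refine hg.mul ?_
    simp only [OT.X1.shift_en]
    exact (OT.X1.meas_en β h _).exp.mul
      ((OTP.R2.meas_Zp K β h _).comp (MP_daa227_pr.measurable_shift _))
  have e1 : ∀ ω : ℕ → ℝ, ENNReal.ofReal (g ω * bb K k a l z (en β h ω)) =
      ∑ y ∈ Icc 1 k, ∑ x ∈ Icc y (2 * k), ENNReal.ofReal (a y * K (l * k + z - x)) *
        ENNReal.ofReal (g ω *
          (Real.exp (en β h ω (y - 1)) * Zp K (x - y) (shift y (en β h ω)))) := by
    intro ω
    have e2 : g ω * bb K k a l z (en β h ω) =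
        ∑ y ∈ Icc 1 k, ∑ x ∈ Icc y (2 * k), (a y * K (l * k + z - x)) * (g ω *
          (Real.exp (en β h ω (y - 1)) * Zp K (x - y) (shift y (en β h ω)))) := by
      unfold bb
      rw [Finset.mul_sum]
      refine Finset.sum_congr rfl fun y _ => ?_
      rw [Finset.mul_sum, Finset.mul_sum]
      refine Finset.sum_congr rfl fun x _ => ?_
      ring
    have h3 : ∀ y x, 0 ≤ (a y * K (l * k + z - x)) * (g ω *
          (Real.exp (en β h ω (y - 1)) * Zp K (x - y) (shift y (en β h ω)))) := fun y x =>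
      mul_nonneg (mul_nonneg (ha y) (K_nonneg hK _)) (hw0 y x ω)
    rw [e2, ENNReal.ofReal_sum_of_nonneg (fun y _ => Finset.sum_nonneg fun x _ => h3 y x)]
    refine Finset.sum_congr rfl fun y _ => ?_
    rw [ENNReal.ofReal_sum_of_nonneg (fun x _ => h3 y x)]
    refine Finset.sum_congr rfl fun x _ => ?_
    rw [ENNReal.ofReal_mul (mul_nonneg (ha y) (K_nonneg hK _))]
  simp_rw [e1]
  rw [lintegral_finsetSum _ (fun y _ => Finset.measurable_sum _ fun x _ =>
    ((hwm y x).ennreal_ofReal).const_mul _)]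
  have e4 : ENNReal.ofReal (tt K k U a l z) = ∑ y ∈ Icc 1 k, ∑ x ∈ Icc y (2 * k),
      ENNReal.ofReal (a y * K (l * k + z - x)) * ENNReal.ofReal (U y x) := by
    have e5 : tt K k U a l z = ∑ y ∈ Icc 1 k, ∑ x ∈ Icc y (2 * k),
        (a y * K (l * k + z - x)) * U y x := by
      unfold tt
      refine Finset.sum_congr rfl fun y _ => ?_
      rw [Finset.mul_sum]
      refine Finset.sum_congr rfl fun x _ => ?_
      ring
    have h3 : ∀ y x, 0 ≤ (a y * K (l * k + z - x)) * U y x := fun y x =>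
      mul_nonneg (mul_nonneg (ha y) (K_nonneg hK _)) (hU0 y x)
    rw [e5, ENNReal.ofReal_sum_of_nonneg (fun y _ => Finset.sum_nonneg fun x _ => h3 y x)]
    refine Finset.sum_congr rfl fun y _ => ?_
    rw [ENNReal.ofReal_sum_of_nonneg (fun x _ => h3 y x)]
    refine Finset.sum_congr rfl fun x _ => ?_
    rw [ENNReal.ofReal_mul (mul_nonneg (ha y) (K_nonneg hK _))]
  rw [e4]
  refine Finset.sum_le_sum fun y hy => ?_
  rw [lintegral_finsetSum _ (fun x _ => ((hwm y x).ennreal_ofReal).const_mul _)]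
  refine Finset.sum_le_sum fun x hx => ?_
  rw [lintegral_const_mul _ ((hwm y x).ennreal_ofReal)]
  exact mul_le_mul_right (hU y hy x hx) _

theorem mom_TT {K : ℕ → ℝ} (hK : KerP K) {μ : Measure ℝ} [IsProbabilityMeasure μ]
    (hμ : ExpMom μ) (β h : ℝ) {γ : ℝ} (h0 : 0 < γ) {n y : ℕ} (hy : 1 ≤ y) (hyn : y ≤ n) :
    mom μ γ (fun ω => TT K n y (en β h ω)) = ENNReal.ofReal (OT.X1.qq μ β h γ) *
      mom μ γ (fun ω => Zp K (n - y) (en β h ω)) := by
  have e1 : ∀ ω : ℕ → ℝ, TT K n y (en β h ω) = (fun ω => Real.exp (en β h ω (y - 1))) ω *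
      (fun ω => Zp K (n - y) (en β h ω)) (shift y ω) := by
    intro ω
    unfold TT
    rw [if_pos hyn]
    simp only [OT.X1.shift_en]
  rw [MP_daa227_pr.mom_congr e1, MP_daa227_pr.mom_mul_shift h0.le
    (F := fun ω => Real.exp (en β h ω (y - 1))) (G := fun ω => Zp K (n - y) (en β h ω)),
    OT.X1.mom_site hμ]
  · exact (OT.X1.meas_en β h _).exp
  · exact OTP.R2.meas_Zp K β h _
  · intro ω ω' hω
    simp only [en, hω (y - 1) (by omega)]
  · exact fun ω => (Real.exp_pos _).le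

theorem mom_TT_ne_top {K : ℕ → ℝ} (hK : KerP K) {μ : Measure ℝ} [IsProbabilityMeasure μ]
    (hμ : ExpMom μ) (β h : ℝ) {γ : ℝ} (h0 : 0 < γ) (h1 : γ ≤ 1) {n y : ℕ} (hy : 1 ≤ y) :
    mom μ γ (fun ω => TT K n y (en β h ω)) ≠ ⊤ := by
  by_cases hyn : y ≤ n
  · rw [mom_TT hK hμ β h h0 hy hyn]
    exact ENNReal.mul_ne_top ENNReal.ofReal_ne_top (OTP.R2.mom_fin hK hμ β h h0 h1 _)
  · have e1 : ∀ ω : ℕ → ℝ, TT K n y (en β h ω) = 0 := fun ω => by
      unfold TT
      rw [if_neg hyn]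
    rw [MP_daa227_pr.mom_congr e1, MP_daa227_pr.mom_zero h0]
    exact ENNReal.zero_ne_top

theorem mom_SS_one {K : ℕ → ℝ} (hK : KerP K) {μ : Measure ℝ} [IsProbabilityMeasure μ]
    {β h : ℝ} {k : ℕ} {C : ENNReal} {n : ℕ}
    (hC : ∀ y ∈ Icc 1 k, mom μ 1 (fun ω => TT K n y (en β h ω)) ≤ C)
    {a : ℕ → ℝ} (ha : ∀ y, 0 ≤ a y) :
    mom μ 1 (fun ω => ∑ y ∈ Icc 1 k, a y * TT K n y (en β h ω)) ≤
      C * ENNReal.ofReal (∑ y ∈ Icc 1 k, a y) := by
  refine (MP_daa227_pr.mom_sum_le one_pos le_rfl _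
    (fun y _ => (meas_TT K β h n y).const_mul (a y))
    (fun y _ ω => mul_nonneg (ha y) (TT_nonneg hK _ _ _))).trans ?_
  rw [ENNReal.ofReal_sum_of_nonneg (fun y _ => ha y), Finset.mul_sum]
  refine Finset.sum_le_sum fun y hy => ?_
  rw [MP_daa227_pr.mom_const_mul zero_le_one (ha y) (meas_TT K β h n y), ENNReal.rpow_one,
    mul_comm C]
  exact mul_le_mul_right (hC y hy) _

end M11

open M11 in
theorem coarse {K : ℕ → ℝ} (hK : KerP K) {μ : Measure ℝ} [IsProbabilityMeasure μ]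
    (hμ : ExpMom μ) {β h γ : ℝ} (h0 : 0 < γ) (h1 : γ < 1) {k : ℕ} (hk : 1 ≤ k)
    {g : (ℕ → ℝ) → ℝ} (hg : Measurable g) (hgd : DepOn (2 * k) g) (hg0 : ∀ ω, 0 < g ω)
    {M : ℝ} (hM0 : 0 ≤ M)
    (hM : ∫⁻ ω, ENNReal.ofReal (g ω) ^ (-(γ / (1 - γ))) ∂seqLaw μ ≤ ENNReal.ofReal M)
    (U : ℕ → ℕ → ℝ) (hU0 : ∀ y x, 0 ≤ U y x)
    (hU : ∀ y ∈ Icc 1 k, ∀ x ∈ Icc y (2 * k), ∫⁻ ω, ENNReal.ofReal (g ω *
      (Real.exp (en β h ω (y - 1)) * Zp K (x - y) (shift y (en β h ω)))) ∂seqLaw μ ≤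
        ENNReal.ofReal (U y x))
    (ρ : ℕ → ℝ) (hρ0 : ∀ l, 0 ≤ ρ l)
    (hρ : ∀ l, 2 ≤ l → ∀ y ∈ Icc 1 k,
      ∑ x ∈ Icc y (2 * k), U y x * ∑ z ∈ Icc 1 k, K (l * k + z - x) ≤ ρ l)
    (hsum : ∀ n, M ^ (1 - γ) * ∑ l ∈ Ico 2 n, ρ l ^ γ ≤ 1) :
    ∃ B : ENNReal, B ≠ ⊤ ∧ ∀ n, mom μ γ (fun ω => Zp K n (en β h ω)) ≤ B := by
  classical
  set C : ENNReal := ∑ m ∈ range (2 * k + 1), ∑ y ∈ Icc 1 k,
    mom μ 1 (fun ω => TT K m y (en β h ω)) with hC
  have hCt : C ≠ ⊤ := by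
    refine ENNReal.sum_ne_top.2 fun m _ => ENNReal.sum_ne_top.2 fun y hy => ?_
    exact mom_TT_ne_top hK hμ β h one_pos le_rfl (Finset.mem_Icc.1 hy).1
  have hCb : ∀ m ≤ 2 * k, ∀ y ∈ Icc 1 k, mom μ 1 (fun ω => TT K m y (en β h ω)) ≤ C := by
    intro m hm y hy
    refine (Finset.single_le_sum (f := fun y => mom μ 1 (fun ω => TT K m y (en β h ω)))
      (fun _ _ => zero_le) hy).trans ?_
    exact Finset.single_le_sum (f := fun m => ∑ y ∈ Icc 1 k,
      mom μ 1 (fun ω => TT K m y (en β h ω))) (fun _ _ => zero_le)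
      (Finset.mem_range.2 (by omega))
  set B : ENNReal := C ^ γ with hB
  have hBt : B ≠ ⊤ := ENNReal.rpow_ne_top_of_nonneg h0.le hCt
  have hSm : ∀ (n : ℕ) (a : ℕ → ℝ),
      Measurable fun ω : ℕ → ℝ => ∑ y ∈ Icc 1 k, a y * TT K n y (en β h ω) := fun n a =>
    Finset.measurable_sum _ fun y _ => (meas_TT K β h n y).const_mul (a y)
  have key : ∀ (n : ℕ) (a : ℕ → ℝ), (∀ y, 0 ≤ a y) →
      mom μ γ (fun ω => ∑ y ∈ Icc 1 k, a y * TT K n y (en β h ω)) ≤
        B * ENNReal.ofReal (∑ y ∈ Icc 1 k, a y) ^ γ := by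
    intro n
    induction n using Nat.strong_induction_on with
    | _ n ih =>
      intro a ha
      rcases Nat.lt_or_ge (2 * k) n with hn | hn
      · -- decomposition
        have hbm : ∀ l ∈ Ico 2 (n + 1), Measurable fun ω : ℕ → ℝ => ∑ z ∈ Icc 1 k,
            bb K k a l z (en β h ω) * TT K (n - l * k) z (en β h (shift (l * k) ω)) := by
          intro l _
          exact Finset.measurable_sum _ fun z _ => (meas_bb K β h k a l z).mul
            ((meas_TT K β h _ z).comp (MP_daa227_pr.measurable_shift _))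
        have hb0 : ∀ l ∈ Ico 2 (n + 1), ∀ ω : ℕ → ℝ, 0 ≤ ∑ z ∈ Icc 1 k,
            bb K k a l z (en β h ω) * TT K (n - l * k) z (en β h (shift (l * k) ω)) := by
          intro l _ ω
          exact Finset.sum_nonneg fun z _ => mul_nonneg (bb_nonneg hK k ha l z _)
            (TT_nonneg hK _ _ _)
        rw [MP_daa227_pr.mom_congr (fun ω => SS_cross K hk hn a (en β h ω))]
        simp only [OT.X1.shift_en]
        refine (MP_daa227_pr.mom_sum_le h0 h1.le _ hbm hb0).trans ?_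
        have hterm : ∀ l ∈ Ico 2 (n + 1), mom μ γ (fun ω => ∑ z ∈ Icc 1 k,
            bb K k a l z (en β h ω) * TT K (n - l * k) z (en β h (shift (l * k) ω))) ≤
            (B * ENNReal.ofReal (∑ y ∈ Icc 1 k, a y) ^ γ) *
              ENNReal.ofReal (M ^ (1 - γ) * ρ l ^ γ) := by
          intro l hl
          rw [Finset.mem_Ico] at hl
          have hlk : k ≤ l * k := Nat.le_mul_of_pos_left _ (by omega)
          have hA0 : 0 ≤ ∑ y ∈ Icc 1 k, a y := Finset.sum_nonneg fun y _ => ha y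
          have hc := cond_holder μ h0 h1 (2 * k) (l * k) (Nat.mul_le_mul_right _ hl.1) (Icc 1 k)
            (b := fun z ω => bb K k a l z (en β h ω))
            (X := fun z ω => TT K (n - l * k) z (en β h ω))
            (fun z _ => meas_bb K β h k a l z) (fun z _ => meas_TT K β h _ z)
            (fun z _ => dep_bb K β h k a l z) (fun z _ ω => bb_nonneg hK k ha l z _)
            (fun z _ ω => TT_nonneg hK _ _ _) hg hgd hg0 hM
            (t := fun z => tt K k U a l z) (fun z _ => tt_nonneg hK k hU0 ha l z)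
            (fun z _ => lint_bb hK hg hg0 U hU0 hU ha l z)
          refine hc.trans ?_
          have hih := ih (n - l * k) (by omega) (fun z => tt K k U a l z)
            (fun z => tt_nonneg hK k hU0 ha l z)
          have hst := sum_tt_le (K := K) (k := k) (U := U) ha (l := l) (hρ l hl.1)
          calc ENNReal.ofReal M ^ (1 - γ) *
                mom μ γ (fun ω => ∑ z ∈ Icc 1 k, tt K k U a l z * TT K (n - l * k) z (en β h ω))
              ≤ ENNReal.ofReal M ^ (1 - γ) *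
                (B * ENNReal.ofReal (ρ l * ∑ y ∈ Icc 1 k, a y) ^ γ) := by
                refine mul_le_mul_right (hih.trans (mul_le_mul_right ?_ _)) _
                exact ENNReal.rpow_le_rpow (ENNReal.ofReal_le_ofReal hst) h0.le
            _ = (B * ENNReal.ofReal (∑ y ∈ Icc 1 k, a y) ^ γ) *
              ENNReal.ofReal (M ^ (1 - γ) * ρ l ^ γ) := by
                rw [ENNReal.ofReal_mul (hρ0 l), ENNReal.mul_rpow_of_nonneg _ _ h0.le,
                  ENNReal.ofReal_mul (Real.rpow_nonneg hM0 _),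
                  ENNReal.ofReal_rpow_of_nonneg (hρ0 l) h0.le,
                  ENNReal.ofReal_rpow_of_nonneg hM0 (by linarith)]
                ring
        refine (Finset.sum_le_sum hterm).trans ?_
        rw [← Finset.mul_sum, ← ENNReal.ofReal_sum_of_nonneg
          (fun l _ => mul_nonneg (Real.rpow_nonneg hM0 _) (Real.rpow_nonneg (hρ0 l) _)),
          ← Finset.mul_sum]
        calc (B * ENNReal.ofReal (∑ y ∈ Icc 1 k, a y) ^ γ) *
              ENNReal.ofReal (M ^ (1 - γ) * ∑ l ∈ Ico 2 (n + 1), ρ l ^ γ)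
            ≤ (B * ENNReal.ofReal (∑ y ∈ Icc 1 k, a y) ^ γ) * 1 := by
              refine mul_le_mul_right ?_ _
              rw [← ENNReal.ofReal_one]
              exact ENNReal.ofReal_le_ofReal (hsum _)
          _ = _ := mul_one _
      · refine (MP_daa227_pr.mom_le_rpow h0 h1.le (hSm n a) (fun ω =>
          Finset.sum_nonneg fun y _ => mul_nonneg (ha y) (TT_nonneg hK _ _ _))).trans ?_
        rw [hB, ← ENNReal.mul_rpow_of_nonneg _ _ h0.le]
        exact ENNReal.rpow_le_rpow (mom_SS_one hK (hCb n hn) ha) h0.le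
  have hq : 0 < OT.X1.qq μ β h γ := integral_exp_pos (OT.X1.int_q hμ β h γ)
  have hq' : ENNReal.ofReal (OT.X1.qq μ β h γ) ≠ 0 := by
    rw [Ne, ENNReal.ofReal_eq_zero, not_le]
    exact hq
  refine ⟨B / ENNReal.ofReal (OT.X1.qq μ β h γ), ENNReal.div_ne_top hBt hq', fun n => ?_⟩
  rw [ENNReal.le_div_iff_mul_le (Or.inl hq') (Or.inl ENNReal.ofReal_ne_top), mul_comm]
  have h2 := key (n + 1) (fun y => if y = 1 then 1 else 0)
    (fun y => by split_ifs; exacts [zero_le_one, le_rfl])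
  have h3 : ∑ y ∈ Icc 1 k, (if y = 1 then (1 : ℝ) else 0) = 1 := by
    rw [Finset.sum_ite_eq' , if_pos (Finset.mem_Icc.2 ⟨le_rfl, hk⟩)]
  have h4 : ∀ ω : ℕ → ℝ, ∑ y ∈ Icc 1 k, (if y = 1 then (1 : ℝ) else 0) *
      TT K (n + 1) y (en β h ω) = TT K (n + 1) 1 (en β h ω) := by
    intro ω
    simp only [ite_mul, one_mul, zero_mul]
    rw [Finset.sum_ite_eq' , if_pos (Finset.mem_Icc.2 ⟨le_rfl, hk⟩)]
  rw [h3, ENNReal.ofReal_one, ENNReal.one_rpow, mul_one, MP_daa227_pr.mom_congr h4,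
    mom_TT hK hμ β h h0 le_rfl (by omega), Nat.add_sub_cancel] at h2
  exact h2

end

end Pool.Agent.OTM
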