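import Mathlib
import Pool.Agent.Lib.MP_daa227_pr_OTM.Defs

/-!
# Pinning at the marginal exponent one half. The dyadic two-body energy of a finite set.
-/

namespace Pool.Agent.OTM

open Finset

noncomputable section

namespace M5

/-- indicator of two sites in the same interval -/
def same (l i j : ℕ) : ℝ := if i / l = j / l then 1 else 0

theorem same_nonneg (l i j : ℕ) : 0 ≤ same l i j := by
  unfold same
  split_ifs <;> norm_num

theorem same_comm (l i j : ℕ) : same l i j = same l j i := by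
  unfold same
  by_cases h : i / l = j / l
  · rw [if_pos h, if_pos h.symm]
  · rw [if_neg h, if_neg (fun h' => h h'.symm)]

theorem same_self (l i : ℕ) : same l i i = 1 := by
  unfold same
  rw [if_pos rfl]

/-- Cauchy-Schwarz over the visited intervals -/
theorem card_sq_le (l : ℕ) (T : Finset ℕ) :
    (T.card : ℝ) ^ 2 ≤ vis l T * ∑ j ∈ T, ∑ i ∈ T, same l i j := by
  have h1 : (T.card : ℝ) = ∑ J ∈ T.image (fun i => i / l),
      ((T.filter (fun i => i / l = J)).card : ℝ) := by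
    exact_mod_cast Finset.card_eq_sum_card_image (fun i => i / l) T
  have h2 : ∑ j ∈ T, ∑ i ∈ T, same l i j = ∑ J ∈ T.image (fun i => i / l),
      ((T.filter (fun i => i / l = J)).card : ℝ) ^ 2 := by
    rw [← Finset.sum_fiberwise_of_maps_to (g := fun i => i / l) (t := T.image (fun i => i / l))
      (fun i hi => Finset.mem_image_of_mem _ hi)]
    refine Finset.sum_congr rfl fun J _ => ?_
    have h3 : ∀ j ∈ T.filter (fun j => j / l = J), ∑ i ∈ T, same l i j =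
        ((T.filter (fun i => i / l = J)).card : ℝ) := by
      intro j hj
      have h4 : j / l = J := (Finset.mem_filter.1 hj).2
      unfold same
      rw [h4, Finset.sum_boole]
    rw [Finset.sum_congr rfl h3, Finset.sum_const, nsmul_eq_mul, sq]
  have h5 := sq_sum_le_card_mul_sum_sq (s := T.image (fun i => i / l))
    (f := fun J => ((T.filter (fun i => i / l = J)).card : ℝ))
  unfold vis
  rw [h2, h1]
  exact h5

/-- number of pairs in the same interval -/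
def prs (l : ℕ) (T : Finset ℕ) : ℝ := ∑ j ∈ T, ∑ i ∈ T with i < j, same l i j

theorem prs_nonneg (l : ℕ) (T : Finset ℕ) : 0 ≤ prs l T :=
  Finset.sum_nonneg fun _ _ => Finset.sum_nonneg fun _ _ => same_nonneg _ _ _

theorem sum_same (l : ℕ) (T : Finset ℕ) :
    ∑ j ∈ T, ∑ i ∈ T, same l i j = 2 * prs l T + T.card := by
  have h1 : ∀ j ∈ T, ∑ i ∈ T, same l i j = ∑ i ∈ T, (if i < j then same l i j else 0) +
      ∑ i ∈ T, (if j < i then same l i j else 0) + 1 := by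
    intro j hj
    have h2 : ∀ i ∈ T, same l i j = (if i < j then same l i j else 0) +
        (if j < i then same l i j else 0) + (if i = j then 1 else 0) := by
      intro i _
      rcases lt_trichotomy i j with h | h | h
      · rw [if_pos h, if_neg (by omega), if_neg (by omega)]
        ring
      · subst h
        rw [if_neg (lt_irrefl _), if_pos rfl, same_self]
        ring
      · rw [if_neg (by omega), if_pos h, if_neg (by omega)]
        ring
    rw [Finset.sum_congr rfl h2, Finset.sum_add_distrib, Finset.sum_add_distrib,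
      Finset.sum_ite_eq' T j (fun _ => (1 : ℝ)), if_pos hj]
  have h3 : ∑ j ∈ T, ∑ i ∈ T, (if j < i then same l i j else 0) =
      ∑ j ∈ T, ∑ i ∈ T, (if i < j then same l i j else 0) := by
    rw [Finset.sum_comm]
    refine Finset.sum_congr rfl fun j _ => Finset.sum_congr rfl fun i _ => ?_
    rw [same_comm]
  have h4 : prs l T = ∑ j ∈ T, ∑ i ∈ T, (if i < j then same l i j else 0) := by
    unfold prs
    refine Finset.sum_congr rfl fun j _ => ?_
    rw [Finset.sum_filter]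
  rw [Finset.sum_congr rfl h1, Finset.sum_add_distrib, Finset.sum_add_distrib, h3, ← h4,
    Finset.sum_const, nsmul_eq_mul, mul_one]
  ring

theorem vis_pos (l : ℕ) {T : Finset ℕ} (hT : T.Nonempty) : 0 < vis l T := by
  unfold vis
  exact_mod_cast Finset.card_pos.2 (hT.image _)

theorem prs_ge (l : ℕ) {T : Finset ℕ} (hT : T.Nonempty) :
    ((T.card : ℝ) ^ 2 / vis l T - T.card) / 2 ≤ prs l T := by
  have h1 := card_sq_le l T
  have h2 := sum_same l T
  have h3 := vis_pos l hT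
  have h4 : (T.card : ℝ) ^ 2 / vis l T ≤ 2 * prs l T + T.card := by
    rw [div_le_iff₀ h3, mul_comm, ← h2]
    exact h1
  linarith

theorem YY_eq (L : ℕ) (T : Finset ℕ) :
    YY L T = (1 / √((2 : ℝ) ^ L * L)) * ∑ t ∈ Icc 1 L, 1 / √((2 : ℝ) ^ t) * prs (2 ^ t) T := by
  have h1 : ∀ i j : ℕ, Vk L i j = (1 / √((2 : ℝ) ^ L * L)) *
      ∑ t ∈ Icc 1 L, 1 / √((2 : ℝ) ^ t) * same (2 ^ t) i j := by
    intro i j
    unfold Vk same
    congr 1
    refine Finset.sum_congr rfl fun t _ => ?_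
    split_ifs <;> simp
  unfold YY prs
  simp only [h1, ← Finset.mul_sum]
  congr 1
  have h2 : ∀ j ∈ T, ∑ i ∈ T with i < j, ∑ t ∈ Icc 1 L, 1 / √((2 : ℝ) ^ t) * same (2 ^ t) i j =
      ∑ t ∈ Icc 1 L, 1 / √((2 : ℝ) ^ t) * ∑ i ∈ T with i < j, same (2 ^ t) i j := by
    intro j _
    rw [Finset.sum_comm]
    refine Finset.sum_congr rfl fun t _ => ?_
    rw [Finset.mul_sum]
  rw [Finset.sum_congr rfl h2, Finset.sum_comm]
  refine Finset.sum_congr rfl fun t _ => ?_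
  rw [Finset.mul_sum]

theorem geo (S : ℕ) : ∑ t ∈ Icc 1 S, 1 / √((2 : ℝ) ^ t) ≤ 3 - 3 / √((2 : ℝ) ^ S) := by
  induction S with
  | zero => simp
  | succ n ih =>
    rw [Finset.sum_Icc_succ_top (by omega)]
    have h2 : 0 < √((2 : ℝ) ^ n) := Real.sqrt_pos.2 (by positivity)
    have h3 : √((2 : ℝ) ^ (n + 1)) = √((2 : ℝ) ^ n) * √2 := by
      rw [pow_succ, Real.sqrt_mul (by positivity)]
    have h4 : (4 : ℝ) / 3 ≤ √2 := by
      apply Real.le_sqrt_of_sq_le
      norm_num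
    rw [h3]
    have h5 : 0 < √(2 : ℝ) := by linarith
    have h6 : 4 / (√((2 : ℝ) ^ n) * √2) ≤ 3 / √((2 : ℝ) ^ n) := by
      rw [div_le_div_iff₀ (by positivity) h2]
      nlinarith
    have h7 : 4 / (√((2 : ℝ) ^ n) * √2) = 1 / (√((2 : ℝ) ^ n) * √2) +
        3 / (√((2 : ℝ) ^ n) * √2) := by
      ring
    linarith

theorem geo3 (S : ℕ) : ∑ t ∈ Icc 1 S, 1 / √((2 : ℝ) ^ t) ≤ 3 := by
  have h1 := geo S
  have h2 : 0 ≤ 3 / √((2 : ℝ) ^ S) := by positivity
  linarith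

end M5

open M5 in
theorem energy {L S : ℕ} (hS : 1 ≤ S) (hSL : S ≤ L) (T : Finset ℕ) (hT : T.Nonempty) :
    1 / (2 * √((2 : ℝ) ^ L * L)) * ((T.card : ℝ) ^ 2 * (S : ℝ) ^ 2 /
      (∑ t ∈ Icc 1 S, √((2 : ℝ) ^ t) * vis (2 ^ t) T) - 3 * T.card) ≤ YY L T := by
  rw [YY_eq]
  have hW : ∀ t : ℕ, 0 < √((2 : ℝ) ^ t) * vis (2 ^ t) T := fun t =>
    mul_pos (Real.sqrt_pos.2 (by positivity)) (vis_pos _ hT)
  have h1 : ∑ t ∈ Icc 1 S, 1 / √((2 : ℝ) ^ t) * prs (2 ^ t) T ≤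
      ∑ t ∈ Icc 1 L, 1 / √((2 : ℝ) ^ t) * prs (2 ^ t) T := by
    apply Finset.sum_le_sum_of_subset_of_nonneg (Finset.Icc_subset_Icc_right hSL)
    intro t _ _
    exact mul_nonneg (by positivity) (prs_nonneg _ _)
  have h2 : ∀ t ∈ Icc 1 S, (1 / 2 : ℝ) * ((T.card : ℝ) ^ 2 * (1 ^ 2 / (√((2 : ℝ) ^ t) *
      vis (2 ^ t) T)) - T.card * (1 / √((2 : ℝ) ^ t))) ≤ 1 / √((2 : ℝ) ^ t) * prs (2 ^ t) T := by
    intro t _
    have h3 : 0 < √((2 : ℝ) ^ t) := Real.sqrt_pos.2 (by positivity)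
    have h4 := mul_le_mul_of_nonneg_left (prs_ge (2 ^ t) hT) (by positivity : 0 ≤ 1 / √((2 : ℝ) ^ t))
    have h5 := vis_pos (2 ^ t) hT
    refine le_trans (le_of_eq ?_) h4
    field_simp
  have h3 := Finset.sum_le_sum h2
  have h4 : (S : ℝ) ^ 2 / (∑ t ∈ Icc 1 S, √((2 : ℝ) ^ t) * vis (2 ^ t) T) ≤
      ∑ t ∈ Icc 1 S, (1 : ℝ) ^ 2 / (√((2 : ℝ) ^ t) * vis (2 ^ t) T) := by
    have h5 := Finset.sq_sum_div_le_sum_sq_div (Icc 1 S) (fun _ => (1 : ℝ))
      (g := fun t => √((2 : ℝ) ^ t) * vis (2 ^ t) T) (fun t _ => hW t)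
    simpa using h5
  have h5 := geo3 S
  have h6 : 0 ≤ (T.card : ℝ) := Nat.cast_nonneg _
  have h7 : (1 / 2 : ℝ) * ((T.card : ℝ) ^ 2 * (S : ℝ) ^ 2 /
      (∑ t ∈ Icc 1 S, √((2 : ℝ) ^ t) * vis (2 ^ t) T) - 3 * T.card) ≤
      ∑ t ∈ Icc 1 L, 1 / √((2 : ℝ) ^ t) * prs (2 ^ t) T := by
    refine le_trans ?_ (le_trans h3 h1)
    rw [← Finset.mul_sum, Finset.sum_sub_distrib, ← Finset.mul_sum, ← Finset.mul_sum]
    have h8 := mul_le_mul_of_nonneg_left h4 (sq_nonneg (T.card : ℝ))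
    have h9 := mul_le_mul_of_nonneg_left h5 h6
    have h10 : (T.card : ℝ) ^ 2 * (S : ℝ) ^ 2 /
        (∑ t ∈ Icc 1 S, √((2 : ℝ) ^ t) * vis (2 ^ t) T) = (T.card : ℝ) ^ 2 * ((S : ℝ) ^ 2 /
        (∑ t ∈ Icc 1 S, √((2 : ℝ) ^ t) * vis (2 ^ t) T)) := by
      ring
    rw [h10]
    linarith
  have h8 : 0 ≤ 1 / √((2 : ℝ) ^ L * L) := by positivity
  have h9 := mul_le_mul_of_nonneg_left h7 h8
  refine le_trans (le_of_eq ?_) h9
  ring

end

end Pool.Agent.OTM
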