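import Mathlib
import Pool.Agent.Lib.MP_daa227_pr_OTM.Defs

/-!
# Second moments of quadratic forms under a product density
-/

namespace Pool.Agent.OTM

open MeasureTheory ProbabilityTheory Finset Filter
open MP_daa227_pr (seqLaw cons lintegral_cons measurable_cons')

noncomputable section

namespace M7

/-- the quadratic form -/
def qf (M : ℕ) (m : ℕ → ℝ) (c : ℝ) (a : ℕ → ℝ) (V : ℕ → ℕ → ℝ) (ω : ℕ → ℝ) : ℝ :=
  c + ∑ i ∈ range M, a i * (ω i - m i) +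
    ∑ j ∈ range M, ∑ i ∈ range j, V i j * (ω i - m i) * (ω j - m j)

/-- its second moment -/
def qv (M : ℕ) (v : ℕ → ℝ) (c : ℝ) (a : ℕ → ℝ) (V : ℕ → ℕ → ℝ) : ℝ :=
  c ^ 2 + ∑ i ∈ range M, a i ^ 2 * v i +
    ∑ j ∈ range M, ∑ i ∈ range j, V i j ^ 2 * v i * v j

theorem sum_pairs_succ (M : ℕ) (f : ℕ → ℕ → ℝ) :
    ∑ j ∈ range (M + 1), ∑ i ∈ range j, f i j =
      ∑ j ∈ range M, ∑ i ∈ range j, f (i + 1) (j + 1) + ∑ j ∈ range M, f 0 (j + 1) := by
  rw [sum_range_succ' (fun j => ∑ i ∈ range j, f i j), range_zero, sum_empty, add_zero,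
    ← sum_add_distrib]
  exact sum_congr rfl fun j _ => sum_range_succ' (fun i => f i (j + 1)) j

theorem qf_cons (M : ℕ) (m : ℕ → ℝ) (c : ℝ) (a : ℕ → ℝ) (V : ℕ → ℕ → ℝ) (x : ℝ) (ω : ℕ → ℝ) :
    qf (M + 1) m c a V (cons x ω) = qf M (fun i => m (i + 1)) (c + a 0 * (x - m 0))
      (fun i => a (i + 1) + V 0 (i + 1) * (x - m 0)) (fun i j => V (i + 1) (j + 1)) ω := by
  unfold qf
  rw [sum_pairs_succ, sum_range_succ']
  have h0 : cons x ω 0 = x := rfl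
  have h1 : ∀ n, cons x ω (n + 1) = ω n := fun _ => rfl
  simp only [h0, h1]
  have h2 : ∑ i ∈ range M, (a (i + 1) + V 0 (i + 1) * (x - m 0)) * (ω i - m (i + 1)) =
      ∑ i ∈ range M, a (i + 1) * (ω i - m (i + 1)) +
      ∑ j ∈ range M, V 0 (j + 1) * (x - m 0) * (ω j - m (j + 1)) := by
    rw [← sum_add_distrib]
    exact sum_congr rfl fun i _ => by ring
  rw [h2]
  ring

theorem qv_succ (M : ℕ) (v : ℕ → ℝ) (c : ℝ) (a : ℕ → ℝ) (V : ℕ → ℕ → ℝ) :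
    qv (M + 1) v c a V = (c ^ 2 + ∑ i ∈ range M, a (i + 1) ^ 2 * v (i + 1) +
      ∑ j ∈ range M, ∑ i ∈ range j, V (i + 1) (j + 1) ^ 2 * v (i + 1) * v (j + 1)) +
      (a 0 ^ 2 + ∑ i ∈ range M, V 0 (i + 1) ^ 2 * v (i + 1)) * v 0 := by
  unfold qv
  rw [sum_pairs_succ, sum_range_succ', add_mul, sum_mul]
  have h : ∑ j ∈ range M, V 0 (j + 1) ^ 2 * v 0 * v (j + 1) =
      ∑ i ∈ range M, V 0 (i + 1) ^ 2 * v (i + 1) * v 0 := sum_congr rfl fun i _ => by ring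
  rw [h]
  ring

theorem qv_poly (M : ℕ) (v : ℕ → ℝ) (c : ℝ) (a : ℕ → ℝ) (V : ℕ → ℕ → ℝ) (y : ℝ) :
    qv M (fun i => v (i + 1)) (c + a 0 * y) (fun i => a (i + 1) + V 0 (i + 1) * y)
      (fun i j => V (i + 1) (j + 1)) =
      (c ^ 2 + ∑ i ∈ range M, a (i + 1) ^ 2 * v (i + 1) +
      ∑ j ∈ range M, ∑ i ∈ range j, V (i + 1) (j + 1) ^ 2 * v (i + 1) * v (j + 1)) +
      (2 * c * a 0 + ∑ i ∈ range M, 2 * a (i + 1) * V 0 (i + 1) * v (i + 1)) * y +
      (a 0 ^ 2 + ∑ i ∈ range M, V 0 (i + 1) ^ 2 * v (i + 1)) * y ^ 2 := by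
  unfold qv
  have h : ∑ i ∈ range M, (a (i + 1) + V 0 (i + 1) * y) ^ 2 * v (i + 1) =
      ∑ i ∈ range M, a (i + 1) ^ 2 * v (i + 1) +
      (∑ i ∈ range M, 2 * a (i + 1) * V 0 (i + 1) * v (i + 1)) * y +
      (∑ i ∈ range M, V 0 (i + 1) ^ 2 * v (i + 1)) * y ^ 2 := by
    rw [sum_mul, sum_mul, ← sum_add_distrib, ← sum_add_distrib]
    exact sum_congr rfl fun i _ => by ring
  rw [h]
  ring

theorem qv_nonneg (M : ℕ) {v : ℕ → ℝ} (hv : ∀ i, 0 ≤ v i) (c : ℝ) (a : ℕ → ℝ)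
    (V : ℕ → ℕ → ℝ) : 0 ≤ qv M v c a V := by
  unfold qv
  have h1 : 0 ≤ ∑ i ∈ range M, a i ^ 2 * v i :=
    sum_nonneg fun i _ => mul_nonneg (sq_nonneg _) (hv i)
  have h2 : 0 ≤ ∑ j ∈ range M, ∑ i ∈ range j, V i j ^ 2 * v i * v j :=
    sum_nonneg fun j _ => sum_nonneg fun i _ =>
      mul_nonneg (mul_nonneg (sq_nonneg _) (hv i)) (hv j)
  positivity

theorem measurable_qf (M : ℕ) (m : ℕ → ℝ) (c : ℝ) (a : ℕ → ℝ) (V : ℕ → ℕ → ℝ) :
    Measurable (qf M m c a V) := by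
  unfold qf
  fun_prop

theorem main (μ : Measure ℝ) [IsProbabilityMeasure μ] : ∀ (M : ℕ) (d : ℕ → ℝ → ℝ),
    (∀ i, Measurable (d i)) → (∀ i x, 0 ≤ d i x) → ∀ m v : ℕ → ℝ,
    (∀ i, Integrable (d i) μ) → (∀ i, ∫ x, d i x ∂μ = 1) →
    (∀ i, Integrable (fun x => d i x * (x - m i)) μ) → (∀ i, ∫ x, d i x * (x - m i) ∂μ = 0) →
    (∀ i, Integrable (fun x => d i x * (x - m i) ^ 2) μ) →
    (∀ i, ∫ x, d i x * (x - m i) ^ 2 ∂μ = v i) →
    ∀ (c : ℝ) (a : ℕ → ℝ) (V : ℕ → ℕ → ℝ),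
    ∫⁻ ω, ENNReal.ofReal ((∏ i ∈ range M, d i (ω i)) * qf M m c a V ω ^ 2) ∂seqLaw μ =
      ENNReal.ofReal (qv M v c a V) := by
  intro M
  induction M with
  | zero =>
    intro d _ _ m v _ _ _ _ _ _ c a V
    have h : ∀ ω : ℕ → ℝ, (∏ i ∈ range 0, d i (ω i)) * qf 0 m c a V ω ^ 2 = c ^ 2 := by
      intro ω
      simp [qf]
    simp only [h, lintegral_const, measure_univ, mul_one]
    simp [qv]
  | succ M ih =>
    intro d hdm hd0 m v i0 e0 i1 e1 i2 e2 c a V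
    have hv : ∀ i, 0 ≤ v i := fun i => by
      rw [← e2 i]
      exact integral_nonneg fun x => mul_nonneg (hd0 i x) (sq_nonneg _)
    have hm : Measurable fun ω : ℕ → ℝ => ENNReal.ofReal
        ((∏ i ∈ range (M + 1), d i (ω i)) * qf (M + 1) m c a V ω ^ 2) := by
      refine Measurable.ennreal_ofReal (Measurable.mul ?_ ((measurable_qf _ _ _ _ _).pow_const 2))
      exact Finset.measurable_prod _ fun i _ => (hdm i).comp (measurable_pi_apply i)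
    rw [lintegral_cons μ hm]
    have h1 : ∀ x, ∫⁻ ω, ENNReal.ofReal ((∏ i ∈ range (M + 1), d i (cons x ω i)) *
        qf (M + 1) m c a V (cons x ω) ^ 2) ∂seqLaw μ =
        ENNReal.ofReal (d 0 x * qv M (fun i => v (i + 1)) (c + a 0 * (x - m 0))
          (fun i => a (i + 1) + V 0 (i + 1) * (x - m 0)) (fun i j => V (i + 1) (j + 1))) := by
      intro x
      rw [ENNReal.ofReal_mul (hd0 0 x), ← ih (fun i => d (i + 1)) (fun i => hdm _)
        (fun i => hd0 _) (fun i => m (i + 1)) (fun i => v (i + 1)) (fun i => i0 _)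
        (fun i => e0 _) (fun i => i1 _) (fun i => e1 _) (fun i => i2 _) (fun i => e2 _)
        (c + a 0 * (x - m 0)) (fun i => a (i + 1) + V 0 (i + 1) * (x - m 0))
        (fun i j => V (i + 1) (j + 1)), ← lintegral_const_mul]
      · refine lintegral_congr fun ω => ?_
        rw [← ENNReal.ofReal_mul (hd0 0 x), qf_cons, prod_range_succ']
        congr 1
        have h2 : cons x ω 0 = x := rfl
        have h3 : ∀ n, cons x ω (n + 1) = ω n := fun _ => rfl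
        simp only [h2, h3]
        ring
      · refine Measurable.ennreal_ofReal
          (Measurable.mul ?_ ((measurable_qf _ _ _ _ _).pow_const 2))
        exact Finset.measurable_prod _ fun i _ => (hdm (i + 1)).comp (measurable_pi_apply i)
    simp only [h1]
    have h4 : ∀ x, d 0 x * qv M (fun i => v (i + 1)) (c + a 0 * (x - m 0))
          (fun i => a (i + 1) + V 0 (i + 1) * (x - m 0)) (fun i j => V (i + 1) (j + 1)) =
        (c ^ 2 + ∑ i ∈ range M, a (i + 1) ^ 2 * v (i + 1) +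
      ∑ j ∈ range M, ∑ i ∈ range j, V (i + 1) (j + 1) ^ 2 * v (i + 1) * v (j + 1)) * d 0 x +
      (2 * c * a 0 + ∑ i ∈ range M, 2 * a (i + 1) * V 0 (i + 1) * v (i + 1)) *
        (d 0 x * (x - m 0)) +
      (a 0 ^ 2 + ∑ i ∈ range M, V 0 (i + 1) ^ 2 * v (i + 1)) * (d 0 x * (x - m 0) ^ 2) := by
      intro x
      rw [qv_poly]
      ring
    have h5 : ∀ A B D : ℝ, Integrable (fun x => A * d 0 x + B * (d 0 x * (x - m 0)) +
        D * (d 0 x * (x - m 0) ^ 2)) μ ∧ ∫ x, (A * d 0 x + B * (d 0 x * (x - m 0)) +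
        D * (d 0 x * (x - m 0) ^ 2)) ∂μ = A + D * v 0 := by
      intro A B D
      have j0 : Integrable (fun x => A * d 0 x) μ := (i0 0).const_mul A
      have j1 : Integrable (fun x => B * (d 0 x * (x - m 0))) μ := (i1 0).const_mul B
      have j2 : Integrable (fun x => D * (d 0 x * (x - m 0) ^ 2)) μ := (i2 0).const_mul D
      have j01 : Integrable (fun x => A * d 0 x + B * (d 0 x * (x - m 0))) μ := j0.add j1
      refine ⟨j01.add j2, ?_⟩
      rw [integral_add j01 j2, integral_add j0 j1, integral_const_mul, integral_const_mul,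
        integral_const_mul, e0, e1, e2]
      ring
    simp only [h4]
    rw [← ofReal_integral_eq_lintegral_ofReal (h5 _ _ _).1]
    · rw [(h5 _ _ _).2, qv_succ]
    · refine ae_of_all _ fun x => ?_
      have h6 := mul_nonneg (hd0 0 x) (qv_nonneg M (fun i => hv (i + 1)) (c + a 0 * (x - m 0))
          (fun i => a (i + 1) + V 0 (i + 1) * (x - m 0)) (fun i j => V (i + 1) (j + 1)))
      rw [h4] at h6
      exact h6

end M7

theorem quad (μ : Measure ℝ) [IsProbabilityMeasure μ] (M : ℕ) (d : ℕ → ℝ → ℝ)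
    (hdm : ∀ i, Measurable (d i)) (hd0 : ∀ i x, 0 ≤ d i x) (m v : ℕ → ℝ)
    (i0 : ∀ i, Integrable (d i) μ) (e0 : ∀ i, ∫ x, d i x ∂μ = 1)
    (i1 : ∀ i, Integrable (fun x => d i x * (x - m i)) μ) (e1 : ∀ i, ∫ x, d i x * (x - m i) ∂μ = 0)
    (i2 : ∀ i, Integrable (fun x => d i x * (x - m i) ^ 2) μ)
    (e2 : ∀ i, ∫ x, d i x * (x - m i) ^ 2 ∂μ = v i)
    (c : ℝ) (a : ℕ → ℝ) (V : ℕ → ℕ → ℝ) :
    ∫⁻ ω, ENNReal.ofReal ((∏ i ∈ range M, d i (ω i)) *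
      (c + ∑ i ∈ range M, a i * (ω i - m i) +
        ∑ j ∈ range M, ∑ i ∈ range j, V i j * (ω i - m i) * (ω j - m j)) ^ 2) ∂seqLaw μ =
    ENNReal.ofReal (c ^ 2 + ∑ i ∈ range M, a i ^ 2 * v i +
      ∑ j ∈ range M, ∑ i ∈ range j, V i j ^ 2 * v i * v j) :=
  M7.main μ M d hdm hd0 m v i0 e0 i1 e1 i2 e2 c a V

end

end Pool.Agent.OTM
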