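import Pool.Agent.Lib.MP_daa227_pr_OTM.Mat
import Pool.Agent.Lib.MP_daa227_pr_OTM.Quad
import Pool.Agent.Lib.MP_daa227_pr.Lin

/-!
Chebyshev bounds for the penalisation of the environments with a large two-body potential.
-/

namespace Pool.Agent.OTM

open MeasureTheory ProbabilityTheory Finset Filter
open MP_daa227_pr (shift seqLaw ExpMom DepOn mom)
open Pool.Agent.OT (en lmg)
open Pool.Agent.OTP (Zp KerP wB spB LP)

noncomputable section

namespace M8

theorem Vk_nonneg (L i j : ℕ) : 0 ≤ Vk L i j := by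
  unfold Vk
  apply mul_nonneg (by positivity)
  apply Finset.sum_nonneg
  intro t _
  split_ifs <;> positivity

theorem Vk_comm (L i j : ℕ) : Vk L i j = Vk L j i := by
  unfold Vk
  congr 1
  apply Finset.sum_congr rfl
  intro t _
  by_cases h : i / 2 ^ t = j / 2 ^ t
  · rw [if_pos h, if_pos h.symm]
  · rw [if_neg h, if_neg (fun e => h e.symm)]

theorem measurable_quad (M : ℕ) (V : ℕ → ℕ → ℝ) :
    Measurable (fun ω : ℕ → ℝ => ∑ j ∈ range M, ∑ i ∈ range j, V i j * ω i * ω j) := by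
  fun_prop

theorem integrable_pow_exp {μ : Measure ℝ} [IsProbabilityMeasure μ] (hμ : ExpMom μ) (t : ℝ)
    (n : ℕ) : Integrable (fun x => x ^ n * Real.exp (t * x)) μ := by
  have h1 : ProbabilityTheory.integrableExpSet (fun x : ℝ => x) μ = Set.univ := by
    ext s
    simp only [ProbabilityTheory.integrableExpSet, Set.mem_ofPred_eq, Set.mem_univ, iff_true]
    exact hμ s
  have h2 : t ∈ interior (ProbabilityTheory.integrableExpSet (fun x : ℝ => x) μ) := by
    rw [h1]; simp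
  exact ProbabilityTheory.integrable_pow_mul_exp_of_mem_interior_integrableExpSet h2 n

/-- expansion of the two-body potential around `m` -/
theorem expand (M : ℕ) (V : ℕ → ℕ → ℝ) (m ω : ℕ → ℝ) :
    ∑ j ∈ range M, ∑ i ∈ range j, V i j * ω i * ω j =
      ∑ j ∈ range M, ∑ i ∈ range j, V i j * m i * m j +
      ∑ k ∈ range M, (∑ i ∈ range k, V i k * m i +
        ∑ j ∈ range M with k < j, V k j * m j) * (ω k - m k) +
      ∑ j ∈ range M, ∑ i ∈ range j, V i j * (ω i - m i) * (ω j - m j) := by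
  have h1 : ∑ j ∈ range M, ∑ i ∈ range j, V i j * m j * (ω i - m i) =
      ∑ i ∈ range M, ∑ j ∈ range M with i < j, V i j * m j * (ω i - m i) := by
    apply Finset.sum_comm'
    intro x y
    simp only [Finset.mem_range, Finset.mem_filter]
    omega
  have h2 : ∑ k ∈ range M, (∑ i ∈ range k, V i k * m i +
        ∑ j ∈ range M with k < j, V k j * m j) * (ω k - m k) =
      ∑ j ∈ range M, ∑ i ∈ range j, V i j * m i * (ω j - m j) +
      ∑ j ∈ range M, ∑ i ∈ range j, V i j * m j * (ω i - m i) := by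
    rw [h1, ← Finset.sum_add_distrib]
    apply Finset.sum_congr rfl
    intro k _
    rw [add_mul, Finset.sum_mul, Finset.sum_mul]
  rw [h2, ← Finset.sum_add_distrib, ← Finset.sum_add_distrib, ← Finset.sum_add_distrib]
  apply Finset.sum_congr rfl
  intro j _
  rw [← Finset.sum_add_distrib, ← Finset.sum_add_distrib, ← Finset.sum_add_distrib]
  apply Finset.sum_congr rfl
  intro i _
  ring

theorem energy_eq (L : ℕ) {T : Finset ℕ} (hT : T ⊆ range (2 ^ L)) (b : ℝ) :
    ∑ j ∈ range (2 ^ L), ∑ i ∈ range j, Vk L i j * (if i ∈ T then b else 0) *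
      (if j ∈ T then b else 0) = b ^ 2 * YY L T := by
  have h1 : ∀ j ∈ range (2 ^ L), ∑ i ∈ range j, Vk L i j * (if i ∈ T then b else 0) *
      (if j ∈ T then b else 0) =
      if j ∈ T then b ^ 2 * ∑ i ∈ T with i < j, Vk L i j else 0 := by
    intro j _
    by_cases hj : j ∈ T
    · simp only [hj, if_true]
      have h2 : ∀ i ∈ range j, Vk L i j * (if i ∈ T then b else 0) * b =
          if i ∈ T then b ^ 2 * Vk L i j else 0 := by
        intro i _
        split_ifs <;> ring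
      rw [Finset.sum_congr rfl h2, Finset.sum_ite_mem, ← Finset.mul_sum]
      congr 1
      apply Finset.sum_congr _ (fun _ _ => rfl)
      ext i
      simp only [Finset.mem_inter, Finset.mem_range, Finset.mem_filter]
      tauto
    · simp [hj]
  rw [Finset.sum_congr rfl h1, Finset.sum_ite_mem, Finset.inter_eq_right.mpr hT, ← Finset.mul_sum]
  rfl

theorem lin_bd (L : ℕ) (T : Finset ℕ) (b : ℝ) (k : ℕ) :
    (∑ i ∈ range k, Vk L i k * (if i ∈ T then b else 0) +
        ∑ j ∈ range (2 ^ L) with k < j, Vk L k j * (if j ∈ T then b else 0)) ^ 2 ≤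
      b ^ 2 * (∑ j ∈ T, Vk L k j) ^ 2 := by
  have h1 : ∑ i ∈ range k, Vk L i k * (if i ∈ T then b else 0) =
      b * ∑ i ∈ range k ∩ T, Vk L k i := by
    rw [Finset.mul_sum, ← Finset.sum_ite_mem]
    apply Finset.sum_congr rfl
    intro i _
    rw [Vk_comm L i k]
    split_ifs <;> ring
  have h2 : ∑ j ∈ range (2 ^ L) with k < j, Vk L k j * (if j ∈ T then b else 0) =
      b * ∑ j ∈ (range (2 ^ L)).filter (fun j => k < j) ∩ T, Vk L k j := by
    rw [Finset.mul_sum, ← Finset.sum_ite_mem]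
    apply Finset.sum_congr rfl
    intro i _
    split_ifs <;> ring
  rw [h1, h2, ← mul_add, mul_pow]
  apply mul_le_mul_of_nonneg_left _ (sq_nonneg b)
  have h3 : Disjoint (range k ∩ T) ((range (2 ^ L)).filter (fun j => k < j) ∩ T) := by
    rw [Finset.disjoint_left]
    intro x hx hx'
    simp only [Finset.mem_inter, Finset.mem_range, Finset.mem_filter] at hx hx'
    omega
  rw [← Finset.sum_union h3]
  apply pow_le_pow_left₀ (Finset.sum_nonneg (fun i _ => Vk_nonneg _ _ _))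
  apply Finset.sum_le_sum_of_subset_of_nonneg
  · intro x hx
    simp only [Finset.mem_union, Finset.mem_inter] at hx
    tauto
  · intro i _ _
    exact Vk_nonneg _ _ _

end M8

theorem gg_mom {μ : Measure ℝ} [IsProbabilityMeasure μ] (hμ : ExpMom μ)
    (hmean : ∫ x, x ∂μ = 0) {η₀ : ℝ} (h0 : 0 < η₀) (h1 : η₀ < 1) :
    ∃ x₀ : ℝ, 0 < x₀ ∧ ∀ L : ℕ, 1 ≤ L →
      ∫⁻ ω, ENNReal.ofReal (gg L x₀ η₀ ω) ^ (-(4 : ℝ)) ∂seqLaw μ ≤ 2 := by
  set σ : ℝ := ∫ x, x ^ 2 ∂μ with hσ
  have hσ0 : 0 ≤ σ := integral_nonneg (fun x => sq_nonneg x)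
  refine ⟨3 * σ / η₀ ^ 2 + 1, by positivity, fun L hL => ?_⟩
  set x₀ : ℝ := 3 * σ / η₀ ^ 2 + 1 with hx0
  have hx0pos : 0 < x₀ := by positivity
  have hq := quad μ (2 ^ L) (fun _ _ => 1) (fun _ => measurable_const) (fun _ _ => zero_le_one)
    (fun _ => 0) (fun _ => σ) (fun _ => integrable_const _) (fun _ => by simp)
    (fun _ => by simpa using hμ.integrable_id) (fun _ => by simpa using hmean)
    (fun _ => by simpa using hμ.integrable_pow 2) (fun _ => by simp [hσ])
    0 (fun _ => 0) (Vk L)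
  have hq2 : ∫⁻ ω, ENNReal.ofReal (XX L ω ^ 2) ∂seqLaw μ ≤ ENNReal.ofReal (6 * σ ^ 2) := by
    have e1 : ∀ ω : ℕ → ℝ, XX L ω ^ 2 = (∏ i ∈ range (2 ^ L), (1 : ℝ)) *
      (0 + ∑ i ∈ range (2 ^ L), 0 * (ω i - 0) +
        ∑ j ∈ range (2 ^ L), ∑ i ∈ range j, Vk L i j * (ω i - 0) * (ω j - 0)) ^ 2 := by
      intro ω
      simp [XX]
    simp_rw [e1]
    rw [hq]
    apply ENNReal.ofReal_le_ofReal
    have e2 : ∑ j ∈ range (2 ^ L), ∑ i ∈ range j, Vk L i j ^ 2 * σ * σ =
        (∑ j ∈ range (2 ^ L), ∑ i ∈ range j, Vk L i j ^ 2) * σ ^ 2 := by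
      rw [Finset.sum_mul]
      apply Finset.sum_congr rfl
      intro j _
      rw [Finset.sum_mul]
      apply Finset.sum_congr rfl
      intro i _
      ring
    rw [e2]
    have e3 := mul_le_mul_of_nonneg_right (Vk_sq hL) (sq_nonneg σ)
    simpa using e3
  have hpt : ∀ ω, ENNReal.ofReal (gg L x₀ η₀ ω) ^ (-(4 : ℝ)) ≤
      1 + ENNReal.ofReal (1 / (η₀ ^ 4 * x₀ ^ 2)) * ENNReal.ofReal (XX L ω ^ 2) := by
    intro ω
    unfold gg
    split_ifs with h
    · simp
    · push Not at h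
      have e4 : ENNReal.ofReal η₀ ^ (-(4 : ℝ)) = ENNReal.ofReal (1 / η₀ ^ 4) := by
        rw [ENNReal.ofReal_rpow_of_pos h0]
        congr 1
        rw [Real.rpow_neg h0.le, one_div]
        norm_cast
      rw [e4, ← ENNReal.ofReal_mul (by positivity)]
      refine le_trans (ENNReal.ofReal_le_ofReal ?_) le_add_self
      have e5 : x₀ ^ 2 ≤ XX L ω ^ 2 := pow_le_pow_left₀ hx0pos.le h.le 2
      rw [one_div_mul_eq_div, div_le_div_iff₀ (by positivity) (by positivity), one_mul]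
      nlinarith [pow_pos h0 4]
  calc ∫⁻ ω, ENNReal.ofReal (gg L x₀ η₀ ω) ^ (-(4 : ℝ)) ∂seqLaw μ
      ≤ ∫⁻ ω, (1 + ENNReal.ofReal (1 / (η₀ ^ 4 * x₀ ^ 2)) * ENNReal.ofReal (XX L ω ^ 2))
          ∂seqLaw μ := lintegral_mono hpt
    _ = 1 + ENNReal.ofReal (1 / (η₀ ^ 4 * x₀ ^ 2)) *
          ∫⁻ ω, ENNReal.ofReal (XX L ω ^ 2) ∂seqLaw μ := by
        rw [lintegral_add_left measurable_const, lintegral_const_mul' _ _ ENNReal.ofReal_ne_top]
        simp
    _ ≤ 1 + ENNReal.ofReal (1 / (η₀ ^ 4 * x₀ ^ 2)) * ENNReal.ofReal (6 * σ ^ 2) := by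
        gcongr
    _ ≤ 1 + 1 := by
        gcongr
        rw [← ENNReal.ofReal_mul (by positivity)]
        have e6 : 1 / (η₀ ^ 4 * x₀ ^ 2) * (6 * σ ^ 2) ≤ 1 := by
          rw [one_div_mul_eq_div, div_le_one (by positivity)]
          have e7 : 3 * σ ≤ η₀ ^ 2 * x₀ := by
            rw [hx0, mul_add, mul_div_cancel₀ _ (by positivity)]
            nlinarith [sq_nonneg η₀]
          have e8 : (3 * σ) ^ 2 ≤ (η₀ ^ 2 * x₀) ^ 2 := pow_le_pow_left₀ (by positivity) e7 2
          nlinarith [sq_nonneg σ]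
        calc ENNReal.ofReal (1 / (η₀ ^ 4 * x₀ ^ 2) * (6 * σ ^ 2)) ≤ ENNReal.ofReal 1 :=
              ENNReal.ofReal_le_ofReal e6
          _ = 1 := ENNReal.ofReal_one
    _ = 2 := by norm_num

theorem gg_tilt {μ : Measure ℝ} [IsProbabilityMeasure μ] (hμ : ExpMom μ)
    (hvar : ∫ x, x ^ 2 ∂μ ≠ 0) (hmean : ∫ x, x ∂μ = 0) {β : ℝ} (hβ : 0 < β) :
    ∃ m D : ℝ, 0 < m ∧ 0 < D ∧ ∀ L : ℕ, 1 ≤ L → ∀ T : Finset ℕ, T ⊆ range (2 ^ L) →
      ∀ x₀ η₀ : ℝ, 0 < x₀ → 0 < η₀ → η₀ < 1 → x₀ < m * YY L T →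
      ∫⁻ ω, ENNReal.ofReal (gg L x₀ η₀ ω * Real.exp (∑ i ∈ T, (β * ω i - lmg μ β))) ∂seqLaw μ ≤
        ENNReal.ofReal (η₀ + D * (1 + (T.card : ℝ) ^ 2 / 2 ^ L) / (m * YY L T - x₀) ^ 2) := by
  classical
  set Λ : ℝ := lmg μ β with hΛ
  set e : ℝ → ℝ := fun x => Real.exp (β * x - Λ) with he
  have hem : Measurable e := by rw [he]; fun_prop
  have hesplit : ∀ x, e x = Real.exp (-Λ) * Real.exp (β * x) := by
    intro x
    rw [he]
    simp only
    rw [← Real.exp_add]; congr 1; ring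
  have hpow : ∀ n : ℕ, Integrable (fun x => x ^ n * e x) μ := by
    intro n
    have h2 := (M8.integrable_pow_exp hμ β n).const_mul (Real.exp (-Λ))
    apply h2.congr
    filter_upwards with x
    rw [hesplit]; ring
  have hIe : Integrable e μ := by simpa using hpow 0
  have hexpos : 0 < ∫ x, Real.exp (β * x) ∂μ := integral_exp_pos (hμ β)
  have hexpΛ : Real.exp Λ = ∫ x, Real.exp (β * x) ∂μ := by
    rw [hΛ, lmg, Real.exp_log hexpos]
  have he1 : ∫ x, e x ∂μ = 1 := by
    simp_rw [hesplit]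
    rw [integral_const_mul, ← hexpΛ, ← Real.exp_add]
    simp
  set b : ℝ := ∫ x, x * e x ∂μ with hb
  have hIx : Integrable (fun x => x * e x) μ := by simpa using hpow 1
  have hbpos : 0 < b := by
    have h2 : b = Real.exp (-Λ) * ∫ x, x * (Real.exp (β * x) - 1) ∂μ := by
      have h3 : ∫ x, x * (Real.exp (β * x) - 1) ∂μ =
          ∫ x, x * Real.exp (β * x) ∂μ - ∫ x, x ∂μ := by
        rw [← integral_sub]
        · congr 1; funext x; ring
        · simpa using M8.integrable_pow_exp hμ β 1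
        · exact hμ.integrable_id
      rw [h3, hmean, sub_zero, ← integral_const_mul, hb]
      congr 1; funext x; rw [hesplit]; ring
    rw [h2]
    apply mul_pos (Real.exp_pos _)
    have hnn : ∀ x : ℝ, 0 ≤ x * (Real.exp (β * x) - 1) := by
      intro x
      rcases le_total 0 x with h | h
      · apply mul_nonneg h
        have := Real.one_le_exp (show 0 ≤ β * x by positivity)
        linarith
      · apply mul_nonneg_of_nonpos_of_nonpos h
        have : Real.exp (β * x) ≤ 1 := by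
          rw [Real.exp_le_one_iff]; nlinarith
        linarith
    have hint : Integrable (fun x => x * (Real.exp (β * x) - 1)) μ := by
      have h3 : (fun x : ℝ => x * (Real.exp (β * x) - 1)) = fun x =>
          x * Real.exp (β * x) - x := by funext x; ring
      rw [h3]
      exact (by simpa using M8.integrable_pow_exp hμ β 1 : Integrable (fun x : ℝ =>
        x * Real.exp (β * x)) μ).sub hμ.integrable_id
    have hI0 : 0 ≤ ∫ x, x * (Real.exp (β * x) - 1) ∂μ := integral_nonneg (fun x => hnn x)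
    rcases hI0.lt_or_eq with h4 | h4
    · exact h4
    · exfalso
      have h5 := (integral_eq_zero_iff_of_nonneg (fun x => hnn x) hint).mp h4.symm
      apply hvar
      rw [show (0 : ℝ) = ∫ _, (0 : ℝ) ∂μ by simp]
      apply integral_congr_ae
      filter_upwards [h5] with x hx
      have hx' : x * (Real.exp (β * x) - 1) = 0 := hx
      rcases mul_eq_zero.mp hx' with h6 | h6
      · rw [h6]; norm_num
      · have h7 : Real.exp (β * x) = 1 := by linarith
        rw [Real.exp_eq_one_iff] at h7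
        have h8 : x = 0 := by
          rcases mul_eq_zero.mp h7 with h9 | h9
          · exact absurd h9 hβ.ne'
          · exact h9
        rw [h8]; norm_num
  set σ : ℝ := ∫ x, x ^ 2 ∂μ with hσ
  have hσ0 : 0 ≤ σ := integral_nonneg (fun x => sq_nonneg x)
  set τ : ℝ := ∫ x, e x * (x - b) ^ 2 ∂μ with hτ
  have hepos : ∀ x, 0 < e x := fun x => Real.exp_pos _
  have hτ0 : 0 ≤ τ := integral_nonneg (fun x => mul_nonneg (hepos x).le (sq_nonneg _))
  set v : ℝ := max σ τ with hv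
  have hv0 : 0 ≤ v := le_trans hσ0 (le_max_left _ _)
  refine ⟨b ^ 2, 6 * v * b ^ 2 + 6 * v ^ 2 + 1, by positivity, by positivity, ?_⟩
  intro L hL T hT x₀ η₀ hx₀ hη₀ hη₁ hlt
  set G : ℝ := b ^ 2 * YY L T - x₀ with hG
  have hGpos : 0 < G := by rw [hG]; linarith
  set dd : ℕ → ℝ → ℝ := fun i x => if i ∈ T then e x else 1 with hdd
  set mm : ℕ → ℝ := fun i => if i ∈ T then b else 0 with hmm
  set vv : ℕ → ℝ := fun i => if i ∈ T then τ else σ with hvv
  have q1 : ∀ i, Measurable (dd i) := by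
    intro i; rw [hdd]; simp only; split_ifs
    · exact hem
    · exact measurable_const
  have q2 : ∀ i x, 0 ≤ dd i x := by
    intro i x; rw [hdd]; simp only; split_ifs
    · exact (hepos x).le
    · exact zero_le_one
  have q3 : ∀ i, Integrable (dd i) μ := by
    intro i; rw [hdd]; simp only; split_ifs
    · exact hIe
    · exact integrable_const _
  have q4 : ∀ i, ∫ x, dd i x ∂μ = 1 := by
    intro i; rw [hdd]; simp only; split_ifs
    · exact he1
    · simp
  have q5 : ∀ i, Integrable (fun x => dd i x * (x - mm i)) μ := by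
    intro i; rw [hdd, hmm]; simp only; split_ifs
    · have h3 : (fun x : ℝ => e x * (x - b)) = fun x => x * e x - b * e x := by funext x; ring
      rw [h3]; exact hIx.sub (hIe.const_mul b)
    · simpa using hμ.integrable_id
  have q6 : ∀ i, ∫ x, dd i x * (x - mm i) ∂μ = 0 := by
    intro i; rw [hdd, hmm]; simp only; split_ifs
    · have h3 : (fun x : ℝ => e x * (x - b)) = fun x => x * e x - b * e x := by funext x; ring
      rw [h3, integral_sub hIx (hIe.const_mul b), integral_const_mul, he1, ← hb]; ring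
    · simpa using hmean
  have q7 : ∀ i, Integrable (fun x => dd i x * (x - mm i) ^ 2) μ := by
    intro i; rw [hdd, hmm]; simp only; split_ifs
    · have h3 : (fun x : ℝ => e x * (x - b) ^ 2) = fun x => x ^ 2 * e x - 2 * b * (x * e x) +
          b ^ 2 * e x := by funext x; ring
      rw [h3]; exact ((hpow 2).sub (hIx.const_mul _)).add (hIe.const_mul _)
    · simpa using hμ.integrable_pow 2
  have q8 : ∀ i, ∫ x, dd i x * (x - mm i) ^ 2 ∂μ = vv i := by
    intro i; rw [hdd, hmm, hvv]; simp only; split_ifs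
    · rfl
    · simp [hσ]
  set aa : ℕ → ℝ := fun k => ∑ i ∈ range k, Vk L i k * mm i +
    ∑ j ∈ range (2 ^ L) with k < j, Vk L k j * mm j with haa
  have hquad := quad μ (2 ^ L) dd q1 q2 mm vv q3 q4 q5 q6 q7 q8 0 aa (Vk L)
  have hone := quad μ (2 ^ L) dd q1 q2 mm vv q3 q4 q5 q6 q7 q8 1 (fun _ => 0) (fun _ _ => 0)
  set P : (ℕ → ℝ) → ℝ := fun ω => ∏ i ∈ range (2 ^ L), dd i (ω i) with hP
  have hP1 : ∫⁻ ω, ENNReal.ofReal (P ω) ∂seqLaw μ = 1 := by
    have h3 : ∀ ω : ℕ → ℝ, P ω = (∏ i ∈ range (2 ^ L), dd i (ω i)) *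
      (1 + ∑ i ∈ range (2 ^ L), 0 * (ω i - mm i) +
        ∑ j ∈ range (2 ^ L), ∑ i ∈ range j, 0 * (ω i - mm i) * (ω j - mm j)) ^ 2 := by
      intro ω; simp [hP]
    simp_rw [h3]
    rw [hone]
    simp
  have hPe : ∀ ω, Real.exp (∑ i ∈ T, (β * ω i - Λ)) = P ω := by
    intro ω
    rw [Real.exp_sum, hP]
    simp only [hdd]
    rw [Finset.prod_ite, Finset.prod_const_one, mul_one]
    apply Finset.prod_congr _ (fun _ _ => rfl)
    ext i
    rw [Finset.mem_filter]
    exact ⟨fun h => ⟨hT h, h⟩, fun h => h.2⟩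
  have hPnn : ∀ ω, 0 ≤ P ω := fun ω => Finset.prod_nonneg (fun i _ => q2 i (ω i))
  have hPm : Measurable P := by
    rw [hP]
    apply Finset.measurable_prod
    intro i _
    exact (q1 i).comp (measurable_pi_apply i)
  set Z : (ℕ → ℝ) → ℝ := fun ω => 0 + ∑ i ∈ range (2 ^ L), aa i * (ω i - mm i) +
    ∑ j ∈ range (2 ^ L), ∑ i ∈ range j, Vk L i j * (ω i - mm i) * (ω j - mm j) with hZ
  have hZeq : ∀ ω, XX L ω - b ^ 2 * YY L T = Z ω := by
    intro ω
    rw [XX, M8.expand (2 ^ L) (Vk L) mm ω, hmm, M8.energy_eq L hT b, hZ]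
    simp only [haa, hmm]
    ring
  have hvle : ∀ i, vv i ≤ v := by
    intro i; rw [hvv]; simp only; split_ifs
    · exact le_max_right _ _
    · exact le_max_left _ _
  have hvnn : ∀ i, 0 ≤ vv i := by
    intro i; rw [hvv]; simp only; split_ifs
    · exact hτ0
    · exact hσ0
  have hZ2 : ∫⁻ ω, ENNReal.ofReal (P ω * Z ω ^ 2) ∂seqLaw μ ≤
      ENNReal.ofReal (6 * v * b ^ 2 * ((T.card : ℝ) ^ 2 / 2 ^ L) + 6 * v ^ 2) := by
    have h3 : ∫⁻ ω, ENNReal.ofReal (P ω * Z ω ^ 2) ∂seqLaw μ = _ := hquad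
    rw [h3]
    apply ENNReal.ofReal_le_ofReal
    have h4 : ∑ i ∈ range (2 ^ L), aa i ^ 2 * vv i ≤ 6 * v * b ^ 2 * ((T.card : ℝ) ^ 2 / 2 ^ L) := by
      calc ∑ i ∈ range (2 ^ L), aa i ^ 2 * vv i
          ≤ ∑ i ∈ range (2 ^ L), (b ^ 2 * (∑ j ∈ T, Vk L i j) ^ 2) * v := by
            apply Finset.sum_le_sum
            intro i _
            apply mul_le_mul _ (hvle i) (hvnn i) (by positivity)
            exact M8.lin_bd L T b i
        _ = v * b ^ 2 * ∑ i ∈ range (2 ^ L), (∑ j ∈ T, Vk L i j) ^ 2 := by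
            rw [Finset.mul_sum]
            apply Finset.sum_congr rfl
            intro i _; ring
        _ ≤ v * b ^ 2 * (6 * (T.card : ℝ) ^ 2 / 2 ^ L) :=
            mul_le_mul_of_nonneg_left (Vk_lin hL T) (by positivity)
        _ = 6 * v * b ^ 2 * ((T.card : ℝ) ^ 2 / 2 ^ L) := by ring
    have h5 : ∑ j ∈ range (2 ^ L), ∑ i ∈ range j, Vk L i j ^ 2 * vv i * vv j ≤ 6 * v ^ 2 := by
      calc ∑ j ∈ range (2 ^ L), ∑ i ∈ range j, Vk L i j ^ 2 * vv i * vv j
          ≤ ∑ j ∈ range (2 ^ L), ∑ i ∈ range j, Vk L i j ^ 2 * v ^ 2 := by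
            apply Finset.sum_le_sum
            intro j _
            apply Finset.sum_le_sum
            intro i _
            rw [mul_assoc]
            apply mul_le_mul_of_nonneg_left _ (sq_nonneg _)
            rw [sq]
            exact mul_le_mul (hvle i) (hvle j) (hvnn j) hv0
        _ = (∑ j ∈ range (2 ^ L), ∑ i ∈ range j, Vk L i j ^ 2) * v ^ 2 := by
            rw [Finset.sum_mul]
            apply Finset.sum_congr rfl
            intro j _
            rw [Finset.sum_mul]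
        _ ≤ 6 * v ^ 2 := mul_le_mul_of_nonneg_right (Vk_sq hL) (sq_nonneg v)
    linarith
  have hpt : ∀ ω, ENNReal.ofReal (gg L x₀ η₀ ω * Real.exp (∑ i ∈ T, (β * ω i - Λ))) ≤
      ENNReal.ofReal η₀ * ENNReal.ofReal (P ω) +
        ENNReal.ofReal (1 / G ^ 2) * ENNReal.ofReal (P ω * Z ω ^ 2) := by
    intro ω
    rw [hPe, ← ENNReal.ofReal_mul hη₀.le, ← ENNReal.ofReal_mul (by positivity),
      ← ENNReal.ofReal_add (mul_nonneg hη₀.le (hPnn ω))
        (mul_nonneg (by positivity) (mul_nonneg (hPnn ω) (sq_nonneg _)))]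
    apply ENNReal.ofReal_le_ofReal
    have h3 : gg L x₀ η₀ ω ≤ η₀ + 1 / G ^ 2 * Z ω ^ 2 := by
      unfold gg
      split_ifs with h
      · have h4 : G ≤ -Z ω := by rw [← hZeq, hG]; linarith
        have h5 : G ^ 2 ≤ Z ω ^ 2 := by
          have := pow_le_pow_left₀ hGpos.le h4 2
          rwa [neg_sq] at this
        have h6 : 1 ≤ 1 / G ^ 2 * Z ω ^ 2 := by
          rw [one_div_mul_eq_div, le_div_iff₀ (by positivity), one_mul]; exact h5
        linarith
      · have : 0 ≤ 1 / G ^ 2 * Z ω ^ 2 := by positivity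
        linarith
    have h7 := mul_le_mul_of_nonneg_right h3 (hPnn ω)
    linarith
  calc ∫⁻ ω, ENNReal.ofReal (gg L x₀ η₀ ω * Real.exp (∑ i ∈ T, (β * ω i - Λ))) ∂seqLaw μ
      ≤ ∫⁻ ω, (ENNReal.ofReal η₀ * ENNReal.ofReal (P ω) +
        ENNReal.ofReal (1 / G ^ 2) * ENNReal.ofReal (P ω * Z ω ^ 2)) ∂seqLaw μ :=
        lintegral_mono hpt
    _ = ENNReal.ofReal η₀ + ENNReal.ofReal (1 / G ^ 2) *
          ∫⁻ ω, ENNReal.ofReal (P ω * Z ω ^ 2) ∂seqLaw μ := by
        rw [lintegral_add_left (by fun_prop), lintegral_const_mul' _ _ ENNReal.ofReal_ne_top,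
          lintegral_const_mul' _ _ ENNReal.ofReal_ne_top, hP1, mul_one]
    _ ≤ ENNReal.ofReal η₀ + ENNReal.ofReal (1 / G ^ 2) *
          ENNReal.ofReal (6 * v * b ^ 2 * ((T.card : ℝ) ^ 2 / 2 ^ L) + 6 * v ^ 2) := by
        gcongr
    _ ≤ ENNReal.ofReal (η₀ + (6 * v * b ^ 2 + 6 * v ^ 2 + 1) *
          (1 + (T.card : ℝ) ^ 2 / 2 ^ L) / G ^ 2) := by
        rw [← ENNReal.ofReal_mul (by positivity), ← ENNReal.ofReal_add hη₀.le (by positivity)]
        apply ENNReal.ofReal_le_ofReal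
        have h8 : 1 / G ^ 2 * (6 * v * b ^ 2 * ((T.card : ℝ) ^ 2 / 2 ^ L) + 6 * v ^ 2) ≤
            (6 * v * b ^ 2 + 6 * v ^ 2 + 1) * (1 + (T.card : ℝ) ^ 2 / 2 ^ L) / G ^ 2 := by
          rw [one_div_mul_eq_div]
          apply div_le_div_of_nonneg_right _ (by positivity)
          have h9 : 0 ≤ (T.card : ℝ) ^ 2 / 2 ^ L := by positivity
          have h10 : 0 ≤ 6 * v * b ^ 2 := by positivity
          have h11 : 0 ≤ 6 * v ^ 2 := by positivity
          nlinarith [mul_nonneg h11 h9, mul_nonneg h10 h9]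
        linarith

end

end Pool.Agent.OTM
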