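import Mathlib
import Pool.Agent.Lib.MP_daa227_pr_OTM.Defs
import Pool.Agent.Lib.MP_daa227_pr_OTP.Dec
import Pool.Agent.Lib.MP_daa227_pr_OTP.ZEP

/-!
# Hitting probability of an interval for the pinned renewal of exponent one half
-/

namespace Pool.Agent.OTM

open MeasureTheory ProbabilityTheory Finset Filter
open MP_daa227_pr (shift seqLaw ExpMom DepOn mom)
open Pool.Agent.OT (en lmg)
open Pool.Agent.OTP (Zp KerP wB spB LP)

noncomputable section

namespace Hit

/-- energies -/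
def th (p l : ℕ) (i : ℕ) : ℝ := if p ≤ i + 1 ∧ i + 1 < p + l then -1 else 0

/-- mass of the first site at or after `p` being `y` -/
def ff (K : ℕ → ℝ) (p y : ℕ) : ℝ := ∑ x ∈ range p, uu K x * K (y - x)

theorem uu_pos {K : ℕ → ℝ} (hK : KerP K) (n : ℕ) : 0 < uu K n := OTP.Zp_pos hK n _

theorem uu_le {K : ℕ → ℝ} {c C : ℝ} (hR : RenB K c C) {m n : ℕ} (h : m ≤ n) :
    uu K n ≤ uu K m := by
  induction n, h using Nat.le_induction with
  | base => exact le_rfl
  | succ n _ ih => exact (hR.anti n).trans ih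

theorem ff_nonneg {K : ℕ → ℝ} (hK : KerP K) (p y : ℕ) (hy : p ≤ y) : 0 ≤ ff K p y := by
  refine sum_nonneg fun x hx => ?_
  rw [mem_range] at hx
  exact mul_nonneg (uu_pos hK x).le (hK.pos _ (by omega)).le

theorem shift_zero_fun (y : ℕ) : shift y (fun _ : ℕ => (0 : ℝ)) = fun _ => 0 := rfl

theorem uu_cross (K : ℕ → ℝ) {p z : ℕ} (hp : 1 ≤ p) (hz : p ≤ z) :
    uu K z = ∑ y ∈ Ico p (z + 1), ff K p y * uu K (z - y) := by
  have h := OTP.Zp_cross K (n := z) (j := p - 1) (by omega) (fun _ => 0)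
  have e1 : p - 1 + 1 = p := by omega
  have e2 : Ioc (p - 1) z = Ico p (z + 1) := by
    ext y; simp only [mem_Ioc, mem_Ico]; omega
  rw [e1, e2, sum_comm] at h
  unfold uu
  rw [h]
  refine sum_congr rfl fun y _ => ?_
  unfold ff uu
  rw [sum_mul]
  refine sum_congr rfl fun x _ => ?_
  rw [shift_zero_fun, Real.exp_zero, mul_one]

theorem Zp_diff {K : ℕ → ℝ} (hK : KerP K) {n p l : ℕ} (hp : 1 ≤ p) (hn : p + l ≤ n + 1)
    (hpn : p ≤ n) :
    uu K n - Zp K n (th p l) ≤ ∑ y ∈ Ico p (p + l), ff K p y * uu K (n - y) := by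
  have h := OTP.Zp_cross K (n := n) (j := p - 1) (by omega) (th p l)
  have e1 : p - 1 + 1 = p := by omega
  have e2 : Ioc (p - 1) n = Ico p (n + 1) := by
    ext y; simp only [mem_Ioc, mem_Ico]; omega
  rw [e1, e2, sum_comm] at h
  have h2 := uu_cross K hp hpn
  have hI : Ico p (n + 1) = Ico p (p + l) ∪ Ico (p + l) (n + 1) :=
    (Ico_union_Ico_eq_Ico (by omega) hn).symm
  have hD : Disjoint (Ico p (p + l)) (Ico (p + l) (n + 1)) := Ico_disjoint_Ico_consecutive _ _ _
  rw [hI, sum_union hD] at h h2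
  have h3 : ∑ y ∈ Ico (p + l) (n + 1), ∑ x ∈ range p,
      Zp K x (th p l) * (K (y - x) * Real.exp (th p l (y - 1))) *
        Zp K (n - y) (shift y (th p l)) =
      ∑ y ∈ Ico (p + l) (n + 1), ff K p y * uu K (n - y) := by
    refine sum_congr rfl fun y hy => ?_
    rw [mem_Ico] at hy
    unfold ff
    rw [sum_mul]
    refine sum_congr rfl fun x hx => ?_
    rw [mem_range] at hx
    have a1 : Zp K x (th p l) = uu K x := by
      refine OTP.Zp_congr K x fun i hi => ?_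
      unfold th
      rw [if_neg (by omega)]
    have a2 : th p l (y - 1) = 0 := by
      unfold th
      rw [if_neg (by omega)]
    have a3 : Zp K (n - y) (shift y (th p l)) = uu K (n - y) := by
      refine OTP.Zp_congr K (n - y) fun i hi => ?_
      rw [MP_daa227_pr.shift_apply]
      unfold th
      rw [if_neg (by omega)]
    rw [a1, a2, a3, Real.exp_zero, mul_one]
  have h4 : 0 ≤ ∑ y ∈ Ico p (p + l), ∑ x ∈ range p,
      Zp K x (th p l) * (K (y - x) * Real.exp (th p l (y - 1))) *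
        Zp K (n - y) (shift y (th p l)) := by
    refine sum_nonneg fun y hy => sum_nonneg fun x hx => ?_
    rw [mem_Ico] at hy
    rw [mem_range] at hx
    exact (mul_pos (mul_pos (OTP.Zp_pos hK _ _) (mul_pos (hK.pos _ (by omega))
      (Real.exp_pos _))) (OTP.Zp_pos hK _ _)).le
  rw [h3] at h
  linarith

theorem sum_low {K : ℕ → ℝ} {c C : ℝ} (hR : RenB K c C) {l : ℕ} (hl : 1 ≤ l) :
    c * √(l : ℝ) ≤ ∑ i ∈ range l, uu K i := by
  have hl0 : (0 : ℝ) < l := by exact_mod_cast hl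
  have hs : 0 < √(l : ℝ) := Real.sqrt_pos.mpr hl0
  have h1 : ∀ i ∈ range l, c / √(l : ℝ) ≤ uu K i := by
    intro i hi
    rw [mem_range] at hi
    refine le_trans ?_ (hR.low i)
    have h2 : (0 : ℝ) < √((i : ℝ) + 1) := Real.sqrt_pos.mpr (by positivity)
    refine div_le_div_of_nonneg_left hR.cpos.le h2 (Real.sqrt_le_sqrt ?_)
    exact_mod_cast hi
  have h3 := sum_le_sum h1
  rw [sum_const, card_range, nsmul_eq_mul] at h3
  refine le_trans (le_of_eq ?_) h3
  have h4 : (l : ℝ) = √(l : ℝ) * √(l : ℝ) := (Real.mul_self_sqrt hl0.le).symm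
  rw [mul_div_assoc']
  rw [eq_div_iff hs.ne']
  linear_combination (-c) * h4

theorem conv_low {K : ℕ → ℝ} (hK : KerP K) {c C : ℝ} (hR : RenB K c C) {n p l : ℕ}
    (hp : 1 ≤ p) (hl : 1 ≤ l) (hn : p + 2 * l ≤ n + 1) :
    (∑ y ∈ Ico p (p + l), ff K p y * uu K (n - y)) * (c * √(l : ℝ)) ≤
      ∑ z ∈ Ico p (p + 2 * l), uu K z * uu K (n - z) := by
  have h1 : ∑ z ∈ Ico p (p + 2 * l), uu K z * uu K (n - z) =
      ∑ z ∈ Ico p (p + 2 * l), ∑ y ∈ Ico p (z + 1),
        ff K p y * uu K (z - y) * uu K (n - z) := by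
    refine sum_congr rfl fun z hz => ?_
    rw [mem_Ico] at hz
    rw [uu_cross K hp hz.1, sum_mul]
  rw [h1]
  have h2 : ∀ z ∈ Ico p (p + 2 * l),
      (∑ y ∈ Ico p (p + l), if y ≤ z ∧ z < y + l then
        ff K p y * uu K (z - y) * uu K (n - z) else 0) ≤
      ∑ y ∈ Ico p (z + 1), ff K p y * uu K (z - y) * uu K (n - z) := by
    intro z hz
    rw [← sum_filter]
    refine sum_le_sum_of_subset_of_nonneg ?_ ?_
    · intro y hy
      rw [mem_filter, mem_Ico] at hy
      rw [mem_Ico]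
      omega
    · intro y hy _
      rw [mem_Ico] at hy
      exact mul_nonneg (mul_nonneg (ff_nonneg hK p y hy.1) (uu_pos hK _).le) (uu_pos hK _).le
  refine le_trans ?_ (sum_le_sum h2)
  rw [sum_comm, sum_mul]
  refine sum_le_sum fun y hy => ?_
  rw [mem_Ico] at hy
  rw [← sum_filter]
  have h3 : (Ico p (p + 2 * l)).filter (fun z => y ≤ z ∧ z < y + l) = Ico y (y + l) := by
    ext z; simp only [mem_filter, mem_Ico]; omega
  rw [h3, sum_Ico_eq_sum_range, Nat.add_sub_cancel_left]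
  have h4 : ∀ i ∈ range l, ff K p y * uu K (n - y) * uu K i ≤
      ff K p y * uu K (y + i - y) * uu K (n - (y + i)) := by
    intro i hi
    rw [mem_range] at hi
    rw [Nat.add_sub_cancel_left]
    have h5 : uu K (n - y) ≤ uu K (n - (y + i)) := uu_le hR (by omega)
    have h6 := mul_nonneg (ff_nonneg hK p y hy.1) (uu_pos hK i).le
    nlinarith [mul_le_mul_of_nonneg_left h5 h6]
  refine le_trans ?_ (sum_le_sum h4)
  rw [← mul_sum]
  exact mul_le_mul_of_nonneg_left (sum_low hR hl)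
    (mul_nonneg (ff_nonneg hK p y hy.1) (uu_pos hK _).le)

theorem ind_le {n p l : ℕ} (s : Fin n → Bool) :
    (if ∃ i : Fin n, s i = true ∧ p ≤ (i : ℕ) + 1 ∧ (i : ℕ) + 1 < p + l then (1 : ℝ) else 0) ≤
      2 * (1 - Real.exp (∑ i : Fin n, th p l i * spB n s i)) := by
  have h0 : ∀ i : Fin n, th p l i * spB n s i ≤ 0 := by
    intro i
    have h1 : th p l i ≤ 0 := by
      unfold th
      split_ifs <;> norm_num
    exact mul_nonpos_of_nonpos_of_nonneg h1 (OTP.ZE.spB_nonneg n s i)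
  split_ifs with h
  · obtain ⟨i, hi, hi2⟩ := h
    have h1 : ∑ j : Fin n, th p l j * spB n s j ≤ th p l i * spB n s i := by
      have := sum_le_sum_of_subset_of_nonneg (f := fun j : Fin n => -(th p l j * spB n s j))
        (singleton_subset_iff.mpr (mem_univ i)) (fun j _ _ => by
          have := h0 j; linarith)
      rw [sum_singleton, sum_neg_distrib] at this
      linarith
    have h2 : th p l i * spB n s i = -1 := by
      unfold th spB
      rw [if_pos hi2, if_pos hi]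
      norm_num
    rw [h2] at h1
    have h3 : Real.exp (∑ j : Fin n, th p l j * spB n s j) ≤ Real.exp (-1) :=
      Real.exp_le_exp.mpr h1
    have h4 : Real.exp (-1) ≤ 1 / 2 := by
      have h5 : (2 : ℝ) ≤ Real.exp 1 := by
        have := Real.add_one_le_exp (1 : ℝ)
        linarith
      rw [Real.exp_neg, inv_eq_one_div]
      exact div_le_div_of_nonneg_left (by norm_num) (by norm_num) h5
    linarith
  · have h1 : ∑ j : Fin n, th p l j * spB n s j ≤ 0 := sum_nonpos fun j _ => h0 j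
    have h2 : Real.exp (∑ j : Fin n, th p l j * spB n s j) ≤ 1 := Real.exp_le_one_iff.mpr h1
    linarith

theorem sum_eq_Zp (K : ℕ → ℝ) (n : ℕ) (θ : ℕ → ℝ) :
    ∑ s : Fin n → Bool, wB K n 0 s * Real.exp (∑ i : Fin n, θ i * spB n s i) = Zp K n θ :=
  OTP.ZE_eq_Zp K n θ

theorem sum_wB (K : ℕ → ℝ) (n : ℕ) : ∑ s : Fin n → Bool, wB K n 0 s = uu K n := by
  have h := sum_eq_Zp K n (fun _ => 0)
  simp only [zero_mul, sum_const_zero, Real.exp_zero, mul_one] at h
  exact h

end Hit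

theorem hit {K : ℕ → ℝ} (hK : KerP K) {c C : ℝ} (hR : RenB K c C) :
    ∃ C' : ℝ, 0 < C' ∧ ∀ n p l : ℕ, 1 ≤ p → 1 ≤ l → p + 2 * l ≤ n + 1 →
      ∑ s : Fin n → Bool, wB K n 0 s *
          (if ∃ i : Fin n, s i = true ∧ p ≤ (i : ℕ) + 1 ∧ (i : ℕ) + 1 < p + l then 1 else 0) ≤
        C' / √(l : ℝ) * ∑ z ∈ Ico p (p + 2 * l), uu K z * uu K (n - z) := by
  refine ⟨2 / c, div_pos two_pos hR.cpos, fun n p l hp hl hn => ?_⟩
  have hl0 : (0 : ℝ) < l := by exact_mod_cast hl
  have hs : 0 < √(l : ℝ) := Real.sqrt_pos.mpr hl0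
  have h1 : ∑ s : Fin n → Bool, wB K n 0 s *
      (if ∃ i : Fin n, s i = true ∧ p ≤ (i : ℕ) + 1 ∧ (i : ℕ) + 1 < p + l then (1 : ℝ) else 0) ≤
      2 * (uu K n - Zp K n (Hit.th p l)) := by
    rw [← Hit.sum_wB K n, ← Hit.sum_eq_Zp K n, ← sum_sub_distrib, mul_sum]
    refine sum_le_sum fun s _ => ?_
    have h2 := mul_le_mul_of_nonneg_left (Hit.ind_le (n := n) (p := p) (l := l) s)
      (OTP.ZE.wB_nonneg hK n 0 s)
    linarith
  have h2 := Hit.Zp_diff hK (n := n) (p := p) (l := l) hp (by omega) (by omega)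
  have h3 := Hit.conv_low hK hR hp hl hn
  have hc := hR.cpos
  rw [div_div, div_mul_eq_mul_div, le_div_iff₀ (mul_pos hc hs)]
  have h4 : (∑ s : Fin n → Bool, wB K n 0 s *
      (if ∃ i : Fin n, s i = true ∧ p ≤ (i : ℕ) + 1 ∧ (i : ℕ) + 1 < p + l then (1 : ℝ) else 0)) *
      (c * √(l : ℝ)) ≤ (2 * (∑ y ∈ Ico p (p + l), Hit.ff K p y * uu K (n - y))) *
      (c * √(l : ℝ)) := mul_le_mul_of_nonneg_right (by linarith) (mul_pos hc hs).le
  linarith

end

end Pool.Agent.OTM
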