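import Mathlib
import Pool.Agent.Lib.MP_daa227_pr_OTM.Defs
import Pool.Agent.Lib.MP_daa227_pr_OTP.Dec
import Pool.Agent.Lib.MP_daa227_pr_OTP.RenEst

/-!
# Renewal estimates at the marginal exponent
-/

namespace Pool.Agent.OTM

open MeasureTheory ProbabilityTheory Finset Filter
open MP_daa227_pr (shift seqLaw ExpMom DepOn mom)
open Pool.Agent.OT (en lmg)
open Pool.Agent.OTP (Zp KerP wB spB LP)

noncomputable section

namespace M1

/-- tail of the kernel -/
def Kb (K : ℕ → ℝ) (j : ℕ) : ℝ := 1 - ∑ k ∈ range (j + 1), K k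

theorem Kb_zero {K : ℕ → ℝ} (hK : KerP K) : Kb K 0 = 1 := by
  unfold Kb
  simp [hK.zero]

theorem Kb_succ (K : ℕ → ℝ) (j : ℕ) : Kb K j = K (j + 1) + Kb K (j + 1) := by
  unfold Kb
  rw [sum_range_succ _ (j + 1)]
  ring

theorem K_nonneg {K : ℕ → ℝ} (hK : KerP K) (k : ℕ) : 0 ≤ K k := by
  rcases Nat.eq_zero_or_pos k with h | h
  · rw [h, hK.zero]
  · exact (hK.pos k h).le

theorem Kb_nonneg {K : ℕ → ℝ} (hK : KerP K) (j : ℕ) : 0 ≤ Kb K j := by
  unfold Kb
  have := sum_le_hasSum (range (j + 1)) (fun k _ => K_nonneg hK k) hK.sum_one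
  linarith

theorem Kb_anti {K : ℕ → ℝ} (hK : KerP K) {i j : ℕ} (h : i ≤ j) : Kb K j ≤ Kb K i := by
  induction j, h using Nat.le_induction with
  | base => exact le_rfl
  | succ j _ ih =>
    have := Kb_succ K j
    have := K_nonneg hK (j + 1)
    linarith

theorem Kb_lim {K : ℕ → ℝ} (hK : KerP K) (j : ℕ) :
    Tendsto (fun N => Kb K (j + N)) atTop (nhds 0) := by
  have h1 : Tendsto (fun N => ∑ k ∈ range N, K k) atTop (nhds 1) := hK.sum_one.tendsto_sum_nat
  have h2 : Tendsto (fun N => Kb K N) atTop (nhds 0) := by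
    have := (h1.comp (tendsto_add_atTop_nat 1)).const_sub 1
    rw [sub_self] at this
    exact this
  have h3 : Tendsto (fun N : ℕ => j + N) atTop atTop := by
    simpa only [add_comm] using tendsto_add_atTop_nat j
  exact h2.comp h3

theorem Kb_sub (K : ℕ → ℝ) (j N : ℕ) : ∑ y ∈ range N, K (j + 1 + y) = Kb K j - Kb K (j + N) := by
  induction N with
  | zero => simp
  | succ N ih =>
    rw [sum_range_succ, ih]
    have := Kb_succ K (j + N)
    rw [show j + (N + 1) = j + N + 1 by ring, show j + 1 + N = j + N + 1 by ring]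
    linarith

theorem pow_form {k : ℕ} (hk : 1 ≤ k) :
    (k : ℝ) ^ (-(3 / 2 : ℝ)) = 1 / ((k : ℝ) * √(k : ℝ)) := by
  have hk0 : (0 : ℝ) < k := by exact_mod_cast hk
  rw [Real.sqrt_eq_rpow, Real.rpow_neg hk0.le, one_div]
  congr 1
  rw [show (3 / 2 : ℝ) = 1 + 1 / 2 by norm_num, Real.rpow_add hk0, Real.rpow_one]

/-- telescoping, upper bound -/
theorem tele_up {k : ℝ} (hk : 1 ≤ k) : 1 / ((k + 1) * √(k + 1)) ≤ 2 * (1 / √k - 1 / √(k + 1)) := by
  have h0 : 0 < √k := Real.sqrt_pos.2 (by linarith)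
  have h1 : 0 < √(k + 1) := Real.sqrt_pos.2 (by linarith)
  have h2 : √k ≤ √(k + 1) := Real.sqrt_le_sqrt (by linarith)
  have e1 : √k * √k = k := Real.mul_self_sqrt (by linarith)
  have e2 : √(k + 1) * √(k + 1) = k + 1 := Real.mul_self_sqrt (by linarith)
  have e3 : 1 / √k - 1 / √(k + 1) = 1 / (√k * √(k + 1) * (√(k + 1) + √k)) := by
    rw [div_sub_div _ _ h0.ne' h1.ne', div_eq_div_iff (by positivity) (by positivity)]
    have : (√(k + 1) - √k) * (√(k + 1) + √k) = 1 := by nlinarith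
    linear_combination (√k * √(k + 1)) * this
  rw [e3, mul_one_div, div_le_div_iff₀ (by positivity) (by positivity)]
  have h3 : √k * √(k + 1) * (√(k + 1) + √k) ≤ √(k + 1) * √(k + 1) * (√(k + 1) + √(k + 1)) := by
    gcongr
  rw [e2] at h3
  linarith

/-- telescoping, lower bound -/
theorem tele_low {k : ℝ} (hk : 1 ≤ k) : 2 * (1 / √k - 1 / √(k + 1)) ≤ 1 / (k * √k) := by
  have h0 : 0 < √k := Real.sqrt_pos.2 (by linarith)
  have h1 : 0 < √(k + 1) := Real.sqrt_pos.2 (by linarith)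
  have h2 : √k ≤ √(k + 1) := Real.sqrt_le_sqrt (by linarith)
  have e1 : √k * √k = k := Real.mul_self_sqrt (by linarith)
  have e2 : √(k + 1) * √(k + 1) = k + 1 := Real.mul_self_sqrt (by linarith)
  have e3 : 1 / √k - 1 / √(k + 1) = 1 / (√k * √(k + 1) * (√(k + 1) + √k)) := by
    rw [div_sub_div _ _ h0.ne' h1.ne', div_eq_div_iff (by positivity) (by positivity)]
    have : (√(k + 1) - √k) * (√(k + 1) + √k) = 1 := by nlinarith
    linear_combination (√k * √(k + 1)) * this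
  rw [e3, mul_one_div, div_le_div_iff₀ (by positivity) (by positivity)]
  have h3 : √k * √k * (√k + √k) ≤ √k * √(k + 1) * (√(k + 1) + √k) := by
    gcongr
  rw [e1] at h3
  linarith

/-- sums of inverse square roots -/
theorem sum_inv_sqrt (k : ℕ) : ∑ i ∈ range k, 1 / √((i : ℝ) + 1) ≤ 2 * √(k : ℝ) := by
  induction k with
  | zero => simp
  | succ k ih =>
    rw [sum_range_succ]
    push_cast
    have hk : (0 : ℝ) ≤ k := Nat.cast_nonneg k
    have h1 : 0 < √((k : ℝ) + 1) := Real.sqrt_pos.2 (by linarith)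
    have h0 : 0 ≤ √(k : ℝ) := Real.sqrt_nonneg _
    have h2 : √(k : ℝ) ≤ √((k : ℝ) + 1) := Real.sqrt_le_sqrt (by linarith)
    have e1 : √(k : ℝ) * √(k : ℝ) = k := Real.mul_self_sqrt hk
    have e2 : √((k : ℝ) + 1) * √((k : ℝ) + 1) = k + 1 := Real.mul_self_sqrt (by linarith)
    have h3 : 1 / √((k : ℝ) + 1) ≤ 2 * (√((k : ℝ) + 1) - √(k : ℝ)) := by
      rw [div_le_iff₀ h1]
      nlinarith
    linarith

theorem Kb_up {K : ℕ → ℝ} (hK : KerP K) {C : ℝ} (hC : 0 < C)
    (hup : ∀ k : ℕ, 1 ≤ k → K k ≤ C * (1 / ((k : ℝ) * √(k : ℝ)))) (j : ℕ) :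
    Kb K j ≤ 3 * C / √((j : ℝ) + 1) := by
  -- bound for positive `j`
  have h1 : ∀ j : ℕ, 1 ≤ j → ∀ N : ℕ, ∑ y ∈ range N, K (j + 1 + y) ≤
      C * (2 * (1 / √(j : ℝ) - 1 / √((j : ℝ) + N))) := by
    intro j hj N
    induction N with
    | zero => simp
    | succ N ih =>
      rw [sum_range_succ]
      have hj1 : (1 : ℝ) ≤ j := by exact_mod_cast hj
      have hN : (0 : ℝ) ≤ N := Nat.cast_nonneg N
      have h2 := hup (j + 1 + N) (by omega)
      have h3 := tele_up (k := (j : ℝ) + N) (by linarith)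
      push_cast at h2 ⊢
      rw [show (j : ℝ) + 1 + N = j + N + 1 by ring] at h2
      rw [show (j : ℝ) + (N + 1) = j + N + 1 by ring]
      have h4 := mul_le_mul_of_nonneg_left h3 hC.le
      linarith
  have h2 : ∀ j : ℕ, 1 ≤ j → Kb K j ≤ C * (2 * (1 / √(j : ℝ))) := by
    intro j hj
    have h3 : Tendsto (fun N => Kb K j - Kb K (j + N)) atTop (nhds (Kb K j)) := by
      have := (Kb_lim hK j).const_sub (Kb K j)
      rwa [sub_zero] at this
    refine le_of_tendsto h3 (Eventually.of_forall fun N => ?_)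
    rw [← Kb_sub]
    refine (h1 j hj N).trans ?_
    have : 0 ≤ 1 / √((j : ℝ) + N) := by positivity
    apply mul_le_mul_of_nonneg_left _ hC.le
    linarith
  rcases Nat.eq_zero_or_pos j with rfl | hj
  · have h3 := Kb_succ K 0
    have h4 := h2 1 le_rfl
    have h5 := hup 1 le_rfl
    simp at h4 h5 h3 ⊢
    linarith
  · refine (h2 j hj).trans ?_
    have hj1 : (1 : ℝ) ≤ j := by exact_mod_cast hj
    have a1 : 0 < √(j : ℝ) := Real.sqrt_pos.2 (by linarith)
    have a2 : 0 < √((j : ℝ) + 1) := Real.sqrt_pos.2 (by linarith)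
    have a3 : 2 * √((j : ℝ) + 1) ≤ 3 * √(j : ℝ) := by
      have e1 : √(j : ℝ) * √(j : ℝ) = j := Real.mul_self_sqrt (by linarith)
      have e2 : √((j : ℝ) + 1) * √((j : ℝ) + 1) = j + 1 := Real.mul_self_sqrt (by linarith)
      apply (pow_le_pow_iff_left₀ (by positivity) (by positivity) two_ne_zero).1
      nlinarith
    rw [le_div_iff₀ a2]
    have : C * (2 * (1 / √(j : ℝ))) * √((j : ℝ) + 1) = C * (2 * √((j : ℝ) + 1)) / √(j : ℝ) := by
      ring
    rw [this, div_le_iff₀ a1]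
    have := mul_le_mul_of_nonneg_left a3 hC.le
    linarith

theorem Kb_low {K : ℕ → ℝ} (hK : KerP K) {c : ℝ} (hc : 0 < c)
    (hlow : ∀ k : ℕ, 1 ≤ k → c * (1 / ((k : ℝ) * √(k : ℝ))) ≤ K k) (j : ℕ) :
    2 * c / √((j : ℝ) + 1) ≤ Kb K j := by
  have h1 : ∀ N : ℕ, c * (2 * (1 / √((j : ℝ) + 1) - 1 / √((j : ℝ) + 1 + N))) ≤
      ∑ y ∈ range N, K (j + 1 + y) := by
    intro N
    induction N with
    | zero => simp
    | succ N ih =>
      rw [sum_range_succ]
      have hj : (0 : ℝ) ≤ j := Nat.cast_nonneg j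
      have hN : (0 : ℝ) ≤ N := Nat.cast_nonneg N
      have h2 := hlow (j + 1 + N) (by omega)
      have h3 := tele_low (k := (j : ℝ) + 1 + N) (by linarith)
      push_cast at h2 ⊢
      rw [show (j : ℝ) + 1 + (N + 1) = j + 1 + N + 1 by ring]
      have h4 := mul_le_mul_of_nonneg_left h3 hc.le
      linarith
  have h2 : Tendsto (fun N : ℕ => c * (2 * (1 / √((j : ℝ) + 1) - 1 / √((j : ℝ) + 1 + N))))
      atTop (nhds (c * (2 * (1 / √((j : ℝ) + 1) - 0)))) := by
    refine Tendsto.const_mul _ (Tendsto.const_mul _ (Tendsto.const_sub _ ?_))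
    simp_rw [one_div]
    refine Tendsto.inv_tendsto_atTop ?_
    refine Real.tendsto_sqrt_atTop.comp ?_
    exact tendsto_atTop_add_const_left _ _ tendsto_natCast_atTop_atTop
  have h3 : c * (2 * (1 / √((j : ℝ) + 1) - 0)) ≤ Kb K j := by
    refine le_of_tendsto h2 (Eventually.of_forall fun N => (h1 N).trans ?_)
    rw [Kb_sub]
    have := Kb_nonneg hK (j + N)
    linarith
  refine le_trans (le_of_eq ?_) h3
  ring

theorem uu_last {K : ℕ → ℝ} (n : ℕ) : uu K (n + 1) = ∑ m ∈ range (n + 1), uu K m * K (n + 1 - m) := by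
  unfold uu
  rw [OTP.Zp_last]
  simp

/-- last renewal before `n` -/
theorem identity {K : ℕ → ℝ} (hK : KerP K) (n : ℕ) :
    ∑ m ∈ range (n + 1), uu K m * Kb K (n - m) = 1 := by
  induction n with
  | zero =>
    simp [Kb_zero hK, uu, OTP.D.Zp_zero]
  | succ n ih =>
    rw [sum_range_succ, Nat.sub_self, Kb_zero hK, mul_one, uu_last, ← sum_add_distrib, ← ih]
    refine sum_congr rfl fun m hm => ?_
    rw [mem_range] at hm
    have := Kb_succ K (n - m)
    rw [show n - m + 1 = n + 1 - m by omega] at this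
    rw [this]
    ring

theorem uu_pos {K : ℕ → ℝ} (hK : KerP K) (n : ℕ) : 0 < uu K n := OTP.Zp_pos hK _ _

theorem uu_anti {K : ℕ → ℝ} (hK : KerP K) (n : ℕ) : uu K (n + 1) ≤ uu K n := by
  have := OTP.Zp_const_anti hK (le_refl (0 : ℝ)) n
  unfold uu
  simpa using this

theorem uu_anti' {K : ℕ → ℝ} (hK : KerP K) {m n : ℕ} (h : m ≤ n) : uu K n ≤ uu K m := by
  induction n, h using Nat.le_induction with
  | base => exact le_rfl
  | succ n _ ih => exact (uu_anti hK n).trans ih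

theorem sum_uu {K : ℕ → ℝ} (hK : KerP K) {c : ℝ} (hc : 0 < c)
    (hlow : ∀ k : ℕ, 1 ≤ k → c * (1 / ((k : ℝ) * √(k : ℝ))) ≤ K k) (n : ℕ) :
    ∑ m ∈ range (n + 1), uu K m ≤ √((n : ℝ) + 1) / (2 * c) := by
  have h1 := identity hK n
  have h2 : (∑ m ∈ range (n + 1), uu K m) * Kb K n ≤ 1 := by
    rw [← h1, sum_mul]
    refine sum_le_sum fun m _ => mul_le_mul_of_nonneg_left (Kb_anti hK (Nat.sub_le n m)) ?_
    exact (uu_pos hK m).le
  have h3 := Kb_low hK hc hlow n
  have h4 : 0 ≤ ∑ m ∈ range (n + 1), uu K m := sum_nonneg fun m _ => (uu_pos hK m).le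
  have h5 : 0 < √((n : ℝ) + 1) := Real.sqrt_pos.2 (by positivity)
  have h6 := mul_le_mul_of_nonneg_left h3 h4
  rw [le_div_iff₀ (by positivity)]
  have h7 : (∑ m ∈ range (n + 1), uu K m) * (2 * c / √((n : ℝ) + 1)) ≤ 1 := h6.trans h2
  rw [mul_div_assoc', div_le_one h5] at h7
  exact h7

theorem uu_up {K : ℕ → ℝ} (hK : KerP K) {c : ℝ} (hc : 0 < c)
    (hlow : ∀ k : ℕ, 1 ≤ k → c * (1 / ((k : ℝ) * √(k : ℝ))) ≤ K k) (n : ℕ) :
    uu K n ≤ (1 / (2 * c)) / √((n : ℝ) + 1) := by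
  have h1 : ((n : ℝ) + 1) * uu K n ≤ ∑ m ∈ range (n + 1), uu K m := by
    have h2 : ∑ _m ∈ range (n + 1), uu K n ≤ ∑ m ∈ range (n + 1), uu K m := by
      refine sum_le_sum fun m hm => uu_anti' hK ?_
      rw [mem_range] at hm
      omega
    rw [sum_const, card_range, nsmul_eq_mul] at h2
    push_cast at h2
    exact h2
  have h3 := h1.trans (sum_uu hK hc hlow n)
  have h5 : 0 < √((n : ℝ) + 1) := Real.sqrt_pos.2 (by positivity)
  have e2 : √((n : ℝ) + 1) * √((n : ℝ) + 1) = n + 1 := Real.mul_self_sqrt (by positivity)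
  generalize √((n : ℝ) + 1) = s at h3 h5 e2 ⊢
  rw [le_div_iff₀ h5]
  rw [← e2, le_div_iff₀ (by positivity)] at h3
  rw [le_div_iff₀ (by positivity)]
  have h6 : s * (uu K n * s * (2 * c)) ≤ s * 1 := by
    linarith
  exact le_of_mul_le_mul_left h6 h5

theorem uu_low {K : ℕ → ℝ} (hK : KerP K) {c C : ℝ} (hc : 0 < c) (hC : 0 < C)
    (hlow : ∀ k : ℕ, 1 ≤ k → c * (1 / ((k : ℝ) * √(k : ℝ))) ≤ K k)
    (hup : ∀ k : ℕ, 1 ≤ k → K k ≤ C * (1 / ((k : ℝ) * √(k : ℝ)))) :
    ∃ d : ℝ, 0 < d ∧ ∀ n : ℕ, d / √((n : ℝ) + 1) ≤ uu K n := by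
  obtain ⟨A, hA⟩ := exists_nat_ge ((3 * C / c) ^ 2 + 1)
  have hA1 : (1 : ℝ) ≤ A := le_trans (by nlinarith [sq_nonneg (3 * C / c)]) hA
  have hA2 : 3 * C / c ≤ √((A : ℝ) - 1) := Real.le_sqrt_of_sq_le (by linarith)
  have hA3 : 0 < √((A : ℝ) - 1) := lt_of_lt_of_le (by positivity) hA2
  have hA4 : 1 ≤ A := by exact_mod_cast hA1
  refine ⟨1 / (12 * C * √(2 * (A : ℝ))), by positivity, fun n => ?_⟩
  set N := A * (n + 1) with hN
  have hnN : n ≤ N := by
    rw [hN]
    nlinarith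
  have hn1 : (0 : ℝ) < (n : ℝ) + 1 := by positivity
  have hid := identity hK N
  have hsplit : ∑ m ∈ range (N + 1), uu K m * Kb K (N - m) =
      ∑ m ∈ range n, uu K m * Kb K (N - m) + ∑ m ∈ Ico n (N + 1), uu K m * Kb K (N - m) := by
    rw [range_eq_Ico, range_eq_Ico, sum_Ico_consecutive _ (Nat.zero_le n) (by omega)]
  rw [hsplit] at hid
  -- the first part
  have p1 : ∑ m ∈ range n, uu K m * Kb K (N - m) ≤ 1 / 2 := by
    have q1 : ∑ m ∈ range n, uu K m * Kb K (N - m) ≤ (∑ m ∈ range (n + 1), uu K m) * Kb K (N - n) := by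
      rw [sum_mul]
      refine (sum_le_sum fun m hm => mul_le_mul_of_nonneg_left (Kb_anti hK ?_)
        (uu_pos hK m).le).trans (sum_le_sum_of_subset_of_nonneg
          (range_subset_range.mpr (Nat.le_succ n)) fun m _ _ => mul_nonneg (uu_pos hK m).le
            (Kb_nonneg hK _))
      rw [mem_range] at hm
      omega
    have q2 := sum_uu hK hc hlow n
    have q3 := Kb_up hK hC hup (N - n)
    have q4 : ((A : ℝ) - 1) * ((n : ℝ) + 1) ≤ ((N - n : ℕ) : ℝ) + 1 := by
      rw [Nat.cast_sub hnN, hN]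
      push_cast
      linarith
    have q5 : √((A : ℝ) - 1) * √((n : ℝ) + 1) ≤ √(((N - n : ℕ) : ℝ) + 1) := by
      rw [← Real.sqrt_mul (by linarith)]
      exact Real.sqrt_le_sqrt q4
    have hsn : 0 < √((n : ℝ) + 1) := Real.sqrt_pos.2 hn1
    have q6 : 3 * C / √(((N - n : ℕ) : ℝ) + 1) ≤ 3 * C / (√((A : ℝ) - 1) * √((n : ℝ) + 1)) :=
      div_le_div_of_nonneg_left (by positivity) (by positivity) q5
    calc _ ≤ (∑ m ∈ range (n + 1), uu K m) * Kb K (N - n) := q1
      _ ≤ √((n : ℝ) + 1) / (2 * c) * (3 * C / (√((A : ℝ) - 1) * √((n : ℝ) + 1))) :=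
          mul_le_mul q2 (q3.trans q6) (Kb_nonneg hK _) (by positivity)
      _ = (3 * C / c) / √((A : ℝ) - 1) / 2 := by
          field_simp
      _ ≤ 1 / 2 := by
          have : (3 * C / c) / √((A : ℝ) - 1) ≤ 1 := by
            rw [div_le_one hA3]
            exact hA2
          linarith
  -- the second part
  have p2 : ∑ m ∈ Ico n (N + 1), uu K m * Kb K (N - m) ≤ uu K n * (3 * C * (2 * √((N : ℝ) + 1))) := by
    calc ∑ m ∈ Ico n (N + 1), uu K m * Kb K (N - m)
        ≤ ∑ m ∈ Ico n (N + 1), uu K n * (3 * C / √(((N - m : ℕ) : ℝ) + 1)) := by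
          refine sum_le_sum fun m hm => ?_
          rw [mem_Ico] at hm
          exact mul_le_mul (uu_anti' hK hm.1) (Kb_up hK hC hup _) (Kb_nonneg hK _) (uu_pos hK n).le
      _ ≤ ∑ m ∈ range (N + 1), uu K n * (3 * C / √(((N - m : ℕ) : ℝ) + 1)) := by
          refine sum_le_sum_of_subset_of_nonneg ?_ fun m _ _ =>
            mul_nonneg (uu_pos hK n).le (by positivity)
          intro m hm
          rw [mem_Ico] at hm
          exact mem_range.2 hm.2
      _ = uu K n * (3 * C * ∑ m ∈ range (N + 1), 1 / √((m : ℝ) + 1)) := by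
          rw [mul_sum, mul_sum, ← sum_range_reflect]
          refine sum_congr rfl fun m hm => ?_
          rw [mem_range] at hm
          rw [show N - (N + 1 - 1 - m) = m by omega, mul_one_div]
      _ ≤ _ := by
          have h1 := sum_inv_sqrt (N + 1)
          push_cast at h1
          apply mul_le_mul_of_nonneg_left _ (uu_pos hK n).le
          exact mul_le_mul_of_nonneg_left h1 (by positivity)
  have p3 : √((N : ℝ) + 1) ≤ √(2 * (A : ℝ)) * √((n : ℝ) + 1) := by
    rw [← Real.sqrt_mul (by positivity)]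
    apply Real.sqrt_le_sqrt
    rw [hN]
    push_cast
    nlinarith
  have hsn : 0 < √((n : ℝ) + 1) := Real.sqrt_pos.2 hn1
  have p4 : 1 / 2 ≤ uu K n * (3 * C * (2 * (√(2 * (A : ℝ)) * √((n : ℝ) + 1)))) := by
    have : uu K n * (3 * C * (2 * √((N : ℝ) + 1))) ≤
        uu K n * (3 * C * (2 * (√(2 * (A : ℝ)) * √((n : ℝ) + 1)))) := by
      apply mul_le_mul_of_nonneg_left _ (uu_pos hK n).le
      apply mul_le_mul_of_nonneg_left _ (by positivity)
      linarith
    linarith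
  rw [div_div, div_le_iff₀ (by positivity)]
  linarith

end M1

open M1 in
theorem renB {K : ℕ → ℝ} (hK : KerP K)
    (hlow : ∃ c : ℝ, 0 < c ∧ ∀ k : ℕ, 1 ≤ k → c * (k : ℝ) ^ (-(3 / 2 : ℝ)) ≤ K k)
    (hup : ∃ C : ℝ, ∀ k : ℕ, 1 ≤ k → K k ≤ C * (k : ℝ) ^ (-(3 / 2 : ℝ))) :
    ∃ c C : ℝ, RenB K c C := by
  obtain ⟨c, hc, hlow⟩ := hlow
  obtain ⟨C, hup⟩ := hup
  have hlow' : ∀ k : ℕ, 1 ≤ k → c * (1 / ((k : ℝ) * √(k : ℝ))) ≤ K k := fun k hk => by
    rw [← pow_form hk]
    exact hlow k hk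
  have hup' : ∀ k : ℕ, 1 ≤ k → K k ≤ C * (1 / ((k : ℝ) * √(k : ℝ))) := fun k hk => by
    rw [← pow_form hk]
    exact hup k hk
  have hC : 0 < C := by
    have h1 := hup' 1 le_rfl
    have h2 := hK.pos 1 le_rfl
    simp at h1
    linarith
  obtain ⟨d, hd, hdn⟩ := uu_low hK hc hC hlow' hup'
  set C₁ : ℝ := 1 / (2 * c) with hC₁
  have hC₁0 : 0 < C₁ := by positivity
  set D : ℝ := 1 + C₁ + 8 * C₁ ^ 2 + 2 + 3 * C with hD
  have hD1 : C₁ ≤ D := by rw [hD]; nlinarith [sq_nonneg C₁]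
  refine ⟨d, D, hd, by rw [hD]; nlinarith [sq_nonneg C₁], hdn, fun n => ?_, uu_anti hK, fun n => ?_,
    fun n r hr => ?_, fun j N => ?_, fun k hk => ?_⟩
  · refine (uu_up hK hc hlow' n).trans ?_
    exact div_le_div_of_nonneg_right hD1 (Real.sqrt_nonneg _)
  · -- convolution
    have hn1 : (0 : ℝ) < (n : ℝ) + 1 := by positivity
    have hsn : 0 < √((n : ℝ) + 1) := Real.sqrt_pos.2 hn1
    have h1 : ∀ z ∈ range (n + 1), uu K z * uu K (n - z) ≤
        C₁ ^ 2 * (2 / √((n : ℝ) + 1)) * (1 / √((z : ℝ) + 1) + 1 / √(((n - z : ℕ) : ℝ) + 1)) := by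
      intro z hz
      rw [mem_range] at hz
      have a1 := uu_up hK hc hlow' z
      have a2 := uu_up hK hc hlow' (n - z)
      rw [← hC₁] at a1 a2
      have b1 : 0 < √((z : ℝ) + 1) := Real.sqrt_pos.2 (by positivity)
      have b2 : 0 < √(((n - z : ℕ) : ℝ) + 1) := Real.sqrt_pos.2 (by positivity)
      have a3 := mul_le_mul a1 a2 (uu_pos hK _).le (by positivity)
      refine a3.trans ?_
      have e1 : √((z : ℝ) + 1) * √((z : ℝ) + 1) = z + 1 := Real.mul_self_sqrt (by positivity)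
      have e2 : √(((n - z : ℕ) : ℝ) + 1) * √(((n - z : ℕ) : ℝ) + 1) = ((n - z : ℕ) : ℝ) + 1 :=
        Real.mul_self_sqrt (by positivity)
      have e3 : √((n : ℝ) + 1) * √((n : ℝ) + 1) = n + 1 := Real.mul_self_sqrt (by positivity)
      have e4 : ((n - z : ℕ) : ℝ) = n - z := by rw [Nat.cast_sub (by omega)]
      have b3 : √((n : ℝ) + 1) ≤ 2 * (√((z : ℝ) + 1) + √(((n - z : ℕ) : ℝ) + 1)) := by
        apply (pow_le_pow_iff_left₀ (by positivity) (by positivity) two_ne_zero).1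
        have : 0 ≤ √((z : ℝ) + 1) * √(((n - z : ℕ) : ℝ) + 1) := by positivity
        have hz0 : (0 : ℝ) ≤ z := Nat.cast_nonneg z
        have hz1 : (z : ℝ) ≤ n := by exact_mod_cast (by omega : z ≤ n)
        nlinarith
      have e5 : C₁ / √((z : ℝ) + 1) * (C₁ / √(((n - z : ℕ) : ℝ) + 1)) =
          C₁ ^ 2 * (1 / (√((z : ℝ) + 1) * √(((n - z : ℕ) : ℝ) + 1))) := by
        field_simp
      rw [e5, mul_assoc]
      apply mul_le_mul_of_nonneg_left _ (by positivity)
      rw [div_add_div _ _ b1.ne' b2.ne', div_mul_div_comm, div_le_div_iff₀ (by positivity)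
        (by positivity)]
      have := mul_le_mul_of_nonneg_right b3
        (show 0 ≤ √((z : ℝ) + 1) * √(((n - z : ℕ) : ℝ) + 1) by positivity)
      nlinarith
    refine (sum_le_sum h1).trans ?_
    rw [← mul_sum, sum_add_distrib]
    have h2 := sum_inv_sqrt (n + 1)
    have h3 : ∑ z ∈ range (n + 1), 1 / √(((n - z : ℕ) : ℝ) + 1) =
        ∑ z ∈ range (n + 1), 1 / √((z : ℝ) + 1) := by
      rw [← sum_range_reflect]
      refine sum_congr rfl fun z hz => ?_
      rw [mem_range] at hz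
      rw [show n - (n + 1 - 1 - z) = z by omega]
    rw [h3]
    push_cast at h2
    calc C₁ ^ 2 * (2 / √((n : ℝ) + 1)) * (∑ z ∈ range (n + 1), 1 / √((z : ℝ) + 1) +
          ∑ z ∈ range (n + 1), 1 / √((z : ℝ) + 1))
        ≤ C₁ ^ 2 * (2 / √((n : ℝ) + 1)) * (2 * √((n : ℝ) + 1) + 2 * √((n : ℝ) + 1)) := by
          apply mul_le_mul_of_nonneg_left _ (by positivity)
          linarith
      _ = 8 * C₁ ^ 2 := by
          field_simp
          ring
      _ ≤ D := by rw [hD]; nlinarith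
  · -- few contacts
    have hr0 : 0 < r := by linarith
    have hx : 0 < 1 / r := by positivity
    have hx1 : 1 / r ≤ 1 := by rw [div_le_one hr0]; exact hr
    have h1 := OTP.Zp_const_sum hK hx (n + 1)
    have h2 := OTP.R1.exp_bound hx hx1
    have h3 : ((n : ℝ) + 1) * Zp K n (fun _ => -(1 / r)) ≤
        ∑ j ∈ range (n + 1), Zp K j (fun _ => -(1 / r)) := by
      have h4 : ∑ _j ∈ range (n + 1), Zp K n (fun _ => -(1 / r)) ≤
          ∑ j ∈ range (n + 1), Zp K j (fun _ => -(1 / r)) := by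
        refine sum_le_sum fun j hj => ?_
        rw [mem_range] at hj
        have hjn : j ≤ n := by omega
        clear hj
        induction n, hjn using Nat.le_induction with
        | base => exact le_rfl
        | succ n _ ih =>
          refine (OTP.Zp_const_anti hK hx.le n).trans ?_
          apply ih
          · exact OTP.Zp_const_sum hK hx (n + 1)
      rw [sum_const, card_range, nsmul_eq_mul] at h4
      push_cast at h4
      exact h4
    have h5 : 2 / (1 / r) = 2 * r := by field_simp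
    rw [h5] at h2
    rw [le_div_iff₀ (by positivity)]
    have h6 : 2 * r ≤ D * r := by
      apply mul_le_mul_of_nonneg_right _ hr0.le
      rw [hD]
      nlinarith [sq_nonneg C₁]
    linarith
  · -- tails
    have h1 : ∑ y ∈ Icc 1 N, K (j + y) = ∑ y ∈ range N, K (j + 1 + y) := by
      induction N with
      | zero => simp
      | succ N ih =>
        rw [sum_Icc_succ_top (by omega), sum_range_succ, ih]
        congr 2
        ring
    rw [h1, Kb_sub]
    have h2 := Kb_up hK hC hup' j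
    have h3 := Kb_nonneg hK (j + N)
    have h4 : 3 * C / √((j : ℝ) + 1) ≤ D / √((j : ℝ) + 1) := by
      apply div_le_div_of_nonneg_right _ (Real.sqrt_nonneg _)
      rw [hD]
      nlinarith [sq_nonneg C₁]
    linarith
  · have hk0 : (0 : ℝ) < k := by exact_mod_cast hk
    refine (hup' k hk).trans ?_
    rw [mul_one_div]
    apply div_le_div_of_nonneg_right _ (by positivity)
    rw [hD]
    nlinarith [sq_nonneg C₁]

end

end Pool.Agent.OTM
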