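import Pool.Agent.Lib.MP_daa227_pr_OTM.Defs

/-!
# Module M12: the one-body estimate of the coarse graining
-/

namespace Pool.Agent.OTM

open MeasureTheory ProbabilityTheory Finset Filter
open MP_daa227_pr (shift seqLaw ExpMom DepOn mom)
open Pool.Agent.OT (en lmg)
open Pool.Agent.OTP (Zp KerP wB spB LP)

noncomputable section

namespace M12

theorem sum_inv_sqrt (N : ℕ) : ∑ m ∈ range N, 1 / √((m : ℝ) + 1) ≤ 2 * √(N : ℝ) := by
  induction N with
  | zero => simp
  | succ n ih =>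
    rw [Finset.sum_range_succ]
    have h1 : 0 < √((n : ℝ) + 1) := Real.sqrt_pos.2 (by positivity)
    have h2 : √((n : ℝ) + 1) * √((n : ℝ) + 1) = n + 1 := Real.mul_self_sqrt (by positivity)
    have h3 : √(n : ℝ) * √(n : ℝ) = n := Real.mul_self_sqrt (by positivity)
    have h6 : 1 / √((n : ℝ) + 1) ≤ 2 * (√((n : ℝ) + 1) - √(n : ℝ)) := by
      rw [div_le_iff₀ h1]
      nlinarith [mul_self_nonneg (√((n : ℝ) + 1) - √(n : ℝ))]
    push_cast
    linarith

theorem K_nonneg {K : ℕ → ℝ} (hK : KerP K) (n : ℕ) : 0 ≤ K n := by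
  rcases Nat.eq_zero_or_pos n with h | h
  · rw [h, hK.zero]
  · exact (hK.pos n h).le

theorem uu_nonneg {K : ℕ → ℝ} {c C : ℝ} (hR : RenB K c C) (n : ℕ) : 0 ≤ uu K n := by
  have h1 := hR.low n
  have h2 := hR.cpos
  refine le_trans ?_ h1
  positivity

theorem sum_uu_le {K : ℕ → ℝ} {c C : ℝ} (hR : RenB K c C) (N : ℕ) :
    ∑ m ∈ range N, uu K m ≤ 2 * C * √(N : ℝ) := by
  have hC : 0 ≤ C := by linarith [hR.Cpos]
  calc ∑ m ∈ range N, uu K m ≤ ∑ m ∈ range N, C * (1 / √((m : ℝ) + 1)) := by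
        refine sum_le_sum fun m _ => ?_
        rw [mul_one_div]
        exact hR.up m
    _ = C * ∑ m ∈ range N, 1 / √((m : ℝ) + 1) := by rw [mul_sum]
    _ ≤ C * (2 * √(N : ℝ)) := mul_le_mul_of_nonneg_left (sum_inv_sqrt N) hC
    _ = 2 * C * √(N : ℝ) := by ring

/-- the tail bound -/
theorem I_tail {K : ℕ → ℝ} {c C : ℝ} (hR : RenB K c C) {n k x : ℕ} (hx : x ≤ n) :
    ∑ z ∈ Icc 1 k, K (n + z - x) ≤ C / √(((n - x : ℕ) : ℝ) + 1) := by
  refine le_trans (le_of_eq ?_) (hR.tail (n - x) k)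
  refine sum_congr rfl fun z _ => ?_
  congr 1
  omega

/-- comparison of the two powers -/
theorem pow_cmp {t : ℝ} (ht : 1 ≤ t) : (t + 1) * √(t + 1) ≤ 3 * (t * √t) := by
  have h1 : √(t + 1) * √(t + 1) = t + 1 := Real.mul_self_sqrt (by linarith)
  have h2 : √t * √t = t := Real.mul_self_sqrt (by linarith)
  have h3 : 0 ≤ √(t + 1) := Real.sqrt_nonneg _
  have h4 : 0 < √t := Real.sqrt_pos.2 (by linarith)
  have h5 : √(t + 1) ≤ 3 / 2 * √t := by
    apply Real.sqrt_le_iff.2
    constructor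
    · positivity
    · nlinarith
  calc (t + 1) * √(t + 1) ≤ (2 * t) * (3 / 2 * √t) := by
        apply mul_le_mul _ h5 h3 (by linarith)
        linarith
    _ = 3 * (t * √t) := by ring

/-- the bound far from the block -/
theorem I_far {K : ℕ → ℝ} {c C : ℝ} (hR : RenB K c C) {l k x : ℕ} (hl : 3 ≤ l) (hk : 1 ≤ k)
    (hx : x ≤ 2 * k) :
    ∑ z ∈ Icc 1 k, K (l * k + z - x) ≤
      3 * C / (((l : ℝ) - 1) * √((l : ℝ) - 1)) / √(k : ℝ) := by
  have hC : 0 < C := by linarith [hR.Cpos]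
  have hk0 : (1 : ℝ) ≤ k := by exact_mod_cast hk
  obtain ⟨t, rfl⟩ : ∃ t, l = t + 2 := ⟨l - 2, by omega⟩
  have ht : 1 ≤ t := by omega
  have ht0 : (1 : ℝ) ≤ t := by exact_mod_cast ht
  have hst : 0 < √(t : ℝ) := Real.sqrt_pos.2 (by linarith)
  have hsk : 0 < √(k : ℝ) := Real.sqrt_pos.2 (by linarith)
  have hkk : √(k : ℝ) * √(k : ℝ) = k := Real.mul_self_sqrt (by linarith)
  have e1 : (((t + 2 : ℕ) : ℝ) - 1) = (t : ℝ) + 1 := by push_cast; ring
  rw [e1]
  have hst1 : 0 < √((t : ℝ) + 1) := Real.sqrt_pos.2 (by linarith)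
  have hz : ∀ z ∈ Icc 1 k, K ((t + 2) * k + z - x) ≤ C / (((t : ℝ) * k) * (√(t : ℝ) * √(k : ℝ))) := by
    intro z hz
    rw [Finset.mem_Icc] at hz
    have hj1 : t * k ≤ (t + 2) * k + z - x := by
      have : (t + 2) * k = t * k + 2 * k := by ring
      omega
    have hj2 : 1 ≤ (t + 2) * k + z - x := by
      have : 1 ≤ t * k := Nat.mul_pos ht hk
      omega
    refine le_trans (hR.kup _ hj2) ?_
    have h5 : (t : ℝ) * k ≤ (((t + 2) * k + z - x : ℕ) : ℝ) := by exact_mod_cast hj1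
    have h6 : 0 < (t : ℝ) * k := by positivity
    have h7 : √(t : ℝ) * √(k : ℝ) ≤ √((((t + 2) * k + z - x : ℕ) : ℝ)) := by
      rw [← Real.sqrt_mul (by linarith)]
      exact Real.sqrt_le_sqrt h5
    apply div_le_div_of_nonneg_left hC.le (by positivity)
    apply mul_le_mul h5 h7 (by positivity)
    linarith
  refine le_trans (sum_le_sum hz) ?_
  rw [sum_const, Nat.card_Icc, nsmul_eq_mul]
  have e2 : ((k + 1 - 1 : ℕ) : ℝ) = k := by simp
  rw [e2]
  have e3 : (k : ℝ) * (C / (((t : ℝ) * k) * (√(t : ℝ) * √(k : ℝ)))) =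
      C / ((t : ℝ) * √(t : ℝ)) / √(k : ℝ) := by
    have : (k : ℝ) ≠ 0 := by linarith
    have : (t : ℝ) ≠ 0 := by linarith
    field_simp
  rw [e3]
  apply div_le_div_of_nonneg_right _ hsk.le
  rw [div_le_div_iff₀ (by positivity) (by positivity)]
  have := pow_cmp ht0
  calc C * (((t : ℝ) + 1) * √((t : ℝ) + 1)) ≤ C * (3 * ((t : ℝ) * √(t : ℝ))) :=
        mul_le_mul_of_nonneg_left this hC.le
    _ = 3 * C * ((t : ℝ) * √(t : ℝ)) := by ring

theorem sum_shift (f : ℕ → ℝ) {y n : ℕ} :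
    ∑ x ∈ Icc y n, f (x - y) = ∑ m ∈ range (n + 1 - y), f m := by
  have h : Icc y n = Ico y (n + 1) := by
    ext a
    simp only [Finset.mem_Icc, Finset.mem_Ico]
    omega
  rw [h, Finset.sum_Ico_eq_sum_range]
  refine sum_congr rfl fun m _ => ?_
  rw [Nat.add_sub_cancel_left]

end M12

open M12

theorem rho {K : ℕ → ℝ} (hK : KerP K) {c C : ℝ} (hR : RenB K c C) :
    ∃ C₃ : ℝ, 0 < C₃ ∧ ∀ ε η : ℝ, 0 < ε → ε < 1 / 4 → 0 < η → η < 1 → ∀ k : ℕ,
      1 / ε ≤ (k : ℝ) → ∀ l : ℕ, 2 ≤ l → ∀ y ∈ Icc 1 k,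
      ∑ x ∈ Icc y (2 * k), (if ε * k ≤ ((x - y : ℕ) : ℝ) then η * uu K (x - y) else
          Real.exp 3 * uu K (x - y)) * ∑ z ∈ Icc 1 k, K (l * k + z - x) ≤
        C₃ * (√ε + η) / (((l : ℝ) - 1) * √((l : ℝ) - 1)) := by
  have hC1 := hR.Cpos
  have hC : 0 < C := by linarith
  have hc := hR.cpos
  refine ⟨C ^ 2 / c + 12 * C ^ 2 + 9 * Real.exp 3 * C ^ 2, by positivity, ?_⟩
  intro ε η hε hε4 hη hη1 k hk l hl y hy
  rw [Finset.mem_Icc] at hy
  obtain ⟨hy1, hyk⟩ := hy
  have hk1 : 1 ≤ k := le_trans hy1 hyk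
  have hk0 : (1 : ℝ) ≤ k := by exact_mod_cast hk1
  have hεk : 1 ≤ ε * k := by
    rw [div_le_iff₀ hε] at hk
    linarith
  have hsk : 0 < √(k : ℝ) := Real.sqrt_pos.2 (by linarith)
  have hkk : √(k : ℝ) * √(k : ℝ) = k := Real.mul_self_sqrt (by linarith)
  have hl0 : (2 : ℝ) ≤ l := by exact_mod_cast hl
  have hsl : 0 < √((l : ℝ) - 1) := Real.sqrt_pos.2 (by linarith)
  obtain ⟨D, hD⟩ : ∃ D, D = 1 / (((l : ℝ) - 1) * √((l : ℝ) - 1)) := ⟨_, rfl⟩
  have hD0 : 0 < D := by
    rw [hD]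
    have : 0 < (l : ℝ) - 1 := by linarith
    positivity
  obtain ⟨I, hI⟩ : ∃ I : ℕ → ℝ, ∀ x, I x = ∑ z ∈ Icc 1 k, K (l * k + z - x) :=
    ⟨_, fun _ => rfl⟩
  have hI0 : ∀ x, 0 ≤ I x := by
    intro x
    rw [hI]
    exact sum_nonneg fun z _ => K_nonneg hK _
  have hu0 := uu_nonneg hR
  have h2kl : 2 * k ≤ l * k := Nat.mul_le_mul_right k hl
  -- bound of I for l at least three
  have hI3 : 3 ≤ l → ∀ x, x ≤ 2 * k → I x ≤ 3 * C * D / √(k : ℝ) := by
    intro hl3 x hx
    rw [hI, hD]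
    have := I_far hR hl3 hk1 hx
    rw [mul_one_div]
    exact this
  -- far bound
  have hA : ∑ x ∈ Icc y (2 * k), uu K (x - y) * I x ≤ (C ^ 2 / c + 12 * C ^ 2) * D := by
    rcases Nat.lt_or_ge l 3 with h3 | h3
    · have hl2 : l = 2 := by omega
      have hD1 : D = 1 := by
        rw [hD, hl2]
        norm_num
      rw [hD1, mul_one]
      have hM : ∀ x ∈ Icc y (2 * k), uu K (x - y) * I x ≤
          (C / c) * (uu K (x - y) * uu K ((2 * k - y) - (x - y))) := by
        intro x hx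
        rw [Finset.mem_Icc] at hx
        have h1 : I x ≤ C / √(((2 * k - x : ℕ) : ℝ) + 1) := by
          rw [hI, hl2]
          exact I_tail hR hx.2
        have h2 : C / √(((2 * k - x : ℕ) : ℝ) + 1) ≤ (C / c) * uu K ((2 * k - y) - (x - y)) := by
          have e : (2 * k - y) - (x - y) = 2 * k - x := by omega
          rw [e]
          have h3 := hR.low (2 * k - x)
          calc C / √(((2 * k - x : ℕ) : ℝ) + 1) = (C / c) * (c / √(((2 * k - x : ℕ) : ℝ) + 1)) := by
                field_simp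
            _ ≤ (C / c) * uu K (2 * k - x) := mul_le_mul_of_nonneg_left h3 (by positivity)
        calc uu K (x - y) * I x ≤ uu K (x - y) * ((C / c) * uu K ((2 * k - y) - (x - y))) :=
              mul_le_mul_of_nonneg_left (le_trans h1 h2) (hu0 _)
          _ = _ := by ring
      refine le_trans (sum_le_sum hM) ?_
      rw [← mul_sum]
      have e := sum_shift (fun m => uu K m * uu K ((2 * k - y) - m)) (y := y) (n := 2 * k)
      rw [e]
      have e2 : 2 * k + 1 - y = (2 * k - y) + 1 := by omega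
      rw [e2]
      have h4 := hR.conv (2 * k - y)
      have h5 : C / c * ∑ m ∈ range (2 * k - y + 1), uu K m * uu K (2 * k - y - m) ≤ C / c * C :=
        mul_le_mul_of_nonneg_left h4 (by positivity)
      have h6 : C / c * C = C ^ 2 / c := by ring
      have h7 : 0 ≤ 12 * C ^ 2 := by positivity
      linarith
    · have hM : ∀ x ∈ Icc y (2 * k), uu K (x - y) * I x ≤
          (3 * C * D / √(k : ℝ)) * uu K (x - y) := by
        intro x hx
        rw [Finset.mem_Icc] at hx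
        rw [mul_comm]
        exact mul_le_mul_of_nonneg_right (hI3 h3 x hx.2) (hu0 _)
      refine le_trans (sum_le_sum hM) ?_
      rw [← mul_sum, sum_shift (fun m => uu K m)]
      have h1 := sum_uu_le hR (2 * k + 1 - y)
      have h2 : √(((2 * k + 1 - y : ℕ) : ℝ)) ≤ 2 * √(k : ℝ) := by
        apply Real.sqrt_le_iff.2
        constructor
        · positivity
        · have h3 : ((2 * k + 1 - y : ℕ) : ℝ) ≤ 2 * k := by
            have : 2 * k + 1 - y ≤ 2 * k := by omega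
            exact_mod_cast this
          nlinarith
      have h3 : ∑ m ∈ range (2 * k + 1 - y), uu K m ≤ 4 * C * √(k : ℝ) := by
        refine le_trans h1 ?_
        nlinarith
      have h4 : (3 * C * D / √(k : ℝ)) * ∑ m ∈ range (2 * k + 1 - y), uu K m ≤
          (3 * C * D / √(k : ℝ)) * (4 * C * √(k : ℝ)) :=
        mul_le_mul_of_nonneg_left h3 (by positivity)
      have h5 : (3 * C * D / √(k : ℝ)) * (4 * C * √(k : ℝ)) = 12 * C ^ 2 * D := by
        field_simp
        ring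
      have h6 : 0 ≤ C ^ 2 / c * D := by positivity
      calc _ ≤ (3 * C * D / √(k : ℝ)) * (4 * C * √(k : ℝ)) := h4
        _ = 12 * C ^ 2 * D := h5
        _ ≤ (C ^ 2 / c + 12 * C ^ 2) * D := by linarith
  -- near bound
  have hB : ∑ x ∈ Icc y (2 * k), (if ((x - y : ℕ) : ℝ) < ε * k then uu K (x - y) * I x else 0) ≤
      9 * C ^ 2 * √ε * D := by
    have hM : ∀ x ∈ Icc y (2 * k),
        (if ((x - y : ℕ) : ℝ) < ε * k then uu K (x - y) * I x else 0) ≤
        (3 * C * D / √(k : ℝ)) * (if ((x - y : ℕ) : ℝ) < ε * k then uu K (x - y) else 0) := by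
      intro x hx
      rw [Finset.mem_Icc] at hx
      split_ifs with h
      · have hIx : I x ≤ 3 * C * D / √(k : ℝ) := by
          rcases Nat.lt_or_ge l 3 with h3 | h3
          · have hl2 : l = 2 := by omega
            have hD1 : D = 1 := by
              rw [hD, hl2]
              norm_num
            have h1 : I x ≤ C / √(((2 * k - x : ℕ) : ℝ) + 1) := by
              rw [hI, hl2]
              exact I_tail hR hx.2
            refine le_trans h1 ?_
            rw [hD1, mul_one]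
            have h2 : √(k : ℝ) / 2 ≤ √(((2 * k - x : ℕ) : ℝ) + 1) := by
              apply Real.le_sqrt_of_sq_le
              have h4 : ((2 * k - x : ℕ) : ℝ) = 2 * k - x := by
                rw [Nat.cast_sub hx.2]
                push_cast
                ring
              have h5 : ((x - y : ℕ) : ℝ) = x - y := by
                rw [Nat.cast_sub hx.1]
              rw [h5] at h
              have h6 : (y : ℝ) ≤ k := by exact_mod_cast hyk
              have h7 : ε * k ≤ 1 / 4 * k := mul_le_mul_of_nonneg_right hε4.le (by linarith)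
              rw [h4]
              nlinarith
            have h3' : C / √(((2 * k - x : ℕ) : ℝ) + 1) ≤ C / (√(k : ℝ) / 2) :=
              div_le_div_of_nonneg_left hC.le (by positivity) h2
            refine le_trans h3' ?_
            have h8 : C / (√(k : ℝ) / 2) = 2 * C / √(k : ℝ) := by
              field_simp
            rw [h8]
            apply div_le_div_of_nonneg_right _ hsk.le
            linarith
          · exact hI3 h3 x hx.2
        rw [mul_comm]
        exact mul_le_mul_of_nonneg_right hIx (hu0 _)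
      · simp
    refine le_trans (sum_le_sum hM) ?_
    rw [← mul_sum]
    have e := sum_shift (fun m => if (m : ℝ) < ε * k then uu K m else 0) (y := y) (n := 2 * k)
    rw [e, ← sum_filter]
    have hsub : (range (2 * k + 1 - y)).filter (fun m : ℕ => (m : ℝ) < ε * k) ⊆
        range ⌈ε * k⌉₊ := by
      intro m hm
      rw [Finset.mem_filter] at hm
      rw [Finset.mem_range]
      exact Nat.lt_ceil.2 hm.2
    have h1 : ∑ m ∈ (range (2 * k + 1 - y)).filter (fun m : ℕ => (m : ℝ) < ε * k), uu K m ≤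
        ∑ m ∈ range ⌈ε * k⌉₊, uu K m :=
      sum_le_sum_of_subset_of_nonneg hsub fun m _ _ => hu0 m
    have h2 := sum_uu_le hR ⌈ε * k⌉₊
    have h3 : ((⌈ε * k⌉₊ : ℕ) : ℝ) ≤ 2 * (ε * k) := by
      have := Nat.ceil_lt_add_one (show (0 : ℝ) ≤ ε * k by positivity)
      linarith
    have hse : √ε * √ε = ε := Real.mul_self_sqrt hε.le
    have hse0 : 0 < √ε := Real.sqrt_pos.2 hε
    have h4 : √((⌈ε * k⌉₊ : ℕ) : ℝ) ≤ 3 / 2 * (√ε * √(k : ℝ)) := by
      apply Real.sqrt_le_iff.2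
      constructor
      · positivity
      · have h5 : (3 / 2 * (√ε * √(k : ℝ))) ^ 2 = 9 / 4 * (ε * k) := by
          calc (3 / 2 * (√ε * √(k : ℝ))) ^ 2 = 9 / 4 * ((√ε * √ε) * (√(k : ℝ) * √(k : ℝ))) := by
                ring
            _ = 9 / 4 * (ε * k) := by rw [hse, hkk]
        rw [h5]
        linarith
    have h5 : ∑ m ∈ range ⌈ε * k⌉₊, uu K m ≤ 3 * C * (√ε * √(k : ℝ)) := by
      refine le_trans h2 ?_
      calc 2 * C * √((⌈ε * k⌉₊ : ℕ) : ℝ) ≤ 2 * C * (3 / 2 * (√ε * √(k : ℝ))) :=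
            mul_le_mul_of_nonneg_left h4 (by positivity)
        _ = 3 * C * (√ε * √(k : ℝ)) := by ring
    have h6 : (3 * C * D / √(k : ℝ)) *
        ∑ m ∈ (range (2 * k + 1 - y)).filter (fun m : ℕ => (m : ℝ) < ε * k), uu K m ≤
        (3 * C * D / √(k : ℝ)) * (3 * C * (√ε * √(k : ℝ))) :=
      mul_le_mul_of_nonneg_left (le_trans h1 h5) (by positivity)
    refine le_trans h6 (le_of_eq ?_)
    field_simp
    ring
  -- splitting
  have hS : ∑ x ∈ Icc y (2 * k), (if ε * k ≤ ((x - y : ℕ) : ℝ) then η * uu K (x - y) else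
          Real.exp 3 * uu K (x - y)) * ∑ z ∈ Icc 1 k, K (l * k + z - x) ≤
      η * ∑ x ∈ Icc y (2 * k), uu K (x - y) * I x + Real.exp 3 *
        ∑ x ∈ Icc y (2 * k), (if ((x - y : ℕ) : ℝ) < ε * k then uu K (x - y) * I x else 0) := by
    rw [mul_sum, mul_sum, ← sum_add_distrib]
    refine sum_le_sum fun x _ => ?_
    rw [← hI x]
    have hp : 0 ≤ uu K (x - y) * I x := mul_nonneg (hu0 _) (hI0 _)
    have he := Real.exp_pos 3
    by_cases h : ε * k ≤ ((x - y : ℕ) : ℝ)
    · rw [if_pos h, if_neg (not_lt.2 h)]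
      linarith
    · rw [if_neg h, if_pos (not_le.1 h)]
      have : 0 ≤ η * (uu K (x - y) * I x) := by positivity
      linarith
  refine le_trans hS ?_
  have hA' := mul_le_mul_of_nonneg_left hA hη.le
  have hB' := mul_le_mul_of_nonneg_left hB (Real.exp_pos 3).le
  refine le_trans (add_le_add hA' hB') ?_
  have hfin : (C ^ 2 / c + 12 * C ^ 2 + 9 * Real.exp 3 * C ^ 2) * (√ε + η) /
      (((l : ℝ) - 1) * √((l : ℝ) - 1)) =
      (C ^ 2 / c + 12 * C ^ 2 + 9 * Real.exp 3 * C ^ 2) * (√ε + η) * D := by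
    rw [hD, mul_one_div]
  rw [hfin]
  have hse0 : 0 < √ε := Real.sqrt_pos.2 hε
  have p1 : 0 ≤ (C ^ 2 / c + 12 * C ^ 2) * √ε * D := by positivity
  have p2 : 0 ≤ 9 * Real.exp 3 * C ^ 2 * η * D := by positivity
  nlinarith

end

end Pool.Agent.OTM
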