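import Mathlib
import Pool.Agent.Lib.MP_daa227_pr_OTM.Defs
import Pool.Agent.Lib.MP_daa227_pr_OTM.Hit

/-!
# Mean number of visited intervals for the pinned renewal of exponent one half
-/

namespace Pool.Agent.OTM

open MeasureTheory ProbabilityTheory Finset Filter
open MP_daa227_pr (shift seqLaw ExpMom DepOn mom)
open Pool.Agent.OT (en lmg)
open Pool.Agent.OTP (Zp KerP wB spB LP)

noncomputable section

namespace M3

open Classical in
/-- the interval number `J` is visited -/
def ind (y l n : ℕ) (s : Fin n → Bool) (J : ℕ) : ℝ :=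
  if ∃ i : Fin n, s i = true ∧ (y + (i : ℕ)) / l = J then 1 else 0

theorem ind_le_one (y l n : ℕ) (s : Fin n → Bool) (J : ℕ) : ind y l n s J ≤ 1 := by
  unfold ind; split_ifs <;> norm_num

theorem ind_nonneg (y l n : ℕ) (s : Fin n → Bool) (J : ℕ) : 0 ≤ ind y l n s J := by
  unfold ind; split_ifs <;> norm_num

/-- the number of visited intervals -/
theorem vis_le (y l n : ℕ) (s : Fin n → Bool) :
    vis l (Tset y n s) ≤ 1 + ∑ J ∈ Icc (y / l) ((y + n - 1) / l), ind y l n s J := by
  classical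
  have h1 : (Tset y n s).image (fun i => i / l) ⊆ insert ((y - 1) / l)
      ((Icc (y / l) ((y + n - 1) / l)).filter
        (fun J => ∃ i : Fin n, s i = true ∧ (y + (i : ℕ)) / l = J)) := by
    intro J hJ
    rw [mem_image] at hJ
    obtain ⟨x, hx, rfl⟩ := hJ
    unfold Tset at hx
    rw [mem_insert] at hx
    rw [mem_insert]
    rcases hx with rfl | hx
    · left; rfl
    · right
      rw [mem_image] at hx
      obtain ⟨i, hi, rfl⟩ := hx
      rw [mem_filter] at hi
      rw [mem_filter, mem_Icc]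
      refine ⟨⟨Nat.div_le_div_right (by omega), Nat.div_le_div_right ?_⟩, i, hi.2, rfl⟩
      have := i.isLt
      omega
  have h2 := card_le_card h1
  have h3 := (h2.trans (card_insert_le _ _))
  have h4 : ((((Icc (y / l) ((y + n - 1) / l)).filter
        (fun J => ∃ i : Fin n, s i = true ∧ (y + (i : ℕ)) / l = J)).card : ℕ) : ℝ) =
      ∑ J ∈ Icc (y / l) ((y + n - 1) / l), ind y l n s J := by
    unfold ind
    rw [sum_boole]
  unfold vis
  rw [← h4]
  have h5 : (((Tset y n s).image (fun i => i / l)).card : ℝ) ≤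
      (((Icc (y / l) ((y + n - 1) / l)).filter
        (fun J => ∃ i : Fin n, s i = true ∧ (y + (i : ℕ)) / l = J)).card + 1 : ℕ) := by
    exact_mod_cast h3
  push_cast at h5
  linarith

/-- each site is covered at most twice -/
theorem cover (F : ℕ → ℝ) (hF : ∀ z, 0 ≤ F z) (I : Finset ℕ) (y l n : ℕ) (hl : 1 ≤ l)
    (hI : ∀ J ∈ I, y ≤ J * l ∧ J * l - y + 1 + 2 * l ≤ n + 1) :
    ∑ J ∈ I, ∑ z ∈ Ico (J * l - y + 1) (J * l - y + 1 + 2 * l), F z ≤
      2 * ∑ z ∈ range (n + 1), F z := by
  classical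
  have h1 : ∀ J ∈ I, ∑ z ∈ Ico (J * l - y + 1) (J * l - y + 1 + 2 * l), F z =
      ∑ z ∈ range (n + 1), if J * l - y + 1 ≤ z ∧ z < J * l - y + 1 + 2 * l then F z else 0 := by
    intro J hJ
    rw [← sum_filter]
    apply sum_congr _ (fun _ _ => rfl)
    ext z
    have := (hI J hJ).2
    simp only [mem_Ico, mem_filter, mem_range]
    omega
  rw [sum_congr rfl h1, sum_comm, mul_sum]
  apply sum_le_sum
  intro z _
  rw [← sum_filter, sum_const, nsmul_eq_mul]
  apply mul_le_mul_of_nonneg_right _ (hF z)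
  have h2 : (I.filter (fun J => J * l - y + 1 ≤ z ∧ z < J * l - y + 1 + 2 * l)) ⊆
      {(z + y - 1) / l - 1, (z + y - 1) / l} := by
    intro J hJ
    rw [mem_filter] at hJ
    obtain ⟨hJI, ha, hb⟩ := hJ
    have hy := (hI J hJI).1
    rw [mem_insert, mem_singleton]
    have h3 : J * l ≤ z + y - 1 := by omega
    have h4 : z + y - 1 < (J + 2) * l := by
      have : (J + 2) * l = J * l + 2 * l := by ring
      omega
    have h5 : J ≤ (z + y - 1) / l := (Nat.le_div_iff_mul_le (by omega)).mpr h3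
    have h6 : (z + y - 1) / l < J + 2 := (Nat.div_lt_iff_lt_mul (by omega)).mpr h4
    omega
  have h7 := (card_le_card h2).trans card_le_two
  exact_mod_cast h7

end M3

theorem visits {K : ℕ → ℝ} (hK : KerP K) {c C : ℝ} (hR : RenB K c C) :
    ∃ C' : ℝ, 0 < C' ∧ ∀ n y l : ℕ, 1 ≤ y → 1 ≤ l → l ≤ n →
      ∑ s : Fin n → Bool, wB K n 0 s * vis l (Tset y n s) ≤ C' / √(l : ℝ) := by
  classical
  obtain ⟨C₁, hC₁, hhit⟩ := hit hK hR
  have hCpos : 0 < C := lt_of_lt_of_le one_pos hR.Cpos
  refine ⟨4 * C + C₁ * (2 * C), by positivity, fun n y l hy hl hln => ?_⟩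
  have hl0 : (0 : ℝ) < l := by exact_mod_cast hl
  have hs : 0 < √(l : ℝ) := Real.sqrt_pos.mpr hl0
  have hw : ∀ s : Fin n → Bool, 0 ≤ wB K n 0 s := OTP.ZE.wB_nonneg hK n 0
  have hu : uu K n ≤ C / √(l : ℝ) := by
    refine (hR.up n).trans ?_
    refine div_le_div_of_nonneg_left hCpos.le hs (Real.sqrt_le_sqrt ?_)
    have : (l : ℝ) ≤ n := by exact_mod_cast hln
    linarith
  -- the bound for one interval
  have hone : ∀ J : ℕ, ∑ s : Fin n → Bool, wB K n 0 s * M3.ind y l n s J ≤ uu K n := by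
    intro J
    rw [← Hit.sum_wB K n]
    apply sum_le_sum
    intro s _
    have := mul_le_mul_of_nonneg_left (M3.ind_le_one y l n s J) (hw s)
    linarith
  have hnn : ∀ J : ℕ, 0 ≤ ∑ s : Fin n → Bool, wB K n 0 s * M3.ind y l n s J := by
    intro J
    exact sum_nonneg (fun s _ => mul_nonneg (hw s) (M3.ind_nonneg y l n s J))
  set J0 := y / l with hJ0
  set J1 := (y + n - 1) / l with hJ1
  set I : Finset ℕ := Ioo J0 (J1 - 1) with hI
  have hIprop : ∀ J ∈ I, y ≤ J * l ∧ J * l - y + 1 + 2 * l ≤ n + 1 := by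
    intro J hJ
    rw [hI, mem_Ioo] at hJ
    have h1 : y < J * l := by
      have : y / l < J := hJ.1
      exact (Nat.div_lt_iff_lt_mul (by omega)).mp this
    have h2 : (J + 2) * l ≤ y + n - 1 := by
      have h3 : J + 2 ≤ (y + n - 1) / l := by omega
      exact (Nat.le_div_iff_mul_le (by omega)).mp h3
    have h4 : (J + 2) * l = J * l + 2 * l := by ring
    omega
  have hint : ∀ J ∈ I, ∑ s : Fin n → Bool, wB K n 0 s * M3.ind y l n s J ≤
      C₁ / √(l : ℝ) * ∑ z ∈ Ico (J * l - y + 1) (J * l - y + 1 + 2 * l),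
        uu K z * uu K (n - z) := by
    intro J hJ
    obtain ⟨h1, h2⟩ := hIprop J hJ
    refine le_trans ?_ (hhit n (J * l - y + 1) l (by omega) hl h2)
    apply sum_le_sum
    intro s _
    apply mul_le_mul_of_nonneg_left _ (hw s)
    unfold M3.ind
    split_ifs with h3 h4 h4
    · exact le_rfl
    · exfalso
      apply h4
      obtain ⟨i, hi, hi2⟩ := h3
      refine ⟨i, hi, ?_⟩
      have h5 : J * l ≤ y + i := by
        rw [← hi2]; exact Nat.div_mul_le_self _ _
      have h6 : y + i < (J + 1) * l := by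
        rw [← hi2, add_mul, one_mul]
        exact Nat.lt_div_mul_add (by omega)
      have h7 : (J + 1) * l = J * l + l := by ring
      omega
    · exact zero_le_one
    · exact le_rfl
  have hsub : Icc J0 J1 ⊆ I ∪ {J0, J1 - 1, J1} := by
    intro J hJ
    rw [mem_Icc] at hJ
    rw [hI, mem_union, mem_Ioo, mem_insert, mem_insert, mem_singleton]
    omega
  set G : ℕ → ℝ := fun J => ∑ s : Fin n → Bool, wB K n 0 s * M3.ind y l n s J with hG
  have htot : ∑ J ∈ Icc J0 J1, G J ≤ C₁ / √(l : ℝ) * (2 * C) + 3 * uu K n := by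
    calc ∑ J ∈ Icc J0 J1, G J ≤ ∑ J ∈ I ∪ {J0, J1 - 1, J1}, G J :=
          sum_le_sum_of_subset_of_nonneg hsub (fun J _ _ => hnn J)
      _ ≤ ∑ J ∈ I, G J + ∑ J ∈ ({J0, J1 - 1, J1} : Finset ℕ), G J := by
          rw [← sum_union_inter]
          have : 0 ≤ ∑ J ∈ I ∩ {J0, J1 - 1, J1}, G J := sum_nonneg (fun J _ => hnn J)
          linarith
      _ ≤ C₁ / √(l : ℝ) * (2 * C) + 3 * uu K n := by
          apply add_le_add
          · calc ∑ J ∈ I, G J ≤ ∑ J ∈ I, C₁ / √(l : ℝ) *
                  ∑ z ∈ Ico (J * l - y + 1) (J * l - y + 1 + 2 * l), uu K z * uu K (n - z) :=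
                  sum_le_sum hint
              _ = C₁ / √(l : ℝ) * ∑ J ∈ I,
                  ∑ z ∈ Ico (J * l - y + 1) (J * l - y + 1 + 2 * l), uu K z * uu K (n - z) := by
                  rw [mul_sum]
              _ ≤ C₁ / √(l : ℝ) * (2 * ∑ z ∈ range (n + 1), uu K z * uu K (n - z)) := by
                  apply mul_le_mul_of_nonneg_left _ (by positivity)
                  exact M3.cover (fun z => uu K z * uu K (n - z))
                    (fun z => mul_nonneg (Hit.uu_pos hK z).le (Hit.uu_pos hK _).le) I y l n hl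
                    hIprop
              _ ≤ C₁ / √(l : ℝ) * (2 * C) := by
                  apply mul_le_mul_of_nonneg_left _ (by positivity)
                  have := hR.conv n
                  linarith
          · have h1 : ∑ J ∈ ({J0, J1 - 1, J1} : Finset ℕ), G J ≤
                ∑ J ∈ ({J0, J1 - 1, J1} : Finset ℕ), uu K n := sum_le_sum (fun J _ => hone J)
            rw [sum_const, nsmul_eq_mul] at h1
            have h2 : (({J0, J1 - 1, J1} : Finset ℕ).card : ℝ) ≤ 3 := by
              exact_mod_cast card_le_three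
            have h3 := mul_le_mul_of_nonneg_right h2 (Hit.uu_pos hK n).le
            linarith
  calc ∑ s : Fin n → Bool, wB K n 0 s * vis l (Tset y n s)
      ≤ ∑ s : Fin n → Bool, wB K n 0 s * (1 + ∑ J ∈ Icc J0 J1, M3.ind y l n s J) := by
        apply sum_le_sum
        intro s _
        exact mul_le_mul_of_nonneg_left (M3.vis_le y l n s) (hw s)
    _ = uu K n + ∑ J ∈ Icc J0 J1, G J := by
        have h1 : ∀ s : Fin n → Bool, wB K n 0 s * (1 + ∑ J ∈ Icc J0 J1, M3.ind y l n s J) =
            wB K n 0 s + ∑ J ∈ Icc J0 J1, wB K n 0 s * M3.ind y l n s J := by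
          intro s; rw [mul_add, mul_one, mul_sum]
        rw [sum_congr rfl (fun s _ => h1 s), sum_add_distrib, Hit.sum_wB, sum_comm]
    _ ≤ uu K n + (C₁ / √(l : ℝ) * (2 * C) + 3 * uu K n) := by linarith
    _ ≤ C / √(l : ℝ) + (C₁ / √(l : ℝ) * (2 * C) + 3 * (C / √(l : ℝ))) := by linarith
    _ = (4 * C + C₁ * (2 * C)) / √(l : ℝ) := by ring

end

end Pool.Agent.OTM
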