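import Mathlib
import Pool.Agent.Lib.MP_daa227_pr_OTM.Defs
import Pool.Agent.Lib.MP_daa227_pr_OTP.ZEP
import Pool.Agent.Lib.MP_daa227_pr_OTP.Ann
import Pool.Agent.Lib.MP_daa227_pr_OT.Strict
import Pool.Agent.Lib.MP_daa227_pr_OTM.Vis
import Pool.Agent.Lib.MP_daa227_pr_OTM.Bad
import Pool.Agent.Lib.MP_daa227_pr_OTM.Energy
import Pool.Agent.Lib.MP_daa227_pr_OTM.Gg

/-!
# Window estimate at the marginal exponent
-/

namespace Pool.Agent.OTM

open MeasureTheory ProbabilityTheory Finset Filter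
open MP_daa227_pr (shift seqLaw ExpMom DepOn mom)
open Pool.Agent.OT (en lmg ZE tr)
open Pool.Agent.OTP (Zp KerP wB spB LP)

noncomputable section

namespace M9

/-! ### Configurations and sets of charges -/

theorem sum_Tset {y n : ℕ} (hy : 1 ≤ y) (s : Fin n → Bool) (θ : ℕ → ℝ) :
    ∑ i ∈ Tset y n s, θ i = θ (y - 1) + ∑ i : Fin n, shift y θ i * spB n s i := by
  unfold Tset
  rw [sum_insert]
  · congr 1
    rw [sum_image]
    · rw [sum_filter]
      refine sum_congr rfl fun i _ => ?_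
      unfold spB
      rw [MP_daa227_pr.shift_apply, add_comm]
      split_ifs <;> simp
    · intro i _ j _ hij
      apply Fin.ext
      simpa using hij
  · intro h
    rw [mem_image] at h
    obtain ⟨i, _, hi⟩ := h
    omega

theorem Tset_sub {y n : ℕ} (hy : 1 ≤ y) (s : Fin n → Bool) : Tset y n s ⊆ Ico (y - 1) (y + n) := by
  intro i hi
  unfold Tset at hi
  rw [mem_insert, mem_image] at hi
  rw [mem_Ico]
  rcases hi with rfl | ⟨j, _, rfl⟩
  · omega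
  · have := j.2
    omega

theorem Tset_card {y n : ℕ} (hy : 1 ≤ y) (s : Fin n → Bool) : (Tset y n s).card ≤ n + 1 := by
  refine (card_le_card (Tset_sub hy s)).trans ?_
  rw [Nat.card_Ico]
  omega

theorem Tset_ne (y n : ℕ) (s : Fin n → Bool) : (Tset y n s).Nonempty := by
  unfold Tset
  exact insert_nonempty _ _

theorem bridge (K : ℕ → ℝ) {y n : ℕ} (hy : 1 ≤ y) (θ : ℕ → ℝ) :
    Real.exp (θ (y - 1)) * Zp K n (shift y θ) =
      ∑ s : Fin n → Bool, wB K n 0 s * Real.exp (∑ i ∈ Tset y n s, θ i) := by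
  rw [← OTP.ZE_eq_Zp, ZE, mul_sum]
  refine sum_congr rfl fun s _ => ?_
  rw [sum_Tset hy, Real.exp_add]
  unfold tr
  ring

theorem sum_wB (K : ℕ → ℝ) (n : ℕ) : ∑ s : Fin n → Bool, wB K n 0 s = uu K n := by
  unfold uu
  rw [← OTP.ZE_eq_Zp, ZE]
  refine sum_congr rfl fun s _ => ?_
  unfold tr
  simp

/-! ### Product densities -/

theorem lint_prod (μ : Measure ℝ) [IsProbabilityMeasure μ] (M : ℕ) : ∀ (d : ℕ → ℝ → ℝ),
    (∀ i, Measurable (d i)) → (∀ i x, 0 ≤ d i x) → (∀ i, ∫⁻ x, ENNReal.ofReal (d i x) ∂μ = 1) →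
    ∫⁻ ω, ENNReal.ofReal (∏ i ∈ range M, d i (ω i)) ∂seqLaw μ = 1 := by
  induction M with
  | zero => intro d _ _ _; simp
  | succ M ih =>
    intro d hd h0 h1
    have hm : Measurable fun ω : ℕ → ℝ => ENNReal.ofReal (∏ i ∈ range (M + 1), d i (ω i)) :=
      (Finset.measurable_prod _ fun i _ => (hd i).comp (measurable_pi_apply i)).ennreal_ofReal
    rw [MP_daa227_pr.lintegral_cons μ hm]
    have h2 : ∀ x : ℝ, ∫⁻ ω : ℕ → ℝ, ENNReal.ofReal (∏ i ∈ range (M + 1),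
        d i (MP_daa227_pr.cons x ω i)) ∂seqLaw μ = ENNReal.ofReal (d 0 x) := by
      intro x
      have h3 : ∀ ω : ℕ → ℝ, ENNReal.ofReal (∏ i ∈ range (M + 1), d i (MP_daa227_pr.cons x ω i)) =
          ENNReal.ofReal (d 0 x) * ENNReal.ofReal (∏ i ∈ range M, d (i + 1) (ω i)) := by
        intro ω
        rw [prod_range_succ', ← ENNReal.ofReal_mul (h0 0 x), mul_comm]
        rfl
      simp_rw [h3]
      have hm2 : Measurable fun ω : ℕ → ℝ => ENNReal.ofReal (∏ i ∈ range M, d (i + 1) (ω i)) :=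
        (Finset.measurable_prod _ fun i _ =>
          (hd (i + 1)).comp (measurable_pi_apply i)).ennreal_ofReal
      rw [lintegral_const_mul _ hm2,
        ih (fun i => d (i + 1)) (fun i => hd _) (fun i => h0 _) (fun i => h1 _), mul_one]
    simp_rw [h2]
    exact h1 0

theorem lint_T {μ : Measure ℝ} [IsProbabilityMeasure μ] (hμ : ExpMom μ) (β : ℝ) (T : Finset ℕ) :
    ∫⁻ ω : ℕ → ℝ, ENNReal.ofReal (Real.exp (∑ i ∈ T, (β * ω i - lmg μ β))) ∂seqLaw μ = 1 := by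
  obtain ⟨M, hM⟩ : ∃ M : ℕ, T ⊆ range M := by
    obtain ⟨M, hM⟩ := T.exists_nat_subset_range
    exact ⟨M, hM⟩
  have h1 := lint_prod μ M (fun i x => if i ∈ T then Real.exp (β * x - lmg μ β) else 1)
    (fun i => by split_ifs <;> fun_prop) (fun i x => by split_ifs <;> positivity)
    (fun i => by
      split_ifs
      · have hi : Integrable (fun x => Real.exp (β * x - lmg μ β)) μ := by
          simp_rw [Real.exp_sub]
          exact (hμ β).div_const _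
        rw [← ofReal_integral_eq_lintegral_ofReal hi (ae_of_all _ fun _ => (Real.exp_pos _).le)]
        have : ∫ x, Real.exp (β * x - lmg μ β) ∂μ = 1 := by
          simp_rw [Real.exp_sub]
          rw [integral_div, OT.X1.exp_lmg hμ, div_self]
          exact (integral_exp_pos (hμ β)).ne'
        rw [this, ENNReal.ofReal_one]
      · simp)
  rw [← h1]
  refine lintegral_congr fun ω => ?_
  congr 1
  rw [Real.exp_sum, prod_ite, prod_const_one, mul_one]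
  refine prod_congr ?_ fun i _ => rfl
  ext i
  rw [mem_filter]
  exact ⟨fun h => ⟨hM h, h⟩, fun h => h.2⟩

/-! ### The sum over configurations -/

theorem gg_meas (L : ℕ) (x₀ η₀ : ℝ) : Measurable (gg L x₀ η₀) := by
  classical
  unfold gg
  have hX : Measurable (XX L) := by
    unfold XX
    fun_prop
  exact Measurable.ite (measurableSet_le hX measurable_const) measurable_const measurable_const

theorem gg_nonneg {L : ℕ} {x₀ η₀ : ℝ} (h0 : 0 ≤ η₀) (ω : ℕ → ℝ) : 0 ≤ gg L x₀ η₀ ω := by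
  unfold gg
  split_ifs
  · exact zero_le_one
  · exact h0

theorem gg_pos {L : ℕ} {x₀ η₀ : ℝ} (h0 : 0 < η₀) (ω : ℕ → ℝ) : 0 < gg L x₀ η₀ ω := by
  unfold gg
  split_ifs
  · exact zero_lt_one
  · exact h0

theorem gg_le {L : ℕ} {x₀ η₀ : ℝ} (h1 : η₀ ≤ 1) (ω : ℕ → ℝ) : gg L x₀ η₀ ω ≤ 1 := by
  unfold gg
  split_ifs
  · exact le_rfl
  · exact h1

theorem main_sum {K : ℕ → ℝ} (hK : KerP K) {μ : Measure ℝ} [IsProbabilityMeasure μ]
    (β x₀ : ℝ) {η₀ : ℝ} (h0 : 0 ≤ η₀) {L : ℕ} (hL : 1 ≤ L) {x y : ℕ}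
    (hy : 1 ≤ y) (hx : y ≤ x) (hx2 : x ≤ 2 ^ L) :
    ∫⁻ ω, ENNReal.ofReal (gg L x₀ η₀ ω * (Real.exp (en β (lmg μ β - 1 / 2 ^ (L - 1)) ω (y - 1)) *
      Zp K (x - y) (shift y (en β (lmg μ β - 1 / 2 ^ (L - 1)) ω)))) ∂seqLaw μ ≤
    ENNReal.ofReal (Real.exp 2) * ∑ s : Fin (x - y) → Bool, ENNReal.ofReal (wB K (x - y) 0 s) *
      ∫⁻ ω, ENNReal.ofReal (gg L x₀ η₀ ω * Real.exp (∑ i ∈ Tset y (x - y) s,
        (β * ω i - lmg μ β))) ∂seqLaw μ := by
  have hm : ∀ T : Finset ℕ, Measurable fun ω : ℕ → ℝ => ENNReal.ofReal (gg L x₀ η₀ ω *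
      Real.exp (∑ i ∈ T, (β * ω i - lmg μ β))) := by
    intro T
    have := gg_meas L x₀ η₀
    fun_prop
  set κ : ℝ := 1 / 2 ^ (L - 1) with hκ
  have hκ0 : 0 ≤ κ := by positivity
  have hpt : ∀ ω : ℕ → ℝ, gg L x₀ η₀ ω * (Real.exp (en β (lmg μ β - κ) ω (y - 1)) *
      Zp K (x - y) (shift y (en β (lmg μ β - κ) ω))) ≤
      ∑ s : Fin (x - y) → Bool, Real.exp 2 * (wB K (x - y) 0 s *
        (gg L x₀ η₀ ω * Real.exp (∑ i ∈ Tset y (x - y) s, (β * ω i - lmg μ β)))) := by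
    intro ω
    rw [bridge K hy, mul_sum]
    refine sum_le_sum fun s _ => ?_
    have hw := OTP.ZE.wB_nonneg hK (x - y) 0 s
    have hg := gg_nonneg (L := L) (x₀ := x₀) h0 ω
    have e1 : ∑ i ∈ Tset y (x - y) s, en β (lmg μ β - κ) ω i =
        (Tset y (x - y) s).card * κ + ∑ i ∈ Tset y (x - y) s, (β * ω i - lmg μ β) := by
      rw [← nsmul_eq_mul, ← sum_const, ← sum_add_distrib]
      refine sum_congr rfl fun i _ => ?_
      unfold en
      ring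
    have hc : ((Tset y (x - y) s).card : ℝ) * κ ≤ 2 := by
      have h2 : (Tset y (x - y) s).card ≤ 2 ^ L := (Tset_card hy s).trans (by omega)
      have h3 : ((Tset y (x - y) s).card : ℝ) ≤ 2 ^ L := by exact_mod_cast h2
      have h4 : (2 : ℝ) ^ L = 2 * 2 ^ (L - 1) := by
        rw [← pow_succ']
        congr 1
        omega
      rw [hκ, mul_one_div, div_le_iff₀ (by positivity), ← h4]
      exact h3
    rw [e1, Real.exp_add]
    have h5 : Real.exp (((Tset y (x - y) s).card : ℝ) * κ) ≤ Real.exp 2 := Real.exp_le_exp.2 hc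
    calc gg L x₀ η₀ ω * (wB K (x - y) 0 s * (Real.exp (((Tset y (x - y) s).card : ℝ) * κ) *
          Real.exp (∑ i ∈ Tset y (x - y) s, (β * ω i - lmg μ β))))
        = Real.exp (((Tset y (x - y) s).card : ℝ) * κ) * (wB K (x - y) 0 s *
          (gg L x₀ η₀ ω * Real.exp (∑ i ∈ Tset y (x - y) s, (β * ω i - lmg μ β)))) := by ring
      _ ≤ _ := mul_le_mul_of_nonneg_right h5 (by positivity)
  refine (lintegral_mono fun ω => ENNReal.ofReal_le_ofReal (hpt ω)).trans ?_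
  have e2 : ∀ ω : ℕ → ℝ, ENNReal.ofReal (∑ s : Fin (x - y) → Bool, Real.exp 2 *
      (wB K (x - y) 0 s * (gg L x₀ η₀ ω *
        Real.exp (∑ i ∈ Tset y (x - y) s, (β * ω i - lmg μ β))))) =
      ∑ s : Fin (x - y) → Bool, (ENNReal.ofReal (Real.exp 2) * ENNReal.ofReal (wB K (x - y) 0 s)) *
        ENNReal.ofReal (gg L x₀ η₀ ω *
          Real.exp (∑ i ∈ Tset y (x - y) s, (β * ω i - lmg μ β))) := by
    intro ω
    have hg := gg_nonneg (L := L) (x₀ := x₀) h0 ω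
    rw [ENNReal.ofReal_sum_of_nonneg]
    · refine sum_congr rfl fun s _ => ?_
      rw [ENNReal.ofReal_mul (Real.exp_pos _).le,
        ENNReal.ofReal_mul (OTP.ZE.wB_nonneg hK (x - y) 0 s), mul_assoc]
    · intro s _
      have hw := OTP.ZE.wB_nonneg hK (x - y) 0 s
      positivity
  simp_rw [e2]
  rw [lintegral_finsetSum _ fun s _ => (hm _).const_mul _, mul_sum]
  refine sum_le_sum fun s _ => ?_
  rw [lintegral_const_mul _ (hm _), mul_assoc]

theorem gg_T_le {μ : Measure ℝ} [IsProbabilityMeasure μ] (hμ : ExpMom μ) (β x₀ : ℝ) {η₀ : ℝ}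
    (h1 : η₀ ≤ 1) (L : ℕ) (T : Finset ℕ) :
    ∫⁻ ω, ENNReal.ofReal (gg L x₀ η₀ ω * Real.exp (∑ i ∈ T, (β * ω i - lmg μ β))) ∂seqLaw μ ≤ 1 := by
  rw [← lint_T hμ β T]
  refine lintegral_mono fun ω => ENNReal.ofReal_le_ofReal ?_
  exact mul_le_of_le_one_left (Real.exp_pos _).le (gg_le h1 ω)

end M9

theorem window_any {K : ℕ → ℝ} (hK : KerP K) {μ : Measure ℝ} [IsProbabilityMeasure μ]
    (hμ : ExpMom μ) (β x₀ : ℝ) {η₀ : ℝ} (h0 : 0 < η₀) (h1 : η₀ < 1) {L : ℕ} (hL : 1 ≤ L) {x y : ℕ}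
    (hy : 1 ≤ y) (hy2 : y ≤ 2 ^ (L - 1)) (hx : y ≤ x) (hx2 : x ≤ 2 ^ L) :
    ∫⁻ ω, ENNReal.ofReal (gg L x₀ η₀ ω * (Real.exp (en β (lmg μ β - 1 / 2 ^ (L - 1)) ω (y - 1)) *
      Zp K (x - y) (shift y (en β (lmg μ β - 1 / 2 ^ (L - 1)) ω)))) ∂seqLaw μ ≤
    ENNReal.ofReal (Real.exp 3 * uu K (x - y)) := by
  refine (M9.main_sum hK β x₀ h0.le hL hy hx hx2).trans ?_
  have h2 : ∑ s : Fin (x - y) → Bool, ENNReal.ofReal (wB K (x - y) 0 s) *
      ∫⁻ ω, ENNReal.ofReal (gg L x₀ η₀ ω * Real.exp (∑ i ∈ Tset y (x - y) s,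
        (β * ω i - lmg μ β))) ∂seqLaw μ ≤ ENNReal.ofReal (uu K (x - y)) := by
    calc _ ≤ ∑ s : Fin (x - y) → Bool, ENNReal.ofReal (wB K (x - y) 0 s) * 1 :=
          sum_le_sum fun s _ => mul_le_mul' le_rfl (M9.gg_T_le hμ β x₀ h1.le L _)
      _ = ENNReal.ofReal (uu K (x - y)) := by
          simp_rw [mul_one]
          rw [← ENNReal.ofReal_sum_of_nonneg fun s _ => OTP.ZE.wB_nonneg hK _ _ s, M9.sum_wB]
  refine (mul_le_mul' le_rfl h2).trans ?_
  rw [← ENNReal.ofReal_mul (Real.exp_pos _).le]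
  refine ENNReal.ofReal_le_ofReal (mul_le_mul_of_nonneg_right
    (Real.exp_le_exp.2 (by norm_num)) ?_)
  exact (OTP.Zp_pos hK _ _).le

namespace M9

/-- the energy of good sets is large -/
theorem energy_large {ε a A Y₀ : ℝ} (hε : 0 < ε) (hε1 : ε < 1) (ha : 0 < a) (hA : 0 < A)
    (hY : 0 ≤ Y₀) :
    ∃ L₀ : ℕ, 1 ≤ L₀ ∧ ∀ L : ℕ, L₀ ≤ L → ∀ n : ℕ, ε * 2 ^ (L - 1) ≤ (n : ℝ) → n ≤ 2 ^ L →
      ∃ S : ℕ, 1 ≤ S ∧ 2 ^ S ≤ n ∧ ∀ T : Finset ℕ, T.Nonempty → GoodT a A n S T → Y₀ ≤ YY L T := by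
  obtain ⟨j, hj⟩ := exists_pow_lt_of_lt_one hε (by norm_num : (1 / 2 : ℝ) < 1)
  set R : ℝ := 2 * Y₀ / √(ε / 2) with hR
  have hsε : 0 < √(ε / 2) := Real.sqrt_pos.2 (by positivity)
  have hR0 : 0 ≤ R := by positivity
  obtain ⟨L₁, hL₁⟩ := exists_nat_ge (((R + 3 * A) * (2 * A) / a ^ 2) ^ 2)
  refine ⟨max L₁ (2 * (j + 1) + 2), by omega, fun L hL n hn hn2 => ?_⟩
  have hL1 : L₁ ≤ L := (le_max_left _ _).trans hL
  have hL2 : 2 * (j + 1) + 2 ≤ L := (le_max_right _ _).trans hL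
  have hn0 : 0 < (n : ℝ) := lt_of_lt_of_le (by positivity) hn
  have hn1 : n ≠ 0 := by
    rintro rfl
    simp at hn0
  set S := Nat.log 2 n with hS
  have hS1 : 2 ^ S ≤ n := Nat.pow_log_le_self 2 hn1
  have hS2 : n < 2 ^ (S + 1) := Nat.lt_pow_succ_log_self (by norm_num) n
  have hSL : S ≤ L := by
    rw [hS]
    calc Nat.log 2 n ≤ Nat.log 2 (2 ^ L) := Nat.log_mono_right hn2
      _ = L := Nat.log_pow (by norm_num) L
  have hLS : L - 1 < S + 1 + j := by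
    by_contra hc
    push Not at hc
    have h2 : (2 : ℝ) ^ (S + 1 + j) ≤ 2 ^ (L - 1) := pow_le_pow_right₀ (by norm_num) hc
    have h3 : (n : ℝ) < 2 ^ (S + 1) := by exact_mod_cast hS2
    have h4 : (2 : ℝ) ^ (S + 1) ≤ ε * 2 ^ (L - 1) := by
      calc (2 : ℝ) ^ (S + 1) = (1 / 2) ^ j * 2 ^ (S + 1 + j) := by
            rw [pow_add _ (S + 1) j, one_div, inv_pow]
            field_simp
        _ ≤ ε * 2 ^ (L - 1) := mul_le_mul hj.le h2 (by positivity) hε.le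
    linarith
  have hS0 : 1 ≤ S := by omega
  have hLS2 : (L : ℝ) / 2 ≤ S := by
    have : L ≤ 2 * S := by omega
    have h2 : (L : ℝ) ≤ 2 * S := by exact_mod_cast this
    linarith
  refine ⟨S, hS0, hS1, fun T hT hG => ?_⟩
  obtain ⟨g1, g2, g3⟩ := hG
  refine le_trans ?_ (energy hS0 hSL T hT)
  have hLpos : (1 : ℝ) ≤ L := by exact_mod_cast (by omega : 1 ≤ L)
  have hSpos : (1 : ℝ) ≤ S := by exact_mod_cast hS0
  have hsn : 0 < √(n : ℝ) := Real.sqrt_pos.2 hn0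
  have hsL : 1 ≤ √(L : ℝ) := by
    rw [show (1 : ℝ) = √1 by simp]
    exact Real.sqrt_le_sqrt hLpos
  have h2L : 0 < √((2 : ℝ) ^ L) := Real.sqrt_pos.2 (by positivity)
  -- the denominator
  set W : ℝ := ∑ t ∈ Icc 1 S, √((2 : ℝ) ^ t) * vis (2 ^ t) T with hW
  have hWpos : 0 < W := by
    rw [hW]
    refine sum_pos (fun t _ => mul_pos (Real.sqrt_pos.2 (by positivity)) ?_) ⟨1, by simp [hS0]⟩
    unfold vis
    have := card_pos.2 (hT.image fun i => i / 2 ^ t)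
    exact_mod_cast this
  have hcard : 0 ≤ (T.card : ℝ) := Nat.cast_nonneg _
  have h5 : a ^ 2 * S * √(n : ℝ) / A ≤ (T.card : ℝ) ^ 2 * (S : ℝ) ^ 2 / W := by
    have h6 : (a * √(n : ℝ)) ^ 2 ≤ (T.card : ℝ) ^ 2 := pow_le_pow_left₀ (by positivity) g1 2
    have h7 : (T.card : ℝ) ^ 2 * (S : ℝ) ^ 2 / (A * S * √(n : ℝ)) ≤
        (T.card : ℝ) ^ 2 * (S : ℝ) ^ 2 / W :=
      div_le_div_of_nonneg_left (by positivity) hWpos g3
    refine le_trans ?_ h7
    have h8 : (a * √(n : ℝ)) ^ 2 * (S : ℝ) ^ 2 / (A * S * √(n : ℝ)) ≤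
        (T.card : ℝ) ^ 2 * (S : ℝ) ^ 2 / (A * S * √(n : ℝ)) := by
      gcongr
    refine le_trans (le_of_eq ?_) h8
    field_simp
  have h9 : √(n : ℝ) * (a ^ 2 * S / A - 3 * A) ≤
      (T.card : ℝ) ^ 2 * (S : ℝ) ^ 2 / W - 3 * T.card := by
    have : √(n : ℝ) * (a ^ 2 * S / A - 3 * A) = a ^ 2 * S * √(n : ℝ) / A - 3 * (A * √(n : ℝ)) := by
      ring
    rw [this]
    linarith
  -- the bracket
  have h10 : √(L : ℝ) * R ≤ a ^ 2 * S / A - 3 * A := by
    have h11 : (R + 3 * A) * (2 * A) / a ^ 2 ≤ √(L : ℝ) := by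
      apply Real.le_sqrt_of_sq_le
      exact hL₁.trans (by exact_mod_cast hL1)
    rw [div_le_iff₀ (by positivity)] at h11
    have h12 : R + 3 * A ≤ a ^ 2 * √(L : ℝ) / (2 * A) := by
      rw [le_div_iff₀ (by positivity)]
      linarith
    have h13 : √(L : ℝ) * (R + 3 * A) ≤ a ^ 2 * L / (2 * A) := by
      calc √(L : ℝ) * (R + 3 * A) ≤ √(L : ℝ) * (a ^ 2 * √(L : ℝ) / (2 * A)) :=
            mul_le_mul_of_nonneg_left h12 (by positivity)
        _ = a ^ 2 * (√(L : ℝ) * √(L : ℝ)) / (2 * A) := by ring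
        _ = _ := by rw [Real.mul_self_sqrt (by linarith)]
    have h14 : a ^ 2 * L / (2 * A) ≤ a ^ 2 * S / A := by
      rw [div_le_div_iff₀ (by positivity) hA]
      nlinarith [mul_pos (sq_pos_of_pos ha) hA]
    have h15 : 3 * A ≤ √(L : ℝ) * (3 * A) := le_mul_of_one_le_left (by positivity) hsL
    nlinarith
  have h16 : √(ε / 2) * √((2 : ℝ) ^ L) ≤ √(n : ℝ) := by
    rw [← Real.sqrt_mul (by positivity)]
    apply Real.sqrt_le_sqrt
    have h4 : (2 : ℝ) ^ L = 2 * 2 ^ (L - 1) := by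
      rw [← pow_succ']
      congr 1
      omega
    rw [h4]
    linarith
  have h17 : √(ε / 2) * √((2 : ℝ) ^ L) * (√(L : ℝ) * R) ≤
      (T.card : ℝ) ^ 2 * (S : ℝ) ^ 2 / W - 3 * T.card := by
    refine le_trans ?_ h9
    exact mul_le_mul h16 h10 (by positivity) hsn.le
  rw [Real.sqrt_mul (by positivity)]
  calc Y₀ = 1 / (2 * (√((2 : ℝ) ^ L) * √(L : ℝ))) *
        (√(ε / 2) * √((2 : ℝ) ^ L) * (√(L : ℝ) * R)) := by
        rw [hR]
        have : √(L : ℝ) ≠ 0 := by positivity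
        field_simp
    _ ≤ _ := mul_le_mul_of_nonneg_left h17 (by positivity)

end M9

theorem window {K : ℕ → ℝ} (hK : KerP K) {c C : ℝ} (hR : RenB K c C)
    {μ : Measure ℝ} [IsProbabilityMeasure μ] (hμ : ExpMom μ)
    (hvar : ∫ x, x ^ 2 ∂μ ≠ 0) (hmean : ∫ x, x ∂μ = 0) {β : ℝ} (hβ : 0 < β)
    {ε η : ℝ} (hε : 0 < ε) (hε1 : ε < 1) (hη : 0 < η) (hη1 : η < 1) :
    ∃ x₀ η₀ : ℝ, 0 < η₀ ∧ η₀ < 1 ∧
      (∀ L : ℕ, 1 ≤ L → ∫⁻ ω, ENNReal.ofReal (gg L x₀ η₀ ω) ^ (-(4 : ℝ)) ∂seqLaw μ ≤ 2) ∧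
      ∃ L₀ : ℕ, ∀ L : ℕ, L₀ ≤ L → ∀ x y : ℕ, 1 ≤ y → y ≤ 2 ^ (L - 1) → y ≤ x → x ≤ 2 ^ L →
        ε * 2 ^ (L - 1) ≤ ((x - y : ℕ) : ℝ) →
        ∫⁻ ω, ENNReal.ofReal (gg L x₀ η₀ ω *
          (Real.exp (en β (lmg μ β - 1 / 2 ^ (L - 1)) ω (y - 1)) *
          Zp K (x - y) (shift y (en β (lmg μ β - 1 / 2 ^ (L - 1)) ω)))) ∂seqLaw μ ≤
        ENNReal.ofReal (η * uu K (x - y)) := by
  classical
  obtain ⟨C', hC', hV⟩ := visits hK hR
  obtain ⟨a, A, ha, hA, hbad⟩ := bad hK hR hC' hV (δ := η / 20) (by positivity)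
  have hη0 : 0 < η / 40 := by positivity
  obtain ⟨x₀, hx₀, hmom⟩ := gg_mom hμ hmean hη0 (by linarith)
  obtain ⟨m, D, hm, hD, htilt⟩ := gg_tilt hμ hvar hmean hβ
  set Q : ℝ := √(D * (1 + A ^ 2) * (40 / η)) + 1 with hQ
  have hQ0 : 0 < Q := by positivity
  have hQ2 : D * (1 + A ^ 2) / Q ^ 2 ≤ η / 40 := by
    have h2 : D * (1 + A ^ 2) * (40 / η) ≤ Q ^ 2 := by
      have h3 : √(D * (1 + A ^ 2) * (40 / η)) ^ 2 = D * (1 + A ^ 2) * (40 / η) :=
        Real.sq_sqrt (by positivity)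
      have h4 : 0 ≤ √(D * (1 + A ^ 2) * (40 / η)) := Real.sqrt_nonneg _
      rw [hQ]
      nlinarith
    rw [div_le_iff₀ (by positivity)]
    calc D * (1 + A ^ 2) = η / 40 * (D * (1 + A ^ 2) * (40 / η)) := by field_simp
      _ ≤ η / 40 * Q ^ 2 := mul_le_mul_of_nonneg_left h2 hη0.le
  obtain ⟨L₀, hL₀, hen⟩ := M9.energy_large (ε := ε) (a := a) (A := A) (Y₀ := (x₀ + Q) / m) hε hε1 ha
    hA (by positivity)
  refine ⟨x₀, η / 40, hη0, by linarith, hmom, L₀, fun L hL x y hy hy2 hx hx2 hxy => ?_⟩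
  have hL1 : 1 ≤ L := hL₀.trans hL
  set n := x - y with hn
  have hn2 : n ≤ 2 ^ L := (Nat.sub_le _ _).trans hx2
  obtain ⟨S, hS1, hS2, hY⟩ := hen L hL n hxy hn2
  have hn1 : 1 ≤ n := (Nat.one_le_two_pow).trans hS2
  refine (M9.main_sum hK β x₀ hη0.le hL1 hy hx hx2).trans ?_
  rw [← hn]
  have hE : ∀ s : Fin n → Bool, ∫⁻ ω, ENNReal.ofReal (gg L x₀ (η / 40) ω *
      Real.exp (∑ i ∈ Tset y n s, (β * ω i - lmg μ β))) ∂seqLaw μ ≤
      ENNReal.ofReal (η / 20 + if GoodT a A n S (Tset y n s) then 0 else 1) := by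
    intro s
    split_ifs with hG
    · rw [add_zero]
      have hT : Tset y n s ⊆ range (2 ^ L) := by
        intro i hi
        have := M9.Tset_sub hy s hi
        rw [mem_Ico] at this
        rw [mem_range]
        omega
      have hYT := hY _ (M9.Tset_ne y n s) hG
      rw [div_le_iff₀ hm] at hYT
      refine (htilt L hL1 _ hT x₀ (η / 40) hx₀ hη0 (by linarith) (by linarith)).trans
        (ENNReal.ofReal_le_ofReal ?_)
      have h2 : ((Tset y n s).card : ℝ) ^ 2 / 2 ^ L ≤ A ^ 2 := by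
        rw [div_le_iff₀ (by positivity)]
        have h3 := hG.2.1
        have h4 : ((Tset y n s).card : ℝ) ^ 2 ≤ (A * √(n : ℝ)) ^ 2 :=
          pow_le_pow_left₀ (Nat.cast_nonneg _) h3 2
        rw [mul_pow, Real.sq_sqrt (Nat.cast_nonneg _)] at h4
        refine h4.trans (mul_le_mul_of_nonneg_left ?_ (by positivity))
        exact_mod_cast hn2
      have h5 : Q ≤ m * YY L (Tset y n s) - x₀ := by linarith
      have h6 : D * (1 + ((Tset y n s).card : ℝ) ^ 2 / 2 ^ L) /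
          (m * YY L (Tset y n s) - x₀) ^ 2 ≤ D * (1 + A ^ 2) / Q ^ 2 := by
        gcongr
      linarith
    · refine (M9.gg_T_le hμ β x₀ (by linarith) L _).trans ?_
      rw [← ENNReal.ofReal_one]
      exact ENNReal.ofReal_le_ofReal (by linarith)
  have h7 : ∑ s : Fin n → Bool, ENNReal.ofReal (wB K n 0 s) *
      ∫⁻ ω, ENNReal.ofReal (gg L x₀ (η / 40) ω * Real.exp (∑ i ∈ Tset y n s,
        (β * ω i - lmg μ β))) ∂seqLaw μ ≤ ENNReal.ofReal (η / 10 * uu K n) := by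
    calc _ ≤ ∑ s : Fin n → Bool, ENNReal.ofReal (wB K n 0 s) *
          ENNReal.ofReal (η / 20 + if GoodT a A n S (Tset y n s) then 0 else 1) :=
          sum_le_sum fun s _ => mul_le_mul' le_rfl (hE s)
      _ = ENNReal.ofReal (∑ s : Fin n → Bool, wB K n 0 s *
          (η / 20 + if GoodT a A n S (Tset y n s) then 0 else 1)) := by
          rw [ENNReal.ofReal_sum_of_nonneg]
          · exact sum_congr rfl fun s _ => (ENNReal.ofReal_mul (OTP.ZE.wB_nonneg hK _ _ s)).symm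
          · intro s _
            refine mul_nonneg (OTP.ZE.wB_nonneg hK _ _ s) ?_
            split_ifs <;> positivity
      _ ≤ ENNReal.ofReal (η / 10 * uu K n) := by
          refine ENNReal.ofReal_le_ofReal ?_
          simp_rw [mul_add]
          rw [sum_add_distrib, ← sum_mul, M9.sum_wB]
          have := hbad n y S hn1 hy hS1 hS2
          linarith
  refine (mul_le_mul' le_rfl h7).trans ?_
  rw [← ENNReal.ofReal_mul (Real.exp_pos _).le]
  refine ENNReal.ofReal_le_ofReal ?_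
  have hu : 0 < uu K n := OTP.Zp_pos hK _ _
  have he : Real.exp 2 ≤ 10 := by
    have h8 := Real.exp_one_lt_d9
    have h9 : Real.exp 2 = Real.exp 1 ^ 2 := by
      rw [← Real.exp_nat_mul]
      norm_num
    rw [h9]
    have h10 := Real.exp_pos 1
    nlinarith
  calc Real.exp 2 * (η / 10 * uu K n) = Real.exp 2 / 10 * (η * uu K n) := by ring
    _ ≤ 1 * (η * uu K n) := by
        apply mul_le_mul_of_nonneg_right _ (by positivity)
        linarith
    _ = _ := one_mul _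

end

end Pool.Agent.OTM
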