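import Mathlib
import Pool.Agent.Lib.MP_daa227_pr_OTM.Defs
import Pool.Agent.Lib.MP_daa227_pr_OTM.Window
import Pool.Agent.Lib.MP_daa227_pr_OTM.Ren
import Pool.Agent.Lib.MP_daa227_pr_OTM.Rho
import Pool.Agent.Lib.MP_daa227_pr_OTM.Coarse
import Pool.Agent.Lib.MP_daa227_pr_OTP.Frac

/-!
# Pinning: disorder is relevant at the marginal exponent one half
-/

namespace Pool.Agent.OTM

open MeasureTheory ProbabilityTheory Finset Filter
open MP_daa227_pr (shift seqLaw ExpMom DepOn mom)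
open Pool.Agent.OT (en lmg)
open Pool.Agent.OTP (Zp KerP wB spB LP)

noncomputable section

namespace M13

theorem gg_dep (L : ℕ) (x₀ η₀ : ℝ) : DepOn (2 ^ L) (gg L x₀ η₀) := by
  intro ω ω' h
  have hX : XX L ω = XX L ω' := by
    unfold XX
    refine sum_congr rfl fun j hj => sum_congr rfl fun i hi => ?_
    rw [mem_range] at hj hi
    rw [h i (by omega), h j hj]
  unfold gg
  rw [hX]

/-- a convergent series -/
theorem ser_bound : ∃ D : ℝ, 0 < D ∧ ∀ n : ℕ,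
    ∑ l ∈ Ico 2 n, (1 / (((l : ℝ) - 1) * √((l : ℝ) - 1))) ^ (4 / 5 : ℝ) ≤ D := by
  have hs : Summable fun l : ℕ => ((l : ℝ)) ^ (-(6 / 5 : ℝ)) := by
    rw [Real.summable_nat_rpow]
    norm_num
  refine ⟨∑' l : ℕ, ((l : ℝ)) ^ (-(6 / 5 : ℝ)) + 1, ?_, fun n => ?_⟩
  · have : 0 ≤ ∑' l : ℕ, ((l : ℝ)) ^ (-(6 / 5 : ℝ)) :=
      tsum_nonneg fun l => Real.rpow_nonneg (Nat.cast_nonneg _) _
    linarith
  have h1 : ∑ l ∈ Ico 2 n, (1 / (((l : ℝ) - 1) * √((l : ℝ) - 1))) ^ (4 / 5 : ℝ) =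
      ∑ l ∈ Ico 2 n, (((l - 1 : ℕ) : ℝ)) ^ (-(6 / 5 : ℝ)) := by
    refine sum_congr rfl fun l hl => ?_
    rw [mem_Ico] at hl
    have h2 : ((l - 1 : ℕ) : ℝ) = (l : ℝ) - 1 := by
      rw [Nat.cast_sub (by omega)]
      simp
    have h3 : (0 : ℝ) < (l : ℝ) - 1 := by
      have : (2 : ℝ) ≤ l := by exact_mod_cast hl.1
      linarith
    rw [h2]
    have h4 : 1 / (((l : ℝ) - 1) * √((l : ℝ) - 1)) = ((l : ℝ) - 1) ^ (-(3 / 2 : ℝ)) := by
      rw [Real.sqrt_eq_rpow, Real.rpow_neg h3.le, one_div]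
      congr 1
      rw [show (3 / 2 : ℝ) = 1 + 1 / 2 by norm_num, Real.rpow_add h3, Real.rpow_one]
    rw [h4, ← Real.rpow_mul h3.le]
    norm_num
  rw [h1]
  have h5 : ∑ l ∈ Ico 2 n, (((l - 1 : ℕ) : ℝ)) ^ (-(6 / 5 : ℝ)) ≤
      ∑' l : ℕ, ((l : ℝ)) ^ (-(6 / 5 : ℝ)) := by
    have h6 : ∑ l ∈ Ico 2 n, (((l - 1 : ℕ) : ℝ)) ^ (-(6 / 5 : ℝ)) =
        ∑ l ∈ (Ico 2 n).image (fun l : ℕ => l - 1), (l : ℝ) ^ (-(6 / 5 : ℝ)) := by
      rw [sum_image]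
      intro a ha b hb hab
      simp only [coe_Ico, Set.mem_Ico] at ha hb hab
      omega
    rw [h6]
    exact hs.sum_le_tsum _ fun l _ => Real.rpow_nonneg (Nat.cast_nonneg _) _
  linarith

/-- boundedness of a fractional moment -/
theorem LP_of_mom {K : ℕ → ℝ} (hK : KerP K) (μ : Measure ℝ) [IsProbabilityMeasure μ]
    {β h γ : ℝ} (hγ0 : 0 < γ)
    (hB : ∃ B : ENNReal, B ≠ ⊤ ∧ ∀ n, mom μ γ (fun ω => Zp K n (en β h ω)) ≤ B) :
    ∃ B : ℝ, ∀ n, LP K μ β h n ≤ B := by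
  obtain ⟨B, hB, hb⟩ := hB
  refine ⟨max 0 (Real.log (B.toReal + 1) / γ), fun n => ?_⟩
  unfold LP
  by_cases hi : Integrable (fun ω => Real.log (Zp K n (en β h ω))) (seqLaw μ)
  · have h2 := (MP_daa227_pr.exp_le_mom hγ0.le (OTP.R2.meas_Zp K β h n)
      (fun ω => OTP.Zp_pos hK _ _) hi).trans (hb n)
    rw [← ENNReal.ofReal_toReal hB, ENNReal.ofReal_le_ofReal_iff ENNReal.toReal_nonneg] at h2
    have h3 : Real.exp (γ * ∫ ω, Real.log (Zp K n (en β h ω)) ∂seqLaw μ) ≤ B.toReal + 1 := by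
      linarith
    have h4 : 0 < B.toReal + 1 := by
      have := ENNReal.toReal_nonneg (a := B)
      linarith
    rw [← Real.le_log_iff_exp_le h4] at h3
    refine le_max_of_le_right ?_
    rw [le_div_iff₀ hγ0, mul_comm]
    exact h3
  · rw [integral_undef hi]
    exact le_max_left _ _

end M13

theorem marginal {K : ℕ → ℝ} (hK : KerP K) (μ : Measure ℝ) [IsProbabilityMeasure μ]
    (hμ : ExpMom μ) (hvar : ∫ x, x ^ 2 ∂μ ≠ 0) (hmean : ∫ x, x ∂μ = 0) {β : ℝ} (hβ : 0 < β)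
    (hlow : ∃ c : ℝ, 0 < c ∧ ∀ k : ℕ, 1 ≤ k → c * (k : ℝ) ^ (-(3 / 2 : ℝ)) ≤ K k)
    (hup : ∃ C : ℝ, ∀ k : ℕ, 1 ≤ k → K k ≤ C * (k : ℝ) ^ (-(3 / 2 : ℝ))) :
    ∃ h₁ : ℝ, h₁ < lmg μ β ∧ ∃ B : ℝ, ∀ n, LP K μ β h₁ n ≤ B := by
  obtain ⟨c, C, hR⟩ := renB hK hlow hup
  obtain ⟨C₃, hC₃, hrho⟩ := rho hK hR
  obtain ⟨D, hD, hser⟩ := M13.ser_bound
  -- choice of the small parameter
  have hM : (0 : ℝ) < 2 ^ (1 - 4 / 5 : ℝ) := by positivity
  set q : ℝ := (1 / (2 ^ (1 - 4 / 5 : ℝ) * D)) ^ (5 / 4 : ℝ) with hq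
  have hq0 : 0 < q := by positivity
  set η : ℝ := min (1 / 2) (q / (2 * C₃)) with hη
  have hη0 : 0 < η := lt_min (by norm_num) (by positivity)
  have hη1 : η ≤ 1 / 2 := min_le_left _ _
  have hηq : C₃ * η ≤ q / 2 := by
    have : η ≤ q / (2 * C₃) := min_le_right _ _
    rw [le_div_iff₀ (by positivity)] at this
    linarith
  set ε : ℝ := min (1 / 8) (η ^ 2) with hε
  have hε0 : 0 < ε := lt_min (by norm_num) (by positivity)
  have hε1 : ε ≤ 1 / 8 := min_le_left _ _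
  have hε2 : √ε ≤ η := by
    rw [Real.sqrt_le_left hη0.le]
    exact min_le_right _ _
  obtain ⟨x₀, η₀, h0, h1, hmom, L₀, hwin⟩ := window hK hR hμ hvar hmean hβ (ε := ε) (η := η) hε0
    (by linarith) hη0 (by linarith)
  obtain ⟨L₁, hL₁⟩ : ∃ L₁ : ℕ, 1 / ε ≤ (2 : ℝ) ^ L₁ := by
    obtain ⟨n, hn⟩ := pow_unbounded_of_one_lt (1 / ε) (by norm_num : (1 : ℝ) < 2)
    exact ⟨n, hn.le⟩
  set L : ℕ := max L₀ (L₁ + 1) with hL
  have hLL₀ : L₀ ≤ L := le_max_left _ _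
  have hLL₁ : L₁ + 1 ≤ L := le_max_right _ _
  have hL1 : 1 ≤ L := by omega
  have h2k : 2 * 2 ^ (L - 1) = 2 ^ L := by
    rw [← pow_succ']
    congr 1
    omega
  have hkε : 1 / ε ≤ ((2 ^ (L - 1) : ℕ) : ℝ) := by
    refine hL₁.trans ?_
    push_cast
    exact pow_le_pow_right₀ (by norm_num) (by omega)
  refine ⟨lmg μ β - 1 / 2 ^ (L - 1), by
    have : (0 : ℝ) < 1 / 2 ^ (L - 1) := by positivity
    linarith, ?_⟩
  have hu0 : ∀ n, 0 ≤ uu K n := fun n => (OTP.Zp_pos hK _ _).le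
  refine M13.LP_of_mom hK μ (γ := 4 / 5) (by norm_num) ?_
  refine coarse hK hμ (γ := 4 / 5) (by norm_num) (by norm_num) (k := 2 ^ (L - 1))
    Nat.one_le_two_pow (g := gg L x₀ η₀) (M9.gg_meas L x₀ η₀) (by
      rw [h2k]
      exact M13.gg_dep L x₀ η₀) (M9.gg_pos h0) (M := 2) (by norm_num) ?_
    (fun y x => if ε * ((2 ^ (L - 1) : ℕ) : ℝ) ≤ ((x - y : ℕ) : ℝ) then η * uu K (x - y) else
      Real.exp 3 * uu K (x - y)) (fun y x => by
        have := hu0 (x - y)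
        split_ifs <;> positivity) ?_
    (fun l => if 2 ≤ l then C₃ * (√ε + η) / (((l : ℝ) - 1) * √((l : ℝ) - 1)) else 0) ?_ ?_ ?_
  · have e1 : -((4 / 5 : ℝ) / (1 - 4 / 5)) = -(4 : ℝ) := by norm_num
    rw [e1]
    refine (hmom L hL1).trans (le_of_eq ?_)
    simp
  · intro y hy x hx
    rw [mem_Icc] at hy hx
    rw [h2k] at hx
    split_ifs with hc
    · refine hwin L hLL₀ x y hy.1 hy.2 hx.1 hx.2 ?_
      push_cast at hc
      exact hc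
    · exact window_any hK hμ β x₀ h0 h1 hL1 hy.1 hy.2 hx.1 hx.2
  · intro l
    split_ifs with hl
    · have h3 : (0 : ℝ) < (l : ℝ) - 1 := by
        have : (2 : ℝ) ≤ l := by exact_mod_cast hl
        linarith
      positivity
    · exact le_rfl
  · intro l hl y hy
    rw [if_pos hl]
    exact hrho ε η hε0 (by linarith) hη0 (by linarith) (2 ^ (L - 1)) hkε l hl y hy
  · intro n
    have e2 : ∑ l ∈ Ico 2 n, (if 2 ≤ l then C₃ * (√ε + η) / (((l : ℝ) - 1) * √((l : ℝ) - 1))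
        else 0) ^ (4 / 5 : ℝ) = (C₃ * (√ε + η)) ^ (4 / 5 : ℝ) *
        ∑ l ∈ Ico 2 n, (1 / (((l : ℝ) - 1) * √((l : ℝ) - 1))) ^ (4 / 5 : ℝ) := by
      rw [mul_sum]
      refine sum_congr rfl fun l hl => ?_
      rw [mem_Ico] at hl
      have h3 : (0 : ℝ) < (l : ℝ) - 1 := by
        have : (2 : ℝ) ≤ l := by exact_mod_cast hl.1
        linarith
      rw [if_pos hl.1, ← Real.mul_rpow (by positivity) (by positivity), mul_one_div]
    rw [e2]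
    have h6 : C₃ * (√ε + η) ≤ q := by
      have : C₃ * (√ε + η) ≤ C₃ * (η + η) :=
        mul_le_mul_of_nonneg_left (by linarith) hC₃.le
      linarith
    have h7 : (C₃ * (√ε + η)) ^ (4 / 5 : ℝ) ≤ 1 / (2 ^ (1 - 4 / 5 : ℝ) * D) := by
      refine (Real.rpow_le_rpow (by positivity) h6 (by norm_num)).trans ?_
      rw [hq, ← Real.rpow_mul (by positivity)]
      norm_num
    calc (2 : ℝ) ^ (1 - 4 / 5 : ℝ) * ((C₃ * (√ε + η)) ^ (4 / 5 : ℝ) *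
          ∑ l ∈ Ico 2 n, (1 / (((l : ℝ) - 1) * √((l : ℝ) - 1))) ^ (4 / 5 : ℝ))
        ≤ (2 : ℝ) ^ (1 - 4 / 5 : ℝ) * (1 / (2 ^ (1 - 4 / 5 : ℝ) * D) * D) := by
          apply mul_le_mul_of_nonneg_left _ hM.le
          apply mul_le_mul h7 (hser n) _ (by positivity)
          refine sum_nonneg fun l hl => ?_
          rw [mem_Ico] at hl
          have h3 : (0 : ℝ) < (l : ℝ) - 1 := by
            have : (2 : ℝ) ≤ l := by exact_mod_cast hl.1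
            linarith
          positivity
      _ = 1 := by field_simp

end

end Pool.Agent.OTM
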