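import Mathlib
import Pool.Agent.Lib.MP_daa227_pr_OTM.Defs

/-!
# Hilbert-Schmidt and row-sum bounds of the dyadic kernel
-/

namespace Pool.Agent.OTM

open MeasureTheory ProbabilityTheory Finset Filter

noncomputable section

namespace M6

/-- weight of the scale `t` -/
def x (t : ℕ) : ℝ := 1 / √((2 : ℝ) ^ t)

theorem x_pos (t : ℕ) : 0 < x t := by
  unfold x
  positivity

theorem x_sq (t : ℕ) : x t ^ 2 = 1 / 2 ^ t := by
  unfold x
  rw [div_pow, Real.sq_sqrt (by positivity), one_pow]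

theorem x_succ (t : ℕ) : x t = √2 * x (t + 1) := by
  unfold x
  rw [pow_succ, Real.sqrt_mul (by positivity)]
  have h2 : √(2 : ℝ) ≠ 0 := by positivity
  have h3 : √((2 : ℝ) ^ t) ≠ 0 := by positivity
  field_simp

theorem tel (n a : ℕ) : ∑ k ∈ range n, x (a + 1 + k) ≤ (1 + √2) * x a := by
  have h : ∀ n : ℕ, ∑ k ∈ range n, x (a + 1 + k) = (1 + √2) * (x a - x (a + n)) := by
    intro n
    induction n with
    | zero => simp
    | succ n ih =>
      rw [sum_range_succ, ih]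
      have h1 := x_succ (a + n)
      have h2 : √(2 : ℝ) * √2 = 2 := Real.mul_self_sqrt (by norm_num)
      have e1 : a + 1 + n = a + n + 1 := by ring
      have e2 : a + (n + 1) = a + n + 1 := by ring
      rw [e1, e2, h1]
      linear_combination (-x (a + n + 1)) * h2
  rw [h n]
  have h1 := x_pos (a + n)
  have h2 : (0 : ℝ) ≤ √2 := Real.sqrt_nonneg 2
  nlinarith

theorem sq_le (n : ℕ) : ∀ (a : ℕ) (p : ℕ → Prop) [DecidablePred p], (∀ t, p t → p (t + 1)) →
    (∑ k ∈ range n, if p (a + k) then x (a + k) else 0) ^ 2 ≤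
      6 * ∑ k ∈ range n, if p (a + k) then x (a + k) ^ 2 else 0 := by
  induction n with
  | zero => intro a p _ _; simp
  | succ n ih =>
    intro a p _ hp
    rw [sum_range_succ', sum_range_succ']
    have e : ∀ f : ℕ → ℝ, ∑ k ∈ range n, f (a + (k + 1)) = ∑ k ∈ range n, f (a + 1 + k) :=
      fun f => sum_congr rfl fun k _ => by rw [show a + (k + 1) = a + 1 + k by ring]
    rw [e (fun t => if p t then x t else 0), e (fun t => if p t then x t ^ 2 else 0)]
    simp only [add_zero]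
    by_cases h : p a
    · have hall : ∀ k, p (a + 1 + k) := by
        intro k
        induction k with
        | zero => exact hp _ h
        | succ k ihk => exact hp _ ihk
      have h1 := ih (a + 1) p hp
      simp only [hall, h, if_true] at h1 ⊢
      have h2 := tel n a
      have h3 : 0 ≤ ∑ k ∈ range n, x (a + 1 + k) := sum_nonneg fun k _ => (x_pos _).le
      have h4 := x_pos a
      have h5 : √(2 : ℝ) ≤ 3 / 2 := by
        rw [Real.sqrt_le_left (by norm_num)]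
        norm_num
      have h6 : ∑ k ∈ range n, x (a + 1 + k) ≤ 5 / 2 * x a := by
        refine h2.trans ?_
        nlinarith
      nlinarith
    · simp only [h, if_false, add_zero]
      exact ih (a + 1) p hp

theorem card_le (N t j : ℕ) : (((range N).filter fun i => i / 2 ^ t = j / 2 ^ t).card : ℝ) ≤ 2 ^ t := by
  have h : ((range N).filter fun i => i / 2 ^ t = j / 2 ^ t) ⊆
      Ico (j / 2 ^ t * 2 ^ t) (j / 2 ^ t * 2 ^ t + 2 ^ t) := by
    intro i hi
    rw [mem_filter] at hi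
    rw [mem_Ico, ← hi.2]
    have hp : 0 < 2 ^ t := by positivity
    refine ⟨Nat.div_mul_le_self i _, ?_⟩
    have := Nat.lt_div_mul_add (a := i) hp
    exact this
  have h2 := card_le_card h
  rw [Nat.card_Ico, Nat.add_sub_cancel_left] at h2
  exact_mod_cast h2

theorem Vk_sq_le (L i j : ℕ) : Vk L i j ^ 2 ≤
    (1 / ((2 : ℝ) ^ L * L)) * (6 * ∑ t ∈ Icc 1 L, if i / 2 ^ t = j / 2 ^ t then (1 : ℝ) / 2 ^ t else 0) := by
  unfold Vk
  rw [mul_pow, div_pow, Real.sq_sqrt (by positivity), one_pow]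
  refine mul_le_mul_of_nonneg_left ?_ (by positivity)
  have h := sq_le L 1 (fun t => i / 2 ^ t = j / 2 ^ t) (fun t ht => by
    show i / 2 ^ (t + 1) = j / 2 ^ (t + 1)
    rw [pow_succ, ← Nat.div_div_eq_div_mul, ← Nat.div_div_eq_div_mul, ht])
  have e : ∀ f : ℕ → ℝ, ∑ t ∈ Icc 1 L, f t = ∑ k ∈ range L, f (1 + k) := by
    intro f
    have h1 : Icc 1 L = Ico 1 (L + 1) := by
      ext t
      simp only [mem_Icc, mem_Ico]
      omega
    rw [h1, sum_Ico_eq_sum_range, Nat.add_sub_cancel]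
  rw [e, e]
  simp only [x_sq] at h
  exact h

theorem row {L : ℕ} (hL : 1 ≤ L) (j : ℕ) : ∑ i ∈ range (2 ^ L), Vk L i j ^ 2 ≤ 6 / 2 ^ L := by
  refine (sum_le_sum fun i _ => Vk_sq_le L i j).trans ?_
  rw [← mul_sum, ← mul_sum, sum_comm]
  have h1 : ∀ t ∈ Icc 1 L, ∑ i ∈ range (2 ^ L), (if i / 2 ^ t = j / 2 ^ t then (1 : ℝ) / 2 ^ t else 0) ≤ 1 := by
    intro t _
    rw [← sum_filter, sum_const, nsmul_eq_mul]
    have := card_le (2 ^ L) t j
    rw [mul_one_div, div_le_one (by positivity)]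
    exact this
  have h2 := sum_le_sum h1
  rw [sum_const, Nat.card_Icc, Nat.add_sub_cancel, nsmul_eq_mul, mul_one] at h2
  have hL0 : (0 : ℝ) < L := by exact_mod_cast hL
  calc (1 / ((2 : ℝ) ^ L * L)) * (6 * ∑ t ∈ Icc 1 L, ∑ i ∈ range (2 ^ L),
        (if i / 2 ^ t = j / 2 ^ t then (1 : ℝ) / 2 ^ t else 0))
      ≤ (1 / ((2 : ℝ) ^ L * L)) * (6 * L) := by
        refine mul_le_mul_of_nonneg_left ?_ (by positivity)
        linarith
    _ = 6 / 2 ^ L := by
        field_simp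

end M6

/-- Hilbert-Schmidt bound -/
theorem Vk_sq {L : ℕ} (hL : 1 ≤ L) :
    ∑ j ∈ range (2 ^ L), ∑ i ∈ range j, Vk L i j ^ 2 ≤ 6 := by
  have h1 : ∀ j ∈ range (2 ^ L), ∑ i ∈ range j, Vk L i j ^ 2 ≤ 6 / 2 ^ L := by
    intro j hj
    refine le_trans ?_ (M6.row hL j)
    refine sum_le_sum_of_subset_of_nonneg ?_ fun i _ _ => sq_nonneg _
    exact range_subset_range.2 (mem_range.1 hj).le
  refine (sum_le_sum h1).trans ?_
  rw [sum_const, card_range, nsmul_eq_mul]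
  push_cast
  rw [mul_div_cancel₀]
  positivity

/-- row sums -/
theorem Vk_lin {L : ℕ} (hL : 1 ≤ L) (T : Finset ℕ) :
    ∑ i ∈ range (2 ^ L), (∑ j ∈ T, Vk L i j) ^ 2 ≤ 6 * (T.card : ℝ) ^ 2 / 2 ^ L := by
  have h1 : ∀ i ∈ range (2 ^ L), (∑ j ∈ T, Vk L i j) ^ 2 ≤ (T.card : ℝ) * ∑ j ∈ T, Vk L i j ^ 2 :=
    fun i _ => sq_sum_le_card_mul_sum_sq
  refine (sum_le_sum h1).trans ?_
  rw [← mul_sum, sum_comm]
  have h2 : ∑ j ∈ T, ∑ i ∈ range (2 ^ L), Vk L i j ^ 2 ≤ ∑ _j ∈ T, (6 : ℝ) / 2 ^ L :=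
    sum_le_sum fun j _ => M6.row hL j
  rw [sum_const, nsmul_eq_mul] at h2
  calc (T.card : ℝ) * ∑ j ∈ T, ∑ i ∈ range (2 ^ L), Vk L i j ^ 2
      ≤ (T.card : ℝ) * ((T.card : ℝ) * (6 / 2 ^ L)) := mul_le_mul_of_nonneg_left h2 (by positivity)
    _ = 6 * (T.card : ℝ) ^ 2 / 2 ^ L := by ring

end

end Pool.Agent.OTM
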